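import Pool.Agent.Lib.MP_afdd4d_co.K10.LD.Base
import Pool.Agent.Lib.MP_afdd4d_co.L9.LFast

/-!
# The lists of all pairs

The list of a pair and six low bits is computed from the vectors of the type.
-/

namespace Pool.Agent.Lib.MP_afdd4d_co.K10.LS

open K8 K8.L9

/-- The numbers of the type `0`. -/
noncomputable def D00 (j : ℕ) : ℕ := nth2 0 (nat_lit 12) LD.C00 j

/-- The sum for the type `0`. -/
noncomputable def SD00 : ℕ := smG (nat_lit 10) D00 (fun _ => nat_lit 0) (nat_lit 129)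

/-- The numbers of the type `1`. -/
noncomputable def D01 (j : ℕ) : ℕ := nth2 0 (nat_lit 12) LD.C01 j

/-- The sum for the type `1`. -/
noncomputable def SD01 : ℕ := smG (nat_lit 10) D01 (fun _ => nat_lit 0) (nat_lit 76)

/-- The numbers of the type `2`. -/
noncomputable def D02 (j : ℕ) : ℕ := nth2 0 (nat_lit 12) LD.C02 j

/-- The sum for the type `2`. -/
noncomputable def SD02 : ℕ := smG (nat_lit 10) D02 (fun _ => nat_lit 0) (nat_lit 54)

/-- The numbers of the type `3`. -/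
noncomputable def D03 (j : ℕ) : ℕ := nth2 0 (nat_lit 12) LD.C03 j

/-- The sum for the type `3`. -/
noncomputable def SD03 : ℕ := smG (nat_lit 10) D03 (fun _ => nat_lit 0) (nat_lit 47)

/-- The numbers of the type `4`. -/
noncomputable def D04 (j : ℕ) : ℕ := nth2 0 (nat_lit 12) LD.C04 j

/-- The sum for the type `4`. -/
noncomputable def SD04 : ℕ := smG (nat_lit 10) D04 (fun _ => nat_lit 0) (nat_lit 75)

/-- The numbers of the type `5`. -/
noncomputable def D05 (j : ℕ) : ℕ := nth2 0 (nat_lit 12) LD.C05 j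

/-- The sum for the type `5`. -/
noncomputable def SD05 : ℕ := smG (nat_lit 10) D05 (fun _ => nat_lit 0) (nat_lit 76)

/-- The numbers of the type `6`. -/
noncomputable def D06 (j : ℕ) : ℕ := nth2 0 (nat_lit 12) LD.C06 j

/-- The sum for the type `6`. -/
noncomputable def SD06 : ℕ := smG (nat_lit 10) D06 (fun _ => nat_lit 0) (nat_lit 66)

/-- The numbers of the type `7`. -/
noncomputable def D07 (j : ℕ) : ℕ := nth2 0 (nat_lit 12) LD.C07 j

/-- The sum for the type `7`. -/
noncomputable def SD07 : ℕ := smG (nat_lit 10) D07 (fun _ => nat_lit 0) (nat_lit 50)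

/-- The numbers of the type `8`. -/
noncomputable def D08 (j : ℕ) : ℕ := nth2 0 (nat_lit 12) LD.C08 j

/-- The sum for the type `8`. -/
noncomputable def SD08 : ℕ := smG (nat_lit 10) D08 (fun _ => nat_lit 0) (nat_lit 47)

/-- The numbers of the type `9`. -/
noncomputable def D09 (j : ℕ) : ℕ := nth2 0 (nat_lit 12) LD.C09 j

/-- The sum for the type `9`. -/
noncomputable def SD09 : ℕ := smG (nat_lit 10) D09 (fun _ => nat_lit 0) (nat_lit 54)

/-- The numbers of the type `10`. -/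
noncomputable def D10 (j : ℕ) : ℕ := nth2 0 (nat_lit 12) LD.C10 j

/-- The sum for the type `10`. -/
noncomputable def SD10 : ℕ := smG (nat_lit 10) D10 (fun _ => nat_lit 0) (nat_lit 47)

/-- The numbers of the type `11`. -/
noncomputable def D11 (j : ℕ) : ℕ := nth2 0 (nat_lit 12) LD.C11 j

/-- The sum for the type `11`. -/
noncomputable def SD11 : ℕ := smG (nat_lit 10) D11 (fun _ => nat_lit 0) (nat_lit 62)

/-- The numbers of the type `12`. -/
noncomputable def D12 (j : ℕ) : ℕ := nth2 0 (nat_lit 12) LD.C12 j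

/-- The sum for the type `12`. -/
noncomputable def SD12 : ℕ := smG (nat_lit 10) D12 (fun _ => nat_lit 0) (nat_lit 75)

/-- The numbers of the type `13`. -/
noncomputable def D13 (j : ℕ) : ℕ := nth2 0 (nat_lit 12) LD.C13 j

/-- The sum for the type `13`. -/
noncomputable def SD13 : ℕ := smG (nat_lit 10) D13 (fun _ => nat_lit 0) (nat_lit 70)

/-- The numbers of the type `14`. -/
noncomputable def D14 (j : ℕ) : ℕ := nth2 0 (nat_lit 12) LD.C14 j

/-- The sum for the type `14`. -/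
noncomputable def SD14 : ℕ := smG (nat_lit 10) D14 (fun _ => nat_lit 0) (nat_lit 46)

/-- The numbers of the type `15`. -/
noncomputable def D15 (j : ℕ) : ℕ := nth2 0 (nat_lit 12) LD.C15 j

/-- The sum for the type `15`. -/
noncomputable def SD15 : ℕ := smG (nat_lit 10) D15 (fun _ => nat_lit 0) (nat_lit 55)

/-- The numbers of the type `16`. -/
noncomputable def D16 (j : ℕ) : ℕ := nth2 0 (nat_lit 12) LD.C16 j

/-- The sum for the type `16`. -/
noncomputable def SD16 : ℕ := smG (nat_lit 10) D16 (fun _ => nat_lit 0) (nat_lit 48)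

/-- The numbers of the type `17`. -/
noncomputable def D17 (j : ℕ) : ℕ := nth2 0 (nat_lit 12) LD.C17 j

/-- The sum for the type `17`. -/
noncomputable def SD17 : ℕ := smG (nat_lit 10) D17 (fun _ => nat_lit 0) (nat_lit 51)

/-- The numbers of the type `18`. -/
noncomputable def D18 (j : ℕ) : ℕ := nth2 0 (nat_lit 12) LD.C18 j

/-- The sum for the type `18`. -/
noncomputable def SD18 : ℕ := smG (nat_lit 10) D18 (fun _ => nat_lit 0) (nat_lit 72)

/-- The numbers of the type `19`. -/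
noncomputable def D19 (j : ℕ) : ℕ := nth2 0 (nat_lit 12) LD.C19 j

/-- The sum for the type `19`. -/
noncomputable def SD19 : ℕ := smG (nat_lit 10) D19 (fun _ => nat_lit 0) (nat_lit 79)

/-- The numbers of the type `20`. -/
noncomputable def D20 (j : ℕ) : ℕ := nth2 0 (nat_lit 12) LD.C20 j

/-- The sum for the type `20`. -/
noncomputable def SD20 : ℕ := smG (nat_lit 10) D20 (fun _ => nat_lit 0) (nat_lit 56)

/-- The numbers of the type `21`. -/
noncomputable def D21 (j : ℕ) : ℕ := nth2 0 (nat_lit 12) LD.C21 j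

/-- The sum for the type `21`. -/
noncomputable def SD21 : ℕ := smG (nat_lit 10) D21 (fun _ => nat_lit 0) (nat_lit 78)

/-- The numbers of the type `22`. -/
noncomputable def D22 (j : ℕ) : ℕ := nth2 0 (nat_lit 12) LD.C22 j

/-- The sum for the type `22`. -/
noncomputable def SD22 : ℕ := smG (nat_lit 10) D22 (fun _ => nat_lit 0) (nat_lit 46)

/-- The numbers of the type `23`. -/
noncomputable def D23 (j : ℕ) : ℕ := nth2 0 (nat_lit 12) LD.C23 j

/-- The sum for the type `23`. -/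
noncomputable def SD23 : ℕ := smG (nat_lit 10) D23 (fun _ => nat_lit 0) (nat_lit 58)

/-- The numbers of the type `24`. -/
noncomputable def D24 (j : ℕ) : ℕ := nth2 0 (nat_lit 12) LD.C24 j

/-- The sum for the type `24`. -/
noncomputable def SD24 : ℕ := smG (nat_lit 10) D24 (fun _ => nat_lit 0) (nat_lit 69)

/-- The numbers of the type `25`. -/
noncomputable def D25 (j : ℕ) : ℕ := nth2 0 (nat_lit 12) LD.C25 j

/-- The sum for the type `25`. -/
noncomputable def SD25 : ℕ := smG (nat_lit 10) D25 (fun _ => nat_lit 0) (nat_lit 67)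

/-- The numbers of the type `26`. -/
noncomputable def D26 (j : ℕ) : ℕ := nth2 0 (nat_lit 12) LD.C26 j

/-- The sum for the type `26`. -/
noncomputable def SD26 : ℕ := smG (nat_lit 10) D26 (fun _ => nat_lit 0) (nat_lit 87)

/-- The numbers of the type `27`. -/
noncomputable def D27 (j : ℕ) : ℕ := nth2 0 (nat_lit 12) LD.C27 j

/-- The sum for the type `27`. -/
noncomputable def SD27 : ℕ := smG (nat_lit 10) D27 (fun _ => nat_lit 0) (nat_lit 51)

/-- The numbers of the type `28`. -/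
noncomputable def D28 (j : ℕ) : ℕ := nth2 0 (nat_lit 12) LD.C28 j

/-- The sum for the type `28`. -/
noncomputable def SD28 : ℕ := smG (nat_lit 10) D28 (fun _ => nat_lit 0) (nat_lit 55)

/-- The numbers of the type `29`. -/
noncomputable def D29 (j : ℕ) : ℕ := nth2 0 (nat_lit 12) LD.C29 j

/-- The sum for the type `29`. -/
noncomputable def SD29 : ℕ := smG (nat_lit 10) D29 (fun _ => nat_lit 0) (nat_lit 62)

/-- The numbers of the type `30`. -/
noncomputable def D30 (j : ℕ) : ℕ := nth2 0 (nat_lit 12) LD.C30 j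

/-- The sum for the type `30`. -/
noncomputable def SD30 : ℕ := smG (nat_lit 10) D30 (fun _ => nat_lit 0) (nat_lit 74)

/-- The numbers of the type `31`. -/
noncomputable def D31 (j : ℕ) : ℕ := nth2 0 (nat_lit 12) LD.C31 j

/-- The sum for the type `31`. -/
noncomputable def SD31 : ℕ := smG (nat_lit 10) D31 (fun _ => nat_lit 0) (nat_lit 62)

/-- The numbers of the type `32`. -/
noncomputable def D32 (j : ℕ) : ℕ := nth2 0 (nat_lit 12) LD.C32 j

/-- The sum for the type `32`. -/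
noncomputable def SD32 : ℕ := smG (nat_lit 10) D32 (fun _ => nat_lit 0) (nat_lit 78)

/-- The numbers of the type `33`. -/
noncomputable def D33 (j : ℕ) : ℕ := nth2 0 (nat_lit 12) LD.C33 j

/-- The sum for the type `33`. -/
noncomputable def SD33 : ℕ := smG (nat_lit 10) D33 (fun _ => nat_lit 0) (nat_lit 105)

/-- The arrays of the pair `0`: type `0`, marked vertex `0`. -/
noncomputable def W00 (j : ℕ) : ℕ := mvF0 (D00 j)

/-- The sum of the arrays. -/
noncomputable def S00 : ℕ := mvF0 SD00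

/-- The lists of the pair `0`. -/
noncomputable def T00 : List (List (List Nat)) :=
  tabW0 (lsW (nat_lit 45387835666071681) (nat_lit 8388608) (nat_lit 129) S00 W00)

/-- The arrays of the pair `1`: type `1`, marked vertex `0`. -/
noncomputable def W01 (j : ℕ) : ℕ := mvF0 (D01 j)

/-- The sum of the arrays. -/
noncomputable def S01 : ℕ := mvF0 SD01

/-- The lists of the pair `1`. -/
noncomputable def T01 : List (List (List Nat)) :=
  tabW0 (lsW (nat_lit 41658292224655489) (nat_lit 8388608) (nat_lit 76) S01 W01)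

/-- The arrays of the pair `2`: type `1`, marked vertex `3`. -/
noncomputable def W02 (j : ℕ) : ℕ := mvF3 (D01 j)

/-- The sum of the arrays. -/
noncomputable def S02 : ℕ := mvF3 SD01

/-- The lists of the pair `2`. -/
noncomputable def T02 : List (List (List Nat)) :=
  tabW3 (lsW (nat_lit 41658292224655489) (nat_lit 8388608) (nat_lit 76) S02 W02)

/-- The arrays of the pair `3`: type `2`, marked vertex `0`. -/
noncomputable def W03 (j : ℕ) : ℕ := mvF0 (D02 j)

/-- The sum of the arrays. -/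
noncomputable def S03 : ℕ := mvF0 SD02

/-- The lists of the pair `3`. -/
noncomputable def T03 : List (List (List Nat)) :=
  tabW0 (lsW (nat_lit 40110179852746881) (nat_lit 8388608) (nat_lit 54) S03 W03)

/-- The arrays of the pair `4`: type `2`, marked vertex `2`. -/
noncomputable def W04 (j : ℕ) : ℕ := mvF2 (D02 j)

/-- The sum of the arrays. -/
noncomputable def S04 : ℕ := mvF2 SD02

/-- The lists of the pair `4`. -/
noncomputable def T04 : List (List (List Nat)) :=
  tabW2 (lsW (nat_lit 40110179852746881) (nat_lit 8388608) (nat_lit 54) S04 W04)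

/-- The arrays of the pair `5`: type `2`, marked vertex `4`. -/
noncomputable def W05 (j : ℕ) : ℕ := mvF4 (D02 j)

/-- The sum of the arrays. -/
noncomputable def S05 : ℕ := mvF4 SD02

/-- The lists of the pair `5`. -/
noncomputable def T05 : List (List (List Nat)) :=
  tabW4 (lsW (nat_lit 40110179852746881) (nat_lit 8388608) (nat_lit 54) S05 W05)

/-- The arrays of the pair `6`: type `3`, marked vertex `0`. -/
noncomputable def W06 (j : ℕ) : ℕ := mvF0 (D03 j)

/-- The sum of the arrays. -/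
noncomputable def S06 : ℕ := mvF0 SD03

/-- The lists of the pair `6`. -/
noncomputable def T06 : List (List (List Nat)) :=
  tabW0 (lsW (nat_lit 39617598643503233) (nat_lit 8388608) (nat_lit 47) S06 W06)

/-- The arrays of the pair `7`: type `3`, marked vertex `1`. -/
noncomputable def W07 (j : ℕ) : ℕ := mvF1 (D03 j)

/-- The sum of the arrays. -/
noncomputable def S07 : ℕ := mvF1 SD03

/-- The lists of the pair `7`. -/
noncomputable def T07 : List (List (List Nat)) :=
  tabW1 (lsW (nat_lit 39617598643503233) (nat_lit 8388608) (nat_lit 47) S07 W07)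

/-- The arrays of the pair `8`: type `3`, marked vertex `4`. -/
noncomputable def W08 (j : ℕ) : ℕ := mvF4 (D03 j)

/-- The sum of the arrays. -/
noncomputable def S08 : ℕ := mvF4 SD03

/-- The lists of the pair `8`. -/
noncomputable def T08 : List (List (List Nat)) :=
  tabW4 (lsW (nat_lit 39617598643503233) (nat_lit 8388608) (nat_lit 47) S08 W08)

/-- The arrays of the pair `9`: type `4`, marked vertex `0`. -/
noncomputable def W09 (j : ℕ) : ℕ := mvF0 (D04 j)

/-- The sum of the arrays. -/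
noncomputable def S09 : ℕ := mvF0 SD04

/-- The lists of the pair `9`. -/
noncomputable def T09 : List (List (List Nat)) :=
  tabW0 (lsW (nat_lit 41587923480477825) (nat_lit 8388608) (nat_lit 75) S09 W09)

/-- The arrays of the pair `10`: type `4`, marked vertex `4`. -/
noncomputable def W10 (j : ℕ) : ℕ := mvF4 (D04 j)

/-- The sum of the arrays. -/
noncomputable def S10 : ℕ := mvF4 SD04

/-- The lists of the pair `10`. -/
noncomputable def T10 : List (List (List Nat)) :=
  tabW4 (lsW (nat_lit 41587923480477825) (nat_lit 8388608) (nat_lit 75) S10 W10)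

/-- The arrays of the pair `11`: type `5`, marked vertex `0`. -/
noncomputable def W11 (j : ℕ) : ℕ := mvF0 (D05 j)

/-- The sum of the arrays. -/
noncomputable def S11 : ℕ := mvF0 SD05

/-- The lists of the pair `11`. -/
noncomputable def T11 : List (List (List Nat)) :=
  tabW0 (lsW (nat_lit 41658292224655489) (nat_lit 8388608) (nat_lit 76) S11 W11)

/-- The arrays of the pair `12`: type `5`, marked vertex `2`. -/
noncomputable def W12 (j : ℕ) : ℕ := mvF2 (D05 j)

/-- The sum of the arrays. -/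
noncomputable def S12 : ℕ := mvF2 SD05

/-- The lists of the pair `12`. -/
noncomputable def T12 : List (List (List Nat)) :=
  tabW2 (lsW (nat_lit 41658292224655489) (nat_lit 8388608) (nat_lit 76) S12 W12)

/-- The arrays of the pair `13`: type `6`, marked vertex `0`. -/
noncomputable def W13 (j : ℕ) : ℕ := mvF0 (D06 j)

/-- The sum of the arrays. -/
noncomputable def S13 : ℕ := mvF0 SD06

/-- The lists of the pair `13`. -/
noncomputable def T13 : List (List (List Nat)) :=
  tabW0 (lsW (nat_lit 40954604782878849) (nat_lit 8388608) (nat_lit 66) S13 W13)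

/-- The arrays of the pair `14`: type `6`, marked vertex `1`. -/
noncomputable def W14 (j : ℕ) : ℕ := mvF1 (D06 j)

/-- The sum of the arrays. -/
noncomputable def S14 : ℕ := mvF1 SD06

/-- The lists of the pair `14`. -/
noncomputable def T14 : List (List (List Nat)) :=
  tabW1 (lsW (nat_lit 40954604782878849) (nat_lit 8388608) (nat_lit 66) S14 W14)

/-- The arrays of the pair `15`: type `7`, marked vertex `0`. -/
noncomputable def W15 (j : ℕ) : ℕ := mvF0 (D07 j)

/-- The sum of the arrays. -/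
noncomputable def S15 : ℕ := mvF0 SD07

/-- The lists of the pair `15`. -/
noncomputable def T15 : List (List (List Nat)) :=
  tabW0 (lsW (nat_lit 39828704876036225) (nat_lit 8388608) (nat_lit 50) S15 W15)

/-- The arrays of the pair `16`: type `7`, marked vertex `1`. -/
noncomputable def W16 (j : ℕ) : ℕ := mvF1 (D07 j)

/-- The sum of the arrays. -/
noncomputable def S16 : ℕ := mvF1 SD07

/-- The lists of the pair `16`. -/
noncomputable def T16 : List (List (List Nat)) :=
  tabW1 (lsW (nat_lit 39828704876036225) (nat_lit 8388608) (nat_lit 50) S16 W16)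

/-- The arrays of the pair `17`: type `7`, marked vertex `3`. -/
noncomputable def W17 (j : ℕ) : ℕ := mvF3 (D07 j)

/-- The sum of the arrays. -/
noncomputable def S17 : ℕ := mvF3 SD07

/-- The lists of the pair `17`. -/
noncomputable def T17 : List (List (List Nat)) :=
  tabW3 (lsW (nat_lit 39828704876036225) (nat_lit 8388608) (nat_lit 50) S17 W17)

/-- The arrays of the pair `18`: type `8`, marked vertex `0`. -/
noncomputable def W18 (j : ℕ) : ℕ := mvF0 (D08 j)

/-- The sum of the arrays. -/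
noncomputable def S18 : ℕ := mvF0 SD08

/-- The lists of the pair `18`. -/
noncomputable def T18 : List (List (List Nat)) :=
  tabW0 (lsW (nat_lit 39617598643503233) (nat_lit 8388608) (nat_lit 47) S18 W18)

/-- The arrays of the pair `19`: type `8`, marked vertex `1`. -/
noncomputable def W19 (j : ℕ) : ℕ := mvF1 (D08 j)

/-- The sum of the arrays. -/
noncomputable def S19 : ℕ := mvF1 SD08

/-- The lists of the pair `19`. -/
noncomputable def T19 : List (List (List Nat)) :=
  tabW1 (lsW (nat_lit 39617598643503233) (nat_lit 8388608) (nat_lit 47) S19 W19)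

/-- The arrays of the pair `20`: type `8`, marked vertex `2`. -/
noncomputable def W20 (j : ℕ) : ℕ := mvF2 (D08 j)

/-- The sum of the arrays. -/
noncomputable def S20 : ℕ := mvF2 SD08

/-- The lists of the pair `20`. -/
noncomputable def T20 : List (List (List Nat)) :=
  tabW2 (lsW (nat_lit 39617598643503233) (nat_lit 8388608) (nat_lit 47) S20 W20)

/-- The arrays of the pair `21`: type `8`, marked vertex `4`. -/
noncomputable def W21 (j : ℕ) : ℕ := mvF4 (D08 j)

/-- The sum of the arrays. -/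
noncomputable def S21 : ℕ := mvF4 SD08

/-- The lists of the pair `21`. -/
noncomputable def T21 : List (List (List Nat)) :=
  tabW4 (lsW (nat_lit 39617598643503233) (nat_lit 8388608) (nat_lit 47) S21 W21)

/-- The arrays of the pair `22`: type `9`, marked vertex `0`. -/
noncomputable def W22 (j : ℕ) : ℕ := mvF0 (D09 j)

/-- The sum of the arrays. -/
noncomputable def S22 : ℕ := mvF0 SD09

/-- The lists of the pair `22`. -/
noncomputable def T22 : List (List (List Nat)) :=
  tabW0 (lsW (nat_lit 40110179852746881) (nat_lit 8388608) (nat_lit 54) S22 W22)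

/-- The arrays of the pair `23`: type `9`, marked vertex `2`. -/
noncomputable def W23 (j : ℕ) : ℕ := mvF2 (D09 j)

/-- The sum of the arrays. -/
noncomputable def S23 : ℕ := mvF2 SD09

/-- The lists of the pair `23`. -/
noncomputable def T23 : List (List (List Nat)) :=
  tabW2 (lsW (nat_lit 40110179852746881) (nat_lit 8388608) (nat_lit 54) S23 W23)

/-- The arrays of the pair `24`: type `9`, marked vertex `4`. -/
noncomputable def W24 (j : ℕ) : ℕ := mvF4 (D09 j)

/-- The sum of the arrays. -/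
noncomputable def S24 : ℕ := mvF4 SD09

/-- The lists of the pair `24`. -/
noncomputable def T24 : List (List (List Nat)) :=
  tabW4 (lsW (nat_lit 40110179852746881) (nat_lit 8388608) (nat_lit 54) S24 W24)

/-- The arrays of the pair `25`: type `10`, marked vertex `0`. -/
noncomputable def W25 (j : ℕ) : ℕ := mvF0 (D10 j)

/-- The sum of the arrays. -/
noncomputable def S25 : ℕ := mvF0 SD10

/-- The lists of the pair `25`. -/
noncomputable def T25 : List (List (List Nat)) :=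
  tabW0 (lsW (nat_lit 39617598643503233) (nat_lit 8388608) (nat_lit 47) S25 W25)

/-- The arrays of the pair `26`: type `10`, marked vertex `2`. -/
noncomputable def W26 (j : ℕ) : ℕ := mvF2 (D10 j)

/-- The sum of the arrays. -/
noncomputable def S26 : ℕ := mvF2 SD10

/-- The lists of the pair `26`. -/
noncomputable def T26 : List (List (List Nat)) :=
  tabW2 (lsW (nat_lit 39617598643503233) (nat_lit 8388608) (nat_lit 47) S26 W26)

/-- The arrays of the pair `27`: type `10`, marked vertex `3`. -/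
noncomputable def W27 (j : ℕ) : ℕ := mvF3 (D10 j)

/-- The sum of the arrays. -/
noncomputable def S27 : ℕ := mvF3 SD10

/-- The lists of the pair `27`. -/
noncomputable def T27 : List (List (List Nat)) :=
  tabW3 (lsW (nat_lit 39617598643503233) (nat_lit 8388608) (nat_lit 47) S27 W27)

/-- The arrays of the pair `28`: type `10`, marked vertex `4`. -/
noncomputable def W28 (j : ℕ) : ℕ := mvF4 (D10 j)

/-- The sum of the arrays. -/
noncomputable def S28 : ℕ := mvF4 SD10

/-- The lists of the pair `28`. -/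
noncomputable def T28 : List (List (List Nat)) :=
  tabW4 (lsW (nat_lit 39617598643503233) (nat_lit 8388608) (nat_lit 47) S28 W28)

/-- The arrays of the pair `29`: type `11`, marked vertex `0`. -/
noncomputable def W29 (j : ℕ) : ℕ := mvF0 (D11 j)

/-- The sum of the arrays. -/
noncomputable def S29 : ℕ := mvF0 SD11

/-- The lists of the pair `29`. -/
noncomputable def T29 : List (List (List Nat)) :=
  tabW0 (lsW (nat_lit 40673129806168193) (nat_lit 8388608) (nat_lit 62) S29 W29)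

/-- The arrays of the pair `30`: type `11`, marked vertex `2`. -/
noncomputable def W30 (j : ℕ) : ℕ := mvF2 (D11 j)

/-- The sum of the arrays. -/
noncomputable def S30 : ℕ := mvF2 SD11

/-- The lists of the pair `30`. -/
noncomputable def T30 : List (List (List Nat)) :=
  tabW2 (lsW (nat_lit 40673129806168193) (nat_lit 8388608) (nat_lit 62) S30 W30)

/-- The arrays of the pair `31`: type `11`, marked vertex `4`. -/
noncomputable def W31 (j : ℕ) : ℕ := mvF4 (D11 j)

/-- The sum of the arrays. -/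
noncomputable def S31 : ℕ := mvF4 SD11

/-- The lists of the pair `31`. -/
noncomputable def T31 : List (List (List Nat)) :=
  tabW4 (lsW (nat_lit 40673129806168193) (nat_lit 8388608) (nat_lit 62) S31 W31)

/-- The arrays of the pair `32`: type `12`, marked vertex `0`. -/
noncomputable def W32 (j : ℕ) : ℕ := mvF0 (D12 j)

/-- The sum of the arrays. -/
noncomputable def S32 : ℕ := mvF0 SD12

/-- The lists of the pair `32`. -/
noncomputable def T32 : List (List (List Nat)) :=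
  tabW0 (lsW (nat_lit 41587923480477825) (nat_lit 8388608) (nat_lit 75) S32 W32)

/-- The arrays of the pair `33`: type `12`, marked vertex `1`. -/
noncomputable def W33 (j : ℕ) : ℕ := mvF1 (D12 j)

/-- The sum of the arrays. -/
noncomputable def S33 : ℕ := mvF1 SD12

/-- The lists of the pair `33`. -/
noncomputable def T33 : List (List (List Nat)) :=
  tabW1 (lsW (nat_lit 41587923480477825) (nat_lit 8388608) (nat_lit 75) S33 W33)

/-- The arrays of the pair `34`: type `13`, marked vertex `0`. -/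
noncomputable def W34 (j : ℕ) : ℕ := mvF0 (D13 j)

/-- The sum of the arrays. -/
noncomputable def S34 : ℕ := mvF0 SD13

/-- The lists of the pair `34`. -/
noncomputable def T34 : List (List (List Nat)) :=
  tabW0 (lsW (nat_lit 41236079759589505) (nat_lit 8388608) (nat_lit 70) S34 W34)

/-- The arrays of the pair `35`: type `13`, marked vertex `1`. -/
noncomputable def W35 (j : ℕ) : ℕ := mvF1 (D13 j)

/-- The sum of the arrays. -/
noncomputable def S35 : ℕ := mvF1 SD13

/-- The lists of the pair `35`. -/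
noncomputable def T35 : List (List (List Nat)) :=
  tabW1 (lsW (nat_lit 41236079759589505) (nat_lit 8388608) (nat_lit 70) S35 W35)

/-- The arrays of the pair `36`: type `13`, marked vertex `3`. -/
noncomputable def W36 (j : ℕ) : ℕ := mvF3 (D13 j)

/-- The sum of the arrays. -/
noncomputable def S36 : ℕ := mvF3 SD13

/-- The lists of the pair `36`. -/
noncomputable def T36 : List (List (List Nat)) :=
  tabW3 (lsW (nat_lit 41236079759589505) (nat_lit 8388608) (nat_lit 70) S36 W36)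

/-- The arrays of the pair `37`: type `14`, marked vertex `0`. -/
noncomputable def W37 (j : ℕ) : ℕ := mvF0 (D14 j)

/-- The sum of the arrays. -/
noncomputable def S37 : ℕ := mvF0 SD14

/-- The lists of the pair `37`. -/
noncomputable def T37 : List (List (List Nat)) :=
  tabW0 (lsW (nat_lit 39547229899325569) (nat_lit 8388608) (nat_lit 46) S37 W37)

/-- The arrays of the pair `38`: type `14`, marked vertex `2`. -/
noncomputable def W38 (j : ℕ) : ℕ := mvF2 (D14 j)

/-- The sum of the arrays. -/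
noncomputable def S38 : ℕ := mvF2 SD14

/-- The lists of the pair `38`. -/
noncomputable def T38 : List (List (List Nat)) :=
  tabW2 (lsW (nat_lit 39547229899325569) (nat_lit 8388608) (nat_lit 46) S38 W38)

/-- The arrays of the pair `39`: type `14`, marked vertex `3`. -/
noncomputable def W39 (j : ℕ) : ℕ := mvF3 (D14 j)

/-- The sum of the arrays. -/
noncomputable def S39 : ℕ := mvF3 SD14

/-- The lists of the pair `39`. -/
noncomputable def T39 : List (List (List Nat)) :=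
  tabW3 (lsW (nat_lit 39547229899325569) (nat_lit 8388608) (nat_lit 46) S39 W39)

/-- The arrays of the pair `40`: type `15`, marked vertex `0`. -/
noncomputable def W40 (j : ℕ) : ℕ := mvF0 (D15 j)

/-- The sum of the arrays. -/
noncomputable def S40 : ℕ := mvF0 SD15

/-- The lists of the pair `40`. -/
noncomputable def T40 : List (List (List Nat)) :=
  tabW0 (lsW (nat_lit 40180548596924545) (nat_lit 8388608) (nat_lit 55) S40 W40)

/-- The arrays of the pair `41`: type `15`, marked vertex `2`. -/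
noncomputable def W41 (j : ℕ) : ℕ := mvF2 (D15 j)

/-- The sum of the arrays. -/
noncomputable def S41 : ℕ := mvF2 SD15

/-- The lists of the pair `41`. -/
noncomputable def T41 : List (List (List Nat)) :=
  tabW2 (lsW (nat_lit 40180548596924545) (nat_lit 8388608) (nat_lit 55) S41 W41)

/-- The arrays of the pair `42`: type `15`, marked vertex `3`. -/
noncomputable def W42 (j : ℕ) : ℕ := mvF3 (D15 j)

/-- The sum of the arrays. -/
noncomputable def S42 : ℕ := mvF3 SD15

/-- The lists of the pair `42`. -/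
noncomputable def T42 : List (List (List Nat)) :=
  tabW3 (lsW (nat_lit 40180548596924545) (nat_lit 8388608) (nat_lit 55) S42 W42)

/-- The arrays of the pair `43`: type `16`, marked vertex `0`. -/
noncomputable def W43 (j : ℕ) : ℕ := mvF0 (D16 j)

/-- The sum of the arrays. -/
noncomputable def S43 : ℕ := mvF0 SD16

/-- The lists of the pair `43`. -/
noncomputable def T43 : List (List (List Nat)) :=
  tabW0 (lsW (nat_lit 39687967387680897) (nat_lit 8388608) (nat_lit 48) S43 W43)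

/-- The arrays of the pair `44`: type `16`, marked vertex `1`. -/
noncomputable def W44 (j : ℕ) : ℕ := mvF1 (D16 j)

/-- The sum of the arrays. -/
noncomputable def S44 : ℕ := mvF1 SD16

/-- The lists of the pair `44`. -/
noncomputable def T44 : List (List (List Nat)) :=
  tabW1 (lsW (nat_lit 39687967387680897) (nat_lit 8388608) (nat_lit 48) S44 W44)

/-- The arrays of the pair `45`: type `16`, marked vertex `3`. -/
noncomputable def W45 (j : ℕ) : ℕ := mvF3 (D16 j)

/-- The sum of the arrays. -/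
noncomputable def S45 : ℕ := mvF3 SD16

/-- The lists of the pair `45`. -/
noncomputable def T45 : List (List (List Nat)) :=
  tabW3 (lsW (nat_lit 39687967387680897) (nat_lit 8388608) (nat_lit 48) S45 W45)

/-- The arrays of the pair `46`: type `16`, marked vertex `4`. -/
noncomputable def W46 (j : ℕ) : ℕ := mvF4 (D16 j)

/-- The sum of the arrays. -/
noncomputable def S46 : ℕ := mvF4 SD16

/-- The lists of the pair `46`. -/
noncomputable def T46 : List (List (List Nat)) :=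
  tabW4 (lsW (nat_lit 39687967387680897) (nat_lit 8388608) (nat_lit 48) S46 W46)

/-- The arrays of the pair `47`: type `17`, marked vertex `0`. -/
noncomputable def W47 (j : ℕ) : ℕ := mvF0 (D17 j)

/-- The sum of the arrays. -/
noncomputable def S47 : ℕ := mvF0 SD17

/-- The lists of the pair `47`. -/
noncomputable def T47 : List (List (List Nat)) :=
  tabW0 (lsW (nat_lit 39899073620213889) (nat_lit 8388608) (nat_lit 51) S47 W47)

/-- The arrays of the pair `48`: type `17`, marked vertex `1`. -/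
noncomputable def W48 (j : ℕ) : ℕ := mvF1 (D17 j)

/-- The sum of the arrays. -/
noncomputable def S48 : ℕ := mvF1 SD17

/-- The lists of the pair `48`. -/
noncomputable def T48 : List (List (List Nat)) :=
  tabW1 (lsW (nat_lit 39899073620213889) (nat_lit 8388608) (nat_lit 51) S48 W48)

/-- The arrays of the pair `49`: type `17`, marked vertex `3`. -/
noncomputable def W49 (j : ℕ) : ℕ := mvF3 (D17 j)

/-- The sum of the arrays. -/
noncomputable def S49 : ℕ := mvF3 SD17

/-- The lists of the pair `49`. -/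
noncomputable def T49 : List (List (List Nat)) :=
  tabW3 (lsW (nat_lit 39899073620213889) (nat_lit 8388608) (nat_lit 51) S49 W49)

/-- The arrays of the pair `50`: type `17`, marked vertex `4`. -/
noncomputable def W50 (j : ℕ) : ℕ := mvF4 (D17 j)

/-- The sum of the arrays. -/
noncomputable def S50 : ℕ := mvF4 SD17

/-- The lists of the pair `50`. -/
noncomputable def T50 : List (List (List Nat)) :=
  tabW4 (lsW (nat_lit 39899073620213889) (nat_lit 8388608) (nat_lit 51) S50 W50)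

/-- The arrays of the pair `51`: type `18`, marked vertex `0`. -/
noncomputable def W51 (j : ℕ) : ℕ := mvF0 (D18 j)

/-- The sum of the arrays. -/
noncomputable def S51 : ℕ := mvF0 SD18

/-- The lists of the pair `51`. -/
noncomputable def T51 : List (List (List Nat)) :=
  tabW0 (lsW (nat_lit 41376817247944833) (nat_lit 8388608) (nat_lit 72) S51 W51)

/-- The arrays of the pair `52`: type `18`, marked vertex `3`. -/
noncomputable def W52 (j : ℕ) : ℕ := mvF3 (D18 j)

/-- The sum of the arrays. -/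
noncomputable def S52 : ℕ := mvF3 SD18

/-- The lists of the pair `52`. -/
noncomputable def T52 : List (List (List Nat)) :=
  tabW3 (lsW (nat_lit 41376817247944833) (nat_lit 8388608) (nat_lit 72) S52 W52)

/-- The arrays of the pair `53`: type `19`, marked vertex `0`. -/
noncomputable def W53 (j : ℕ) : ℕ := mvF0 (D19 j)

/-- The sum of the arrays. -/
noncomputable def S53 : ℕ := mvF0 SD19

/-- The lists of the pair `53`. -/
noncomputable def T53 : List (List (List Nat)) :=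
  tabW0 (lsW (nat_lit 41869398457188481) (nat_lit 8388608) (nat_lit 79) S53 W53)

/-- The arrays of the pair `54`: type `19`, marked vertex `3`. -/
noncomputable def W54 (j : ℕ) : ℕ := mvF3 (D19 j)

/-- The sum of the arrays. -/
noncomputable def S54 : ℕ := mvF3 SD19

/-- The lists of the pair `54`. -/
noncomputable def T54 : List (List (List Nat)) :=
  tabW3 (lsW (nat_lit 41869398457188481) (nat_lit 8388608) (nat_lit 79) S54 W54)

/-- The arrays of the pair `55`: type `20`, marked vertex `0`. -/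
noncomputable def W55 (j : ℕ) : ℕ := mvF0 (D20 j)

/-- The sum of the arrays. -/
noncomputable def S55 : ℕ := mvF0 SD20

/-- The lists of the pair `55`. -/
noncomputable def T55 : List (List (List Nat)) :=
  tabW0 (lsW (nat_lit 40250917341102209) (nat_lit 8388608) (nat_lit 56) S55 W55)

/-- The arrays of the pair `56`: type `20`, marked vertex `1`. -/
noncomputable def W56 (j : ℕ) : ℕ := mvF1 (D20 j)

/-- The sum of the arrays. -/
noncomputable def S56 : ℕ := mvF1 SD20

/-- The lists of the pair `56`. -/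
noncomputable def T56 : List (List (List Nat)) :=
  tabW1 (lsW (nat_lit 40250917341102209) (nat_lit 8388608) (nat_lit 56) S56 W56)

/-- The arrays of the pair `57`: type `21`, marked vertex `0`. -/
noncomputable def W57 (j : ℕ) : ℕ := mvF0 (D21 j)

/-- The sum of the arrays. -/
noncomputable def S57 : ℕ := mvF0 SD21

/-- The lists of the pair `57`. -/
noncomputable def T57 : List (List (List Nat)) :=
  tabW0 (lsW (nat_lit 41799029713010817) (nat_lit 8388608) (nat_lit 78) S57 W57)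

/-- The arrays of the pair `58`: type `21`, marked vertex `1`. -/
noncomputable def W58 (j : ℕ) : ℕ := mvF1 (D21 j)

/-- The sum of the arrays. -/
noncomputable def S58 : ℕ := mvF1 SD21

/-- The lists of the pair `58`. -/
noncomputable def T58 : List (List (List Nat)) :=
  tabW1 (lsW (nat_lit 41799029713010817) (nat_lit 8388608) (nat_lit 78) S58 W58)

/-- The arrays of the pair `59`: type `22`, marked vertex `0`. -/
noncomputable def W59 (j : ℕ) : ℕ := mvF0 (D22 j)

/-- The sum of the arrays. -/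
noncomputable def S59 : ℕ := mvF0 SD22

/-- The lists of the pair `59`. -/
noncomputable def T59 : List (List (List Nat)) :=
  tabW0 (lsW (nat_lit 39547229899325569) (nat_lit 8388608) (nat_lit 46) S59 W59)

/-- The arrays of the pair `60`: type `22`, marked vertex `1`. -/
noncomputable def W60 (j : ℕ) : ℕ := mvF1 (D22 j)

/-- The sum of the arrays. -/
noncomputable def S60 : ℕ := mvF1 SD22

/-- The lists of the pair `60`. -/
noncomputable def T60 : List (List (List Nat)) :=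
  tabW1 (lsW (nat_lit 39547229899325569) (nat_lit 8388608) (nat_lit 46) S60 W60)

/-- The arrays of the pair `61`: type `22`, marked vertex `3`. -/
noncomputable def W61 (j : ℕ) : ℕ := mvF3 (D22 j)

/-- The sum of the arrays. -/
noncomputable def S61 : ℕ := mvF3 SD22

/-- The lists of the pair `61`. -/
noncomputable def T61 : List (List (List Nat)) :=
  tabW3 (lsW (nat_lit 39547229899325569) (nat_lit 8388608) (nat_lit 46) S61 W61)

/-- The arrays of the pair `62`: type `22`, marked vertex `4`. -/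
noncomputable def W62 (j : ℕ) : ℕ := mvF4 (D22 j)

/-- The sum of the arrays. -/
noncomputable def S62 : ℕ := mvF4 SD22

/-- The lists of the pair `62`. -/
noncomputable def T62 : List (List (List Nat)) :=
  tabW4 (lsW (nat_lit 39547229899325569) (nat_lit 8388608) (nat_lit 46) S62 W62)

/-- The arrays of the pair `63`: type `23`, marked vertex `0`. -/
noncomputable def W63 (j : ℕ) : ℕ := mvF0 (D23 j)

/-- The sum of the arrays. -/
noncomputable def S63 : ℕ := mvF0 SD23

/-- The lists of the pair `63`. -/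
noncomputable def T63 : List (List (List Nat)) :=
  tabW0 (lsW (nat_lit 40391654829457537) (nat_lit 8388608) (nat_lit 58) S63 W63)

/-- The arrays of the pair `64`: type `23`, marked vertex `1`. -/
noncomputable def W64 (j : ℕ) : ℕ := mvF1 (D23 j)

/-- The sum of the arrays. -/
noncomputable def S64 : ℕ := mvF1 SD23

/-- The lists of the pair `64`. -/
noncomputable def T64 : List (List (List Nat)) :=
  tabW1 (lsW (nat_lit 40391654829457537) (nat_lit 8388608) (nat_lit 58) S64 W64)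

/-- The arrays of the pair `65`: type `23`, marked vertex `2`. -/
noncomputable def W65 (j : ℕ) : ℕ := mvF2 (D23 j)

/-- The sum of the arrays. -/
noncomputable def S65 : ℕ := mvF2 SD23

/-- The lists of the pair `65`. -/
noncomputable def T65 : List (List (List Nat)) :=
  tabW2 (lsW (nat_lit 40391654829457537) (nat_lit 8388608) (nat_lit 58) S65 W65)

/-- The arrays of the pair `66`: type `23`, marked vertex `4`. -/
noncomputable def W66 (j : ℕ) : ℕ := mvF4 (D23 j)

/-- The sum of the arrays. -/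
noncomputable def S66 : ℕ := mvF4 SD23

/-- The lists of the pair `66`. -/
noncomputable def T66 : List (List (List Nat)) :=
  tabW4 (lsW (nat_lit 40391654829457537) (nat_lit 8388608) (nat_lit 58) S66 W66)

/-- The arrays of the pair `67`: type `24`, marked vertex `0`. -/
noncomputable def W67 (j : ℕ) : ℕ := mvF0 (D24 j)

/-- The sum of the arrays. -/
noncomputable def S67 : ℕ := mvF0 SD24

/-- The lists of the pair `67`. -/
noncomputable def T67 : List (List (List Nat)) :=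
  tabW0 (lsW (nat_lit 41165711015411841) (nat_lit 8388608) (nat_lit 69) S67 W67)

/-- The arrays of the pair `68`: type `24`, marked vertex `1`. -/
noncomputable def W68 (j : ℕ) : ℕ := mvF1 (D24 j)

/-- The sum of the arrays. -/
noncomputable def S68 : ℕ := mvF1 SD24

/-- The lists of the pair `68`. -/
noncomputable def T68 : List (List (List Nat)) :=
  tabW1 (lsW (nat_lit 41165711015411841) (nat_lit 8388608) (nat_lit 69) S68 W68)

/-- The arrays of the pair `69`: type `24`, marked vertex `4`. -/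
noncomputable def W69 (j : ℕ) : ℕ := mvF4 (D24 j)

/-- The sum of the arrays. -/
noncomputable def S69 : ℕ := mvF4 SD24

/-- The lists of the pair `69`. -/
noncomputable def T69 : List (List (List Nat)) :=
  tabW4 (lsW (nat_lit 41165711015411841) (nat_lit 8388608) (nat_lit 69) S69 W69)

/-- The arrays of the pair `70`: type `25`, marked vertex `0`. -/
noncomputable def W70 (j : ℕ) : ℕ := mvF0 (D25 j)

/-- The sum of the arrays. -/
noncomputable def S70 : ℕ := mvF0 SD25

/-- The lists of the pair `70`. -/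
noncomputable def T70 : List (List (List Nat)) :=
  tabW0 (lsW (nat_lit 41024973527056513) (nat_lit 8388608) (nat_lit 67) S70 W70)

/-- The arrays of the pair `71`: type `25`, marked vertex `4`. -/
noncomputable def W71 (j : ℕ) : ℕ := mvF4 (D25 j)

/-- The sum of the arrays. -/
noncomputable def S71 : ℕ := mvF4 SD25

/-- The lists of the pair `71`. -/
noncomputable def T71 : List (List (List Nat)) :=
  tabW4 (lsW (nat_lit 41024973527056513) (nat_lit 8388608) (nat_lit 67) S71 W71)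

/-- The arrays of the pair `72`: type `26`, marked vertex `0`. -/
noncomputable def W72 (j : ℕ) : ℕ := mvF0 (D26 j)

/-- The sum of the arrays. -/
noncomputable def S72 : ℕ := mvF0 SD26

/-- The lists of the pair `72`. -/
noncomputable def T72 : List (List (List Nat)) :=
  tabW0 (lsW (nat_lit 42432348410609793) (nat_lit 8388608) (nat_lit 87) S72 W72)

/-- The arrays of the pair `73`: type `27`, marked vertex `0`. -/
noncomputable def W73 (j : ℕ) : ℕ := mvF0 (D27 j)

/-- The sum of the arrays. -/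
noncomputable def S73 : ℕ := mvF0 SD27

/-- The lists of the pair `73`. -/
noncomputable def T73 : List (List (List Nat)) :=
  tabW0 (lsW (nat_lit 39899073620213889) (nat_lit 8388608) (nat_lit 51) S73 W73)

/-- The arrays of the pair `74`: type `27`, marked vertex `1`. -/
noncomputable def W74 (j : ℕ) : ℕ := mvF1 (D27 j)

/-- The sum of the arrays. -/
noncomputable def S74 : ℕ := mvF1 SD27

/-- The lists of the pair `74`. -/
noncomputable def T74 : List (List (List Nat)) :=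
  tabW1 (lsW (nat_lit 39899073620213889) (nat_lit 8388608) (nat_lit 51) S74 W74)

/-- The arrays of the pair `75`: type `27`, marked vertex `3`. -/
noncomputable def W75 (j : ℕ) : ℕ := mvF3 (D27 j)

/-- The sum of the arrays. -/
noncomputable def S75 : ℕ := mvF3 SD27

/-- The lists of the pair `75`. -/
noncomputable def T75 : List (List (List Nat)) :=
  tabW3 (lsW (nat_lit 39899073620213889) (nat_lit 8388608) (nat_lit 51) S75 W75)

/-- The arrays of the pair `76`: type `28`, marked vertex `0`. -/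
noncomputable def W76 (j : ℕ) : ℕ := mvF0 (D28 j)

/-- The sum of the arrays. -/
noncomputable def S76 : ℕ := mvF0 SD28

/-- The lists of the pair `76`. -/
noncomputable def T76 : List (List (List Nat)) :=
  tabW0 (lsW (nat_lit 40180548596924545) (nat_lit 8388608) (nat_lit 55) S76 W76)

/-- The arrays of the pair `77`: type `28`, marked vertex `2`. -/
noncomputable def W77 (j : ℕ) : ℕ := mvF2 (D28 j)

/-- The sum of the arrays. -/
noncomputable def S77 : ℕ := mvF2 SD28

/-- The lists of the pair `77`. -/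
noncomputable def T77 : List (List (List Nat)) :=
  tabW2 (lsW (nat_lit 40180548596924545) (nat_lit 8388608) (nat_lit 55) S77 W77)

/-- The arrays of the pair `78`: type `28`, marked vertex `4`. -/
noncomputable def W78 (j : ℕ) : ℕ := mvF4 (D28 j)

/-- The sum of the arrays. -/
noncomputable def S78 : ℕ := mvF4 SD28

/-- The lists of the pair `78`. -/
noncomputable def T78 : List (List (List Nat)) :=
  tabW4 (lsW (nat_lit 40180548596924545) (nat_lit 8388608) (nat_lit 55) S78 W78)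

/-- The arrays of the pair `79`: type `29`, marked vertex `0`. -/
noncomputable def W79 (j : ℕ) : ℕ := mvF0 (D29 j)

/-- The sum of the arrays. -/
noncomputable def S79 : ℕ := mvF0 SD29

/-- The lists of the pair `79`. -/
noncomputable def T79 : List (List (List Nat)) :=
  tabW0 (lsW (nat_lit 40673129806168193) (nat_lit 8388608) (nat_lit 62) S79 W79)

/-- The arrays of the pair `80`: type `29`, marked vertex `1`. -/
noncomputable def W80 (j : ℕ) : ℕ := mvF1 (D29 j)

/-- The sum of the arrays. -/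
noncomputable def S80 : ℕ := mvF1 SD29

/-- The lists of the pair `80`. -/
noncomputable def T80 : List (List (List Nat)) :=
  tabW1 (lsW (nat_lit 40673129806168193) (nat_lit 8388608) (nat_lit 62) S80 W80)

/-- The arrays of the pair `81`: type `29`, marked vertex `3`. -/
noncomputable def W81 (j : ℕ) : ℕ := mvF3 (D29 j)

/-- The sum of the arrays. -/
noncomputable def S81 : ℕ := mvF3 SD29

/-- The lists of the pair `81`. -/
noncomputable def T81 : List (List (List Nat)) :=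
  tabW3 (lsW (nat_lit 40673129806168193) (nat_lit 8388608) (nat_lit 62) S81 W81)

/-- The arrays of the pair `82`: type `30`, marked vertex `0`. -/
noncomputable def W82 (j : ℕ) : ℕ := mvF0 (D30 j)

/-- The sum of the arrays. -/
noncomputable def S82 : ℕ := mvF0 SD30

/-- The lists of the pair `82`. -/
noncomputable def T82 : List (List (List Nat)) :=
  tabW0 (lsW (nat_lit 41517554736300161) (nat_lit 8388608) (nat_lit 74) S82 W82)

/-- The arrays of the pair `83`: type `30`, marked vertex `1`. -/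
noncomputable def W83 (j : ℕ) : ℕ := mvF1 (D30 j)

/-- The sum of the arrays. -/
noncomputable def S83 : ℕ := mvF1 SD30

/-- The lists of the pair `83`. -/
noncomputable def T83 : List (List (List Nat)) :=
  tabW1 (lsW (nat_lit 41517554736300161) (nat_lit 8388608) (nat_lit 74) S83 W83)

/-- The arrays of the pair `84`: type `30`, marked vertex `3`. -/
noncomputable def W84 (j : ℕ) : ℕ := mvF3 (D30 j)

/-- The sum of the arrays. -/
noncomputable def S84 : ℕ := mvF3 SD30

/-- The lists of the pair `84`. -/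
noncomputable def T84 : List (List (List Nat)) :=
  tabW3 (lsW (nat_lit 41517554736300161) (nat_lit 8388608) (nat_lit 74) S84 W84)

/-- The arrays of the pair `85`: type `31`, marked vertex `0`. -/
noncomputable def W85 (j : ℕ) : ℕ := mvF0 (D31 j)

/-- The sum of the arrays. -/
noncomputable def S85 : ℕ := mvF0 SD31

/-- The lists of the pair `85`. -/
noncomputable def T85 : List (List (List Nat)) :=
  tabW0 (lsW (nat_lit 40673129806168193) (nat_lit 8388608) (nat_lit 62) S85 W85)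

/-- The arrays of the pair `86`: type `31`, marked vertex `4`. -/
noncomputable def W86 (j : ℕ) : ℕ := mvF4 (D31 j)

/-- The sum of the arrays. -/
noncomputable def S86 : ℕ := mvF4 SD31

/-- The lists of the pair `86`. -/
noncomputable def T86 : List (List (List Nat)) :=
  tabW4 (lsW (nat_lit 40673129806168193) (nat_lit 8388608) (nat_lit 62) S86 W86)

/-- The arrays of the pair `87`: type `32`, marked vertex `0`. -/
noncomputable def W87 (j : ℕ) : ℕ := mvF0 (D32 j)

/-- The sum of the arrays. -/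
noncomputable def S87 : ℕ := mvF0 SD32

/-- The lists of the pair `87`. -/
noncomputable def T87 : List (List (List Nat)) :=
  tabW0 (lsW (nat_lit 41799029713010817) (nat_lit 8388608) (nat_lit 78) S87 W87)

/-- The arrays of the pair `88`: type `32`, marked vertex `2`. -/
noncomputable def W88 (j : ℕ) : ℕ := mvF2 (D32 j)

/-- The sum of the arrays. -/
noncomputable def S88 : ℕ := mvF2 SD32

/-- The lists of the pair `88`. -/
noncomputable def T88 : List (List (List Nat)) :=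
  tabW2 (lsW (nat_lit 41799029713010817) (nat_lit 8388608) (nat_lit 78) S88 W88)

/-- The arrays of the pair `89`: type `33`, marked vertex `0`. -/
noncomputable def W89 (j : ℕ) : ℕ := mvF0 (D33 j)

/-- The sum of the arrays. -/
noncomputable def S89 : ℕ := mvF0 SD33

/-- The lists of the pair `89`. -/
noncomputable def T89 : List (List (List Nat)) :=
  tabW0 (lsW (nat_lit 43698985805807745) (nat_lit 8388608) (nat_lit 105) S89 W89)

/-- The lists. -/
noncomputable def TS : List (List (List (List (List Nat)))) := [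
  [T00, T01, T02, T03, T04, T05, T06, T07, T08, T09],
  [T10, T11, T12, T13, T14, T15, T16, T17, T18, T19],
  [T20, T21, T22, T23, T24, T25, T26, T27, T28, T29],
  [T30, T31, T32, T33, T34, T35, T36, T37, T38, T39],
  [T40, T41, T42, T43, T44, T45, T46, T47, T48, T49],
  [T50, T51, T52, T53, T54, T55, T56, T57, T58, T59],
  [T60, T61, T62, T63, T64, T65, T66, T67, T68, T69],
  [T70, T71, T72, T73, T74, T75, T76, T77, T78, T79],
  [T80, T81, T82, T83, T84, T85, T86, T87, T88, T89]]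

/-- The list of a pair and six low bits. -/
noncomputable def ls (t x0 : ℕ) : List ℕ := nth2 [] 8 (nth2 [] 10 TS t) x0

theorem k00 : ∀ x0 < 64, LsOk (LD.dKO (LD.dit 0)) 8388608 (LD.dRp (LD.dit 0)) (LD.dvt 0) x0
    (LD.dc (LD.dit 0)) (nth2 [] 8 T00 x0) := by
  have e1 : LD.dit 0 = 0 := by decide +kernel
  have e2 : LD.dKO 0 = 45387835666071681 := by decide +kernel
  have e3 : LD.dRp 0 = 129 := by decide +kernel
  have e4 : LD.dvt 0 = 0 := by decide +kernel
  rw [e1, e2, e3, e4]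
  intro x0 hx
  have e5 : nth2 [] 8 T00 x0 = lsW 45387835666071681 8388608 129 S00 W00 (Nat.div (sgW 0 x0) 8) (Nat.mod (sgW 0 x0) 8) :=
    tabW0_get _ _ x0 hx
  rw [e5]
  exact lsW_ok 45387835666071681 8388608 129 0 x0 16777215 (LD.dc 0) W00 S00 _ _ (by norm_num) hx
    (Nat.mod_lt _ (by norm_num)) (Nat.div_add_mod _ 8) (fun _ => rfl) rfl (fun j _ => LD.dc_lt 0 j)
    (LD.dc_le 0) (by norm_num) (by norm_num) (by norm_num)

theorem k01 : ∀ x0 < 64, LsOk (LD.dKO (LD.dit 1)) 8388608 (LD.dRp (LD.dit 1)) (LD.dvt 1) x0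
    (LD.dc (LD.dit 1)) (nth2 [] 8 T01 x0) := by
  have e1 : LD.dit 1 = 1 := by decide +kernel
  have e2 : LD.dKO 1 = 41658292224655489 := by decide +kernel
  have e3 : LD.dRp 1 = 76 := by decide +kernel
  have e4 : LD.dvt 1 = 0 := by decide +kernel
  rw [e1, e2, e3, e4]
  intro x0 hx
  have e5 : nth2 [] 8 T01 x0 = lsW 41658292224655489 8388608 76 S01 W01 (Nat.div (sgW 0 x0) 8) (Nat.mod (sgW 0 x0) 8) :=
    tabW0_get _ _ x0 hx
  rw [e5]
  exact lsW_ok 41658292224655489 8388608 76 0 x0 16777215 (LD.dc 1) W01 S01 _ _ (by norm_num) hx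
    (Nat.mod_lt _ (by norm_num)) (Nat.div_add_mod _ 8) (fun _ => rfl) rfl (fun j _ => LD.dc_lt 1 j)
    (LD.dc_le 1) (by norm_num) (by norm_num) (by norm_num)

theorem k02 : ∀ x0 < 64, LsOk (LD.dKO (LD.dit 2)) 8388608 (LD.dRp (LD.dit 2)) (LD.dvt 2) x0
    (LD.dc (LD.dit 2)) (nth2 [] 8 T02 x0) := by
  have e1 : LD.dit 2 = 1 := by decide +kernel
  have e2 : LD.dKO 1 = 41658292224655489 := by decide +kernel
  have e3 : LD.dRp 1 = 76 := by decide +kernel
  have e4 : LD.dvt 2 = 3 := by decide +kernel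
  rw [e1, e2, e3, e4]
  intro x0 hx
  have e5 : nth2 [] 8 T02 x0 = lsW 41658292224655489 8388608 76 S02 W02 (Nat.div (sgW 3 x0) 8) (Nat.mod (sgW 3 x0) 8) :=
    tabW3_get _ _ x0 hx
  rw [e5]
  exact lsW_ok 41658292224655489 8388608 76 3 x0 16777215 (LD.dc 1) W02 S02 _ _ (by norm_num) hx
    (Nat.mod_lt _ (by norm_num)) (Nat.div_add_mod _ 8) (fun _ => rfl) rfl (fun j _ => LD.dc_lt 1 j)
    (LD.dc_le 1) (by norm_num) (by norm_num) (by norm_num)

theorem k03 : ∀ x0 < 64, LsOk (LD.dKO (LD.dit 3)) 8388608 (LD.dRp (LD.dit 3)) (LD.dvt 3) x0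
    (LD.dc (LD.dit 3)) (nth2 [] 8 T03 x0) := by
  have e1 : LD.dit 3 = 2 := by decide +kernel
  have e2 : LD.dKO 2 = 40110179852746881 := by decide +kernel
  have e3 : LD.dRp 2 = 54 := by decide +kernel
  have e4 : LD.dvt 3 = 0 := by decide +kernel
  rw [e1, e2, e3, e4]
  intro x0 hx
  have e5 : nth2 [] 8 T03 x0 = lsW 40110179852746881 8388608 54 S03 W03 (Nat.div (sgW 0 x0) 8) (Nat.mod (sgW 0 x0) 8) :=
    tabW0_get _ _ x0 hx
  rw [e5]
  exact lsW_ok 40110179852746881 8388608 54 0 x0 16777215 (LD.dc 2) W03 S03 _ _ (by norm_num) hx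
    (Nat.mod_lt _ (by norm_num)) (Nat.div_add_mod _ 8) (fun _ => rfl) rfl (fun j _ => LD.dc_lt 2 j)
    (LD.dc_le 2) (by norm_num) (by norm_num) (by norm_num)

theorem k04 : ∀ x0 < 64, LsOk (LD.dKO (LD.dit 4)) 8388608 (LD.dRp (LD.dit 4)) (LD.dvt 4) x0
    (LD.dc (LD.dit 4)) (nth2 [] 8 T04 x0) := by
  have e1 : LD.dit 4 = 2 := by decide +kernel
  have e2 : LD.dKO 2 = 40110179852746881 := by decide +kernel
  have e3 : LD.dRp 2 = 54 := by decide +kernel
  have e4 : LD.dvt 4 = 2 := by decide +kernel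
  rw [e1, e2, e3, e4]
  intro x0 hx
  have e5 : nth2 [] 8 T04 x0 = lsW 40110179852746881 8388608 54 S04 W04 (Nat.div (sgW 2 x0) 8) (Nat.mod (sgW 2 x0) 8) :=
    tabW2_get _ _ x0 hx
  rw [e5]
  exact lsW_ok 40110179852746881 8388608 54 2 x0 16777215 (LD.dc 2) W04 S04 _ _ (by norm_num) hx
    (Nat.mod_lt _ (by norm_num)) (Nat.div_add_mod _ 8) (fun _ => rfl) rfl (fun j _ => LD.dc_lt 2 j)
    (LD.dc_le 2) (by norm_num) (by norm_num) (by norm_num)

theorem k05 : ∀ x0 < 64, LsOk (LD.dKO (LD.dit 5)) 8388608 (LD.dRp (LD.dit 5)) (LD.dvt 5) x0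
    (LD.dc (LD.dit 5)) (nth2 [] 8 T05 x0) := by
  have e1 : LD.dit 5 = 2 := by decide +kernel
  have e2 : LD.dKO 2 = 40110179852746881 := by decide +kernel
  have e3 : LD.dRp 2 = 54 := by decide +kernel
  have e4 : LD.dvt 5 = 4 := by decide +kernel
  rw [e1, e2, e3, e4]
  intro x0 hx
  have e5 : nth2 [] 8 T05 x0 = lsW 40110179852746881 8388608 54 S05 W05 (Nat.div (sgW 4 x0) 8) (Nat.mod (sgW 4 x0) 8) :=
    tabW4_get _ _ x0 hx
  rw [e5]
  exact lsW_ok 40110179852746881 8388608 54 4 x0 16777215 (LD.dc 2) W05 S05 _ _ (by norm_num) hx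
    (Nat.mod_lt _ (by norm_num)) (Nat.div_add_mod _ 8) (fun _ => rfl) rfl (fun j _ => LD.dc_lt 2 j)
    (LD.dc_le 2) (by norm_num) (by norm_num) (by norm_num)

theorem k06 : ∀ x0 < 64, LsOk (LD.dKO (LD.dit 6)) 8388608 (LD.dRp (LD.dit 6)) (LD.dvt 6) x0
    (LD.dc (LD.dit 6)) (nth2 [] 8 T06 x0) := by
  have e1 : LD.dit 6 = 3 := by decide +kernel
  have e2 : LD.dKO 3 = 39617598643503233 := by decide +kernel
  have e3 : LD.dRp 3 = 47 := by decide +kernel
  have e4 : LD.dvt 6 = 0 := by decide +kernel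
  rw [e1, e2, e3, e4]
  intro x0 hx
  have e5 : nth2 [] 8 T06 x0 = lsW 39617598643503233 8388608 47 S06 W06 (Nat.div (sgW 0 x0) 8) (Nat.mod (sgW 0 x0) 8) :=
    tabW0_get _ _ x0 hx
  rw [e5]
  exact lsW_ok 39617598643503233 8388608 47 0 x0 16777215 (LD.dc 3) W06 S06 _ _ (by norm_num) hx
    (Nat.mod_lt _ (by norm_num)) (Nat.div_add_mod _ 8) (fun _ => rfl) rfl (fun j _ => LD.dc_lt 3 j)
    (LD.dc_le 3) (by norm_num) (by norm_num) (by norm_num)

theorem k07 : ∀ x0 < 64, LsOk (LD.dKO (LD.dit 7)) 8388608 (LD.dRp (LD.dit 7)) (LD.dvt 7) x0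
    (LD.dc (LD.dit 7)) (nth2 [] 8 T07 x0) := by
  have e1 : LD.dit 7 = 3 := by decide +kernel
  have e2 : LD.dKO 3 = 39617598643503233 := by decide +kernel
  have e3 : LD.dRp 3 = 47 := by decide +kernel
  have e4 : LD.dvt 7 = 1 := by decide +kernel
  rw [e1, e2, e3, e4]
  intro x0 hx
  have e5 : nth2 [] 8 T07 x0 = lsW 39617598643503233 8388608 47 S07 W07 (Nat.div (sgW 1 x0) 8) (Nat.mod (sgW 1 x0) 8) :=
    tabW1_get _ _ x0 hx
  rw [e5]
  exact lsW_ok 39617598643503233 8388608 47 1 x0 16777215 (LD.dc 3) W07 S07 _ _ (by norm_num) hx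
    (Nat.mod_lt _ (by norm_num)) (Nat.div_add_mod _ 8) (fun _ => rfl) rfl (fun j _ => LD.dc_lt 3 j)
    (LD.dc_le 3) (by norm_num) (by norm_num) (by norm_num)

theorem k08 : ∀ x0 < 64, LsOk (LD.dKO (LD.dit 8)) 8388608 (LD.dRp (LD.dit 8)) (LD.dvt 8) x0
    (LD.dc (LD.dit 8)) (nth2 [] 8 T08 x0) := by
  have e1 : LD.dit 8 = 3 := by decide +kernel
  have e2 : LD.dKO 3 = 39617598643503233 := by decide +kernel
  have e3 : LD.dRp 3 = 47 := by decide +kernel
  have e4 : LD.dvt 8 = 4 := by decide +kernel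
  rw [e1, e2, e3, e4]
  intro x0 hx
  have e5 : nth2 [] 8 T08 x0 = lsW 39617598643503233 8388608 47 S08 W08 (Nat.div (sgW 4 x0) 8) (Nat.mod (sgW 4 x0) 8) :=
    tabW4_get _ _ x0 hx
  rw [e5]
  exact lsW_ok 39617598643503233 8388608 47 4 x0 16777215 (LD.dc 3) W08 S08 _ _ (by norm_num) hx
    (Nat.mod_lt _ (by norm_num)) (Nat.div_add_mod _ 8) (fun _ => rfl) rfl (fun j _ => LD.dc_lt 3 j)
    (LD.dc_le 3) (by norm_num) (by norm_num) (by norm_num)

theorem k09 : ∀ x0 < 64, LsOk (LD.dKO (LD.dit 9)) 8388608 (LD.dRp (LD.dit 9)) (LD.dvt 9) x0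
    (LD.dc (LD.dit 9)) (nth2 [] 8 T09 x0) := by
  have e1 : LD.dit 9 = 4 := by decide +kernel
  have e2 : LD.dKO 4 = 41587923480477825 := by decide +kernel
  have e3 : LD.dRp 4 = 75 := by decide +kernel
  have e4 : LD.dvt 9 = 0 := by decide +kernel
  rw [e1, e2, e3, e4]
  intro x0 hx
  have e5 : nth2 [] 8 T09 x0 = lsW 41587923480477825 8388608 75 S09 W09 (Nat.div (sgW 0 x0) 8) (Nat.mod (sgW 0 x0) 8) :=
    tabW0_get _ _ x0 hx
  rw [e5]
  exact lsW_ok 41587923480477825 8388608 75 0 x0 16777215 (LD.dc 4) W09 S09 _ _ (by norm_num) hx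
    (Nat.mod_lt _ (by norm_num)) (Nat.div_add_mod _ 8) (fun _ => rfl) rfl (fun j _ => LD.dc_lt 4 j)
    (LD.dc_le 4) (by norm_num) (by norm_num) (by norm_num)

theorem k10 : ∀ x0 < 64, LsOk (LD.dKO (LD.dit 10)) 8388608 (LD.dRp (LD.dit 10)) (LD.dvt 10) x0
    (LD.dc (LD.dit 10)) (nth2 [] 8 T10 x0) := by
  have e1 : LD.dit 10 = 4 := by decide +kernel
  have e2 : LD.dKO 4 = 41587923480477825 := by decide +kernel
  have e3 : LD.dRp 4 = 75 := by decide +kernel
  have e4 : LD.dvt 10 = 4 := by decide +kernel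
  rw [e1, e2, e3, e4]
  intro x0 hx
  have e5 : nth2 [] 8 T10 x0 = lsW 41587923480477825 8388608 75 S10 W10 (Nat.div (sgW 4 x0) 8) (Nat.mod (sgW 4 x0) 8) :=
    tabW4_get _ _ x0 hx
  rw [e5]
  exact lsW_ok 41587923480477825 8388608 75 4 x0 16777215 (LD.dc 4) W10 S10 _ _ (by norm_num) hx
    (Nat.mod_lt _ (by norm_num)) (Nat.div_add_mod _ 8) (fun _ => rfl) rfl (fun j _ => LD.dc_lt 4 j)
    (LD.dc_le 4) (by norm_num) (by norm_num) (by norm_num)

theorem k11 : ∀ x0 < 64, LsOk (LD.dKO (LD.dit 11)) 8388608 (LD.dRp (LD.dit 11)) (LD.dvt 11) x0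
    (LD.dc (LD.dit 11)) (nth2 [] 8 T11 x0) := by
  have e1 : LD.dit 11 = 5 := by decide +kernel
  have e2 : LD.dKO 5 = 41658292224655489 := by decide +kernel
  have e3 : LD.dRp 5 = 76 := by decide +kernel
  have e4 : LD.dvt 11 = 0 := by decide +kernel
  rw [e1, e2, e3, e4]
  intro x0 hx
  have e5 : nth2 [] 8 T11 x0 = lsW 41658292224655489 8388608 76 S11 W11 (Nat.div (sgW 0 x0) 8) (Nat.mod (sgW 0 x0) 8) :=
    tabW0_get _ _ x0 hx
  rw [e5]
  exact lsW_ok 41658292224655489 8388608 76 0 x0 16777215 (LD.dc 5) W11 S11 _ _ (by norm_num) hx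
    (Nat.mod_lt _ (by norm_num)) (Nat.div_add_mod _ 8) (fun _ => rfl) rfl (fun j _ => LD.dc_lt 5 j)
    (LD.dc_le 5) (by norm_num) (by norm_num) (by norm_num)

theorem k12 : ∀ x0 < 64, LsOk (LD.dKO (LD.dit 12)) 8388608 (LD.dRp (LD.dit 12)) (LD.dvt 12) x0
    (LD.dc (LD.dit 12)) (nth2 [] 8 T12 x0) := by
  have e1 : LD.dit 12 = 5 := by decide +kernel
  have e2 : LD.dKO 5 = 41658292224655489 := by decide +kernel
  have e3 : LD.dRp 5 = 76 := by decide +kernel
  have e4 : LD.dvt 12 = 2 := by decide +kernel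
  rw [e1, e2, e3, e4]
  intro x0 hx
  have e5 : nth2 [] 8 T12 x0 = lsW 41658292224655489 8388608 76 S12 W12 (Nat.div (sgW 2 x0) 8) (Nat.mod (sgW 2 x0) 8) :=
    tabW2_get _ _ x0 hx
  rw [e5]
  exact lsW_ok 41658292224655489 8388608 76 2 x0 16777215 (LD.dc 5) W12 S12 _ _ (by norm_num) hx
    (Nat.mod_lt _ (by norm_num)) (Nat.div_add_mod _ 8) (fun _ => rfl) rfl (fun j _ => LD.dc_lt 5 j)
    (LD.dc_le 5) (by norm_num) (by norm_num) (by norm_num)

theorem k13 : ∀ x0 < 64, LsOk (LD.dKO (LD.dit 13)) 8388608 (LD.dRp (LD.dit 13)) (LD.dvt 13) x0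
    (LD.dc (LD.dit 13)) (nth2 [] 8 T13 x0) := by
  have e1 : LD.dit 13 = 6 := by decide +kernel
  have e2 : LD.dKO 6 = 40954604782878849 := by decide +kernel
  have e3 : LD.dRp 6 = 66 := by decide +kernel
  have e4 : LD.dvt 13 = 0 := by decide +kernel
  rw [e1, e2, e3, e4]
  intro x0 hx
  have e5 : nth2 [] 8 T13 x0 = lsW 40954604782878849 8388608 66 S13 W13 (Nat.div (sgW 0 x0) 8) (Nat.mod (sgW 0 x0) 8) :=
    tabW0_get _ _ x0 hx
  rw [e5]
  exact lsW_ok 40954604782878849 8388608 66 0 x0 16777215 (LD.dc 6) W13 S13 _ _ (by norm_num) hx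
    (Nat.mod_lt _ (by norm_num)) (Nat.div_add_mod _ 8) (fun _ => rfl) rfl (fun j _ => LD.dc_lt 6 j)
    (LD.dc_le 6) (by norm_num) (by norm_num) (by norm_num)

theorem k14 : ∀ x0 < 64, LsOk (LD.dKO (LD.dit 14)) 8388608 (LD.dRp (LD.dit 14)) (LD.dvt 14) x0
    (LD.dc (LD.dit 14)) (nth2 [] 8 T14 x0) := by
  have e1 : LD.dit 14 = 6 := by decide +kernel
  have e2 : LD.dKO 6 = 40954604782878849 := by decide +kernel
  have e3 : LD.dRp 6 = 66 := by decide +kernel
  have e4 : LD.dvt 14 = 1 := by decide +kernel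
  rw [e1, e2, e3, e4]
  intro x0 hx
  have e5 : nth2 [] 8 T14 x0 = lsW 40954604782878849 8388608 66 S14 W14 (Nat.div (sgW 1 x0) 8) (Nat.mod (sgW 1 x0) 8) :=
    tabW1_get _ _ x0 hx
  rw [e5]
  exact lsW_ok 40954604782878849 8388608 66 1 x0 16777215 (LD.dc 6) W14 S14 _ _ (by norm_num) hx
    (Nat.mod_lt _ (by norm_num)) (Nat.div_add_mod _ 8) (fun _ => rfl) rfl (fun j _ => LD.dc_lt 6 j)
    (LD.dc_le 6) (by norm_num) (by norm_num) (by norm_num)

theorem k15 : ∀ x0 < 64, LsOk (LD.dKO (LD.dit 15)) 8388608 (LD.dRp (LD.dit 15)) (LD.dvt 15) x0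
    (LD.dc (LD.dit 15)) (nth2 [] 8 T15 x0) := by
  have e1 : LD.dit 15 = 7 := by decide +kernel
  have e2 : LD.dKO 7 = 39828704876036225 := by decide +kernel
  have e3 : LD.dRp 7 = 50 := by decide +kernel
  have e4 : LD.dvt 15 = 0 := by decide +kernel
  rw [e1, e2, e3, e4]
  intro x0 hx
  have e5 : nth2 [] 8 T15 x0 = lsW 39828704876036225 8388608 50 S15 W15 (Nat.div (sgW 0 x0) 8) (Nat.mod (sgW 0 x0) 8) :=
    tabW0_get _ _ x0 hx
  rw [e5]
  exact lsW_ok 39828704876036225 8388608 50 0 x0 16777215 (LD.dc 7) W15 S15 _ _ (by norm_num) hx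
    (Nat.mod_lt _ (by norm_num)) (Nat.div_add_mod _ 8) (fun _ => rfl) rfl (fun j _ => LD.dc_lt 7 j)
    (LD.dc_le 7) (by norm_num) (by norm_num) (by norm_num)

theorem k16 : ∀ x0 < 64, LsOk (LD.dKO (LD.dit 16)) 8388608 (LD.dRp (LD.dit 16)) (LD.dvt 16) x0
    (LD.dc (LD.dit 16)) (nth2 [] 8 T16 x0) := by
  have e1 : LD.dit 16 = 7 := by decide +kernel
  have e2 : LD.dKO 7 = 39828704876036225 := by decide +kernel
  have e3 : LD.dRp 7 = 50 := by decide +kernel
  have e4 : LD.dvt 16 = 1 := by decide +kernel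
  rw [e1, e2, e3, e4]
  intro x0 hx
  have e5 : nth2 [] 8 T16 x0 = lsW 39828704876036225 8388608 50 S16 W16 (Nat.div (sgW 1 x0) 8) (Nat.mod (sgW 1 x0) 8) :=
    tabW1_get _ _ x0 hx
  rw [e5]
  exact lsW_ok 39828704876036225 8388608 50 1 x0 16777215 (LD.dc 7) W16 S16 _ _ (by norm_num) hx
    (Nat.mod_lt _ (by norm_num)) (Nat.div_add_mod _ 8) (fun _ => rfl) rfl (fun j _ => LD.dc_lt 7 j)
    (LD.dc_le 7) (by norm_num) (by norm_num) (by norm_num)

theorem k17 : ∀ x0 < 64, LsOk (LD.dKO (LD.dit 17)) 8388608 (LD.dRp (LD.dit 17)) (LD.dvt 17) x0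
    (LD.dc (LD.dit 17)) (nth2 [] 8 T17 x0) := by
  have e1 : LD.dit 17 = 7 := by decide +kernel
  have e2 : LD.dKO 7 = 39828704876036225 := by decide +kernel
  have e3 : LD.dRp 7 = 50 := by decide +kernel
  have e4 : LD.dvt 17 = 3 := by decide +kernel
  rw [e1, e2, e3, e4]
  intro x0 hx
  have e5 : nth2 [] 8 T17 x0 = lsW 39828704876036225 8388608 50 S17 W17 (Nat.div (sgW 3 x0) 8) (Nat.mod (sgW 3 x0) 8) :=
    tabW3_get _ _ x0 hx
  rw [e5]
  exact lsW_ok 39828704876036225 8388608 50 3 x0 16777215 (LD.dc 7) W17 S17 _ _ (by norm_num) hx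
    (Nat.mod_lt _ (by norm_num)) (Nat.div_add_mod _ 8) (fun _ => rfl) rfl (fun j _ => LD.dc_lt 7 j)
    (LD.dc_le 7) (by norm_num) (by norm_num) (by norm_num)

theorem k18 : ∀ x0 < 64, LsOk (LD.dKO (LD.dit 18)) 8388608 (LD.dRp (LD.dit 18)) (LD.dvt 18) x0
    (LD.dc (LD.dit 18)) (nth2 [] 8 T18 x0) := by
  have e1 : LD.dit 18 = 8 := by decide +kernel
  have e2 : LD.dKO 8 = 39617598643503233 := by decide +kernel
  have e3 : LD.dRp 8 = 47 := by decide +kernel
  have e4 : LD.dvt 18 = 0 := by decide +kernel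
  rw [e1, e2, e3, e4]
  intro x0 hx
  have e5 : nth2 [] 8 T18 x0 = lsW 39617598643503233 8388608 47 S18 W18 (Nat.div (sgW 0 x0) 8) (Nat.mod (sgW 0 x0) 8) :=
    tabW0_get _ _ x0 hx
  rw [e5]
  exact lsW_ok 39617598643503233 8388608 47 0 x0 16777215 (LD.dc 8) W18 S18 _ _ (by norm_num) hx
    (Nat.mod_lt _ (by norm_num)) (Nat.div_add_mod _ 8) (fun _ => rfl) rfl (fun j _ => LD.dc_lt 8 j)
    (LD.dc_le 8) (by norm_num) (by norm_num) (by norm_num)

theorem k19 : ∀ x0 < 64, LsOk (LD.dKO (LD.dit 19)) 8388608 (LD.dRp (LD.dit 19)) (LD.dvt 19) x0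
    (LD.dc (LD.dit 19)) (nth2 [] 8 T19 x0) := by
  have e1 : LD.dit 19 = 8 := by decide +kernel
  have e2 : LD.dKO 8 = 39617598643503233 := by decide +kernel
  have e3 : LD.dRp 8 = 47 := by decide +kernel
  have e4 : LD.dvt 19 = 1 := by decide +kernel
  rw [e1, e2, e3, e4]
  intro x0 hx
  have e5 : nth2 [] 8 T19 x0 = lsW 39617598643503233 8388608 47 S19 W19 (Nat.div (sgW 1 x0) 8) (Nat.mod (sgW 1 x0) 8) :=
    tabW1_get _ _ x0 hx
  rw [e5]
  exact lsW_ok 39617598643503233 8388608 47 1 x0 16777215 (LD.dc 8) W19 S19 _ _ (by norm_num) hx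
    (Nat.mod_lt _ (by norm_num)) (Nat.div_add_mod _ 8) (fun _ => rfl) rfl (fun j _ => LD.dc_lt 8 j)
    (LD.dc_le 8) (by norm_num) (by norm_num) (by norm_num)

theorem k20 : ∀ x0 < 64, LsOk (LD.dKO (LD.dit 20)) 8388608 (LD.dRp (LD.dit 20)) (LD.dvt 20) x0
    (LD.dc (LD.dit 20)) (nth2 [] 8 T20 x0) := by
  have e1 : LD.dit 20 = 8 := by decide +kernel
  have e2 : LD.dKO 8 = 39617598643503233 := by decide +kernel
  have e3 : LD.dRp 8 = 47 := by decide +kernel
  have e4 : LD.dvt 20 = 2 := by decide +kernel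
  rw [e1, e2, e3, e4]
  intro x0 hx
  have e5 : nth2 [] 8 T20 x0 = lsW 39617598643503233 8388608 47 S20 W20 (Nat.div (sgW 2 x0) 8) (Nat.mod (sgW 2 x0) 8) :=
    tabW2_get _ _ x0 hx
  rw [e5]
  exact lsW_ok 39617598643503233 8388608 47 2 x0 16777215 (LD.dc 8) W20 S20 _ _ (by norm_num) hx
    (Nat.mod_lt _ (by norm_num)) (Nat.div_add_mod _ 8) (fun _ => rfl) rfl (fun j _ => LD.dc_lt 8 j)
    (LD.dc_le 8) (by norm_num) (by norm_num) (by norm_num)

theorem k21 : ∀ x0 < 64, LsOk (LD.dKO (LD.dit 21)) 8388608 (LD.dRp (LD.dit 21)) (LD.dvt 21) x0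
    (LD.dc (LD.dit 21)) (nth2 [] 8 T21 x0) := by
  have e1 : LD.dit 21 = 8 := by decide +kernel
  have e2 : LD.dKO 8 = 39617598643503233 := by decide +kernel
  have e3 : LD.dRp 8 = 47 := by decide +kernel
  have e4 : LD.dvt 21 = 4 := by decide +kernel
  rw [e1, e2, e3, e4]
  intro x0 hx
  have e5 : nth2 [] 8 T21 x0 = lsW 39617598643503233 8388608 47 S21 W21 (Nat.div (sgW 4 x0) 8) (Nat.mod (sgW 4 x0) 8) :=
    tabW4_get _ _ x0 hx
  rw [e5]
  exact lsW_ok 39617598643503233 8388608 47 4 x0 16777215 (LD.dc 8) W21 S21 _ _ (by norm_num) hx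
    (Nat.mod_lt _ (by norm_num)) (Nat.div_add_mod _ 8) (fun _ => rfl) rfl (fun j _ => LD.dc_lt 8 j)
    (LD.dc_le 8) (by norm_num) (by norm_num) (by norm_num)

theorem k22 : ∀ x0 < 64, LsOk (LD.dKO (LD.dit 22)) 8388608 (LD.dRp (LD.dit 22)) (LD.dvt 22) x0
    (LD.dc (LD.dit 22)) (nth2 [] 8 T22 x0) := by
  have e1 : LD.dit 22 = 9 := by decide +kernel
  have e2 : LD.dKO 9 = 40110179852746881 := by decide +kernel
  have e3 : LD.dRp 9 = 54 := by decide +kernel
  have e4 : LD.dvt 22 = 0 := by decide +kernel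
  rw [e1, e2, e3, e4]
  intro x0 hx
  have e5 : nth2 [] 8 T22 x0 = lsW 40110179852746881 8388608 54 S22 W22 (Nat.div (sgW 0 x0) 8) (Nat.mod (sgW 0 x0) 8) :=
    tabW0_get _ _ x0 hx
  rw [e5]
  exact lsW_ok 40110179852746881 8388608 54 0 x0 16777215 (LD.dc 9) W22 S22 _ _ (by norm_num) hx
    (Nat.mod_lt _ (by norm_num)) (Nat.div_add_mod _ 8) (fun _ => rfl) rfl (fun j _ => LD.dc_lt 9 j)
    (LD.dc_le 9) (by norm_num) (by norm_num) (by norm_num)

theorem k23 : ∀ x0 < 64, LsOk (LD.dKO (LD.dit 23)) 8388608 (LD.dRp (LD.dit 23)) (LD.dvt 23) x0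
    (LD.dc (LD.dit 23)) (nth2 [] 8 T23 x0) := by
  have e1 : LD.dit 23 = 9 := by decide +kernel
  have e2 : LD.dKO 9 = 40110179852746881 := by decide +kernel
  have e3 : LD.dRp 9 = 54 := by decide +kernel
  have e4 : LD.dvt 23 = 2 := by decide +kernel
  rw [e1, e2, e3, e4]
  intro x0 hx
  have e5 : nth2 [] 8 T23 x0 = lsW 40110179852746881 8388608 54 S23 W23 (Nat.div (sgW 2 x0) 8) (Nat.mod (sgW 2 x0) 8) :=
    tabW2_get _ _ x0 hx
  rw [e5]
  exact lsW_ok 40110179852746881 8388608 54 2 x0 16777215 (LD.dc 9) W23 S23 _ _ (by norm_num) hx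
    (Nat.mod_lt _ (by norm_num)) (Nat.div_add_mod _ 8) (fun _ => rfl) rfl (fun j _ => LD.dc_lt 9 j)
    (LD.dc_le 9) (by norm_num) (by norm_num) (by norm_num)

theorem k24 : ∀ x0 < 64, LsOk (LD.dKO (LD.dit 24)) 8388608 (LD.dRp (LD.dit 24)) (LD.dvt 24) x0
    (LD.dc (LD.dit 24)) (nth2 [] 8 T24 x0) := by
  have e1 : LD.dit 24 = 9 := by decide +kernel
  have e2 : LD.dKO 9 = 40110179852746881 := by decide +kernel
  have e3 : LD.dRp 9 = 54 := by decide +kernel
  have e4 : LD.dvt 24 = 4 := by decide +kernel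
  rw [e1, e2, e3, e4]
  intro x0 hx
  have e5 : nth2 [] 8 T24 x0 = lsW 40110179852746881 8388608 54 S24 W24 (Nat.div (sgW 4 x0) 8) (Nat.mod (sgW 4 x0) 8) :=
    tabW4_get _ _ x0 hx
  rw [e5]
  exact lsW_ok 40110179852746881 8388608 54 4 x0 16777215 (LD.dc 9) W24 S24 _ _ (by norm_num) hx
    (Nat.mod_lt _ (by norm_num)) (Nat.div_add_mod _ 8) (fun _ => rfl) rfl (fun j _ => LD.dc_lt 9 j)
    (LD.dc_le 9) (by norm_num) (by norm_num) (by norm_num)

theorem k25 : ∀ x0 < 64, LsOk (LD.dKO (LD.dit 25)) 8388608 (LD.dRp (LD.dit 25)) (LD.dvt 25) x0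
    (LD.dc (LD.dit 25)) (nth2 [] 8 T25 x0) := by
  have e1 : LD.dit 25 = 10 := by decide +kernel
  have e2 : LD.dKO 10 = 39617598643503233 := by decide +kernel
  have e3 : LD.dRp 10 = 47 := by decide +kernel
  have e4 : LD.dvt 25 = 0 := by decide +kernel
  rw [e1, e2, e3, e4]
  intro x0 hx
  have e5 : nth2 [] 8 T25 x0 = lsW 39617598643503233 8388608 47 S25 W25 (Nat.div (sgW 0 x0) 8) (Nat.mod (sgW 0 x0) 8) :=
    tabW0_get _ _ x0 hx
  rw [e5]
  exact lsW_ok 39617598643503233 8388608 47 0 x0 16777215 (LD.dc 10) W25 S25 _ _ (by norm_num) hx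
    (Nat.mod_lt _ (by norm_num)) (Nat.div_add_mod _ 8) (fun _ => rfl) rfl (fun j _ => LD.dc_lt 10 j)
    (LD.dc_le 10) (by norm_num) (by norm_num) (by norm_num)

theorem k26 : ∀ x0 < 64, LsOk (LD.dKO (LD.dit 26)) 8388608 (LD.dRp (LD.dit 26)) (LD.dvt 26) x0
    (LD.dc (LD.dit 26)) (nth2 [] 8 T26 x0) := by
  have e1 : LD.dit 26 = 10 := by decide +kernel
  have e2 : LD.dKO 10 = 39617598643503233 := by decide +kernel
  have e3 : LD.dRp 10 = 47 := by decide +kernel
  have e4 : LD.dvt 26 = 2 := by decide +kernel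
  rw [e1, e2, e3, e4]
  intro x0 hx
  have e5 : nth2 [] 8 T26 x0 = lsW 39617598643503233 8388608 47 S26 W26 (Nat.div (sgW 2 x0) 8) (Nat.mod (sgW 2 x0) 8) :=
    tabW2_get _ _ x0 hx
  rw [e5]
  exact lsW_ok 39617598643503233 8388608 47 2 x0 16777215 (LD.dc 10) W26 S26 _ _ (by norm_num) hx
    (Nat.mod_lt _ (by norm_num)) (Nat.div_add_mod _ 8) (fun _ => rfl) rfl (fun j _ => LD.dc_lt 10 j)
    (LD.dc_le 10) (by norm_num) (by norm_num) (by norm_num)

theorem k27 : ∀ x0 < 64, LsOk (LD.dKO (LD.dit 27)) 8388608 (LD.dRp (LD.dit 27)) (LD.dvt 27) x0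
    (LD.dc (LD.dit 27)) (nth2 [] 8 T27 x0) := by
  have e1 : LD.dit 27 = 10 := by decide +kernel
  have e2 : LD.dKO 10 = 39617598643503233 := by decide +kernel
  have e3 : LD.dRp 10 = 47 := by decide +kernel
  have e4 : LD.dvt 27 = 3 := by decide +kernel
  rw [e1, e2, e3, e4]
  intro x0 hx
  have e5 : nth2 [] 8 T27 x0 = lsW 39617598643503233 8388608 47 S27 W27 (Nat.div (sgW 3 x0) 8) (Nat.mod (sgW 3 x0) 8) :=
    tabW3_get _ _ x0 hx
  rw [e5]
  exact lsW_ok 39617598643503233 8388608 47 3 x0 16777215 (LD.dc 10) W27 S27 _ _ (by norm_num) hx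
    (Nat.mod_lt _ (by norm_num)) (Nat.div_add_mod _ 8) (fun _ => rfl) rfl (fun j _ => LD.dc_lt 10 j)
    (LD.dc_le 10) (by norm_num) (by norm_num) (by norm_num)

theorem k28 : ∀ x0 < 64, LsOk (LD.dKO (LD.dit 28)) 8388608 (LD.dRp (LD.dit 28)) (LD.dvt 28) x0
    (LD.dc (LD.dit 28)) (nth2 [] 8 T28 x0) := by
  have e1 : LD.dit 28 = 10 := by decide +kernel
  have e2 : LD.dKO 10 = 39617598643503233 := by decide +kernel
  have e3 : LD.dRp 10 = 47 := by decide +kernel
  have e4 : LD.dvt 28 = 4 := by decide +kernel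
  rw [e1, e2, e3, e4]
  intro x0 hx
  have e5 : nth2 [] 8 T28 x0 = lsW 39617598643503233 8388608 47 S28 W28 (Nat.div (sgW 4 x0) 8) (Nat.mod (sgW 4 x0) 8) :=
    tabW4_get _ _ x0 hx
  rw [e5]
  exact lsW_ok 39617598643503233 8388608 47 4 x0 16777215 (LD.dc 10) W28 S28 _ _ (by norm_num) hx
    (Nat.mod_lt _ (by norm_num)) (Nat.div_add_mod _ 8) (fun _ => rfl) rfl (fun j _ => LD.dc_lt 10 j)
    (LD.dc_le 10) (by norm_num) (by norm_num) (by norm_num)

theorem k29 : ∀ x0 < 64, LsOk (LD.dKO (LD.dit 29)) 8388608 (LD.dRp (LD.dit 29)) (LD.dvt 29) x0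
    (LD.dc (LD.dit 29)) (nth2 [] 8 T29 x0) := by
  have e1 : LD.dit 29 = 11 := by decide +kernel
  have e2 : LD.dKO 11 = 40673129806168193 := by decide +kernel
  have e3 : LD.dRp 11 = 62 := by decide +kernel
  have e4 : LD.dvt 29 = 0 := by decide +kernel
  rw [e1, e2, e3, e4]
  intro x0 hx
  have e5 : nth2 [] 8 T29 x0 = lsW 40673129806168193 8388608 62 S29 W29 (Nat.div (sgW 0 x0) 8) (Nat.mod (sgW 0 x0) 8) :=
    tabW0_get _ _ x0 hx
  rw [e5]
  exact lsW_ok 40673129806168193 8388608 62 0 x0 16777215 (LD.dc 11) W29 S29 _ _ (by norm_num) hx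
    (Nat.mod_lt _ (by norm_num)) (Nat.div_add_mod _ 8) (fun _ => rfl) rfl (fun j _ => LD.dc_lt 11 j)
    (LD.dc_le 11) (by norm_num) (by norm_num) (by norm_num)

theorem k30 : ∀ x0 < 64, LsOk (LD.dKO (LD.dit 30)) 8388608 (LD.dRp (LD.dit 30)) (LD.dvt 30) x0
    (LD.dc (LD.dit 30)) (nth2 [] 8 T30 x0) := by
  have e1 : LD.dit 30 = 11 := by decide +kernel
  have e2 : LD.dKO 11 = 40673129806168193 := by decide +kernel
  have e3 : LD.dRp 11 = 62 := by decide +kernel
  have e4 : LD.dvt 30 = 2 := by decide +kernel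
  rw [e1, e2, e3, e4]
  intro x0 hx
  have e5 : nth2 [] 8 T30 x0 = lsW 40673129806168193 8388608 62 S30 W30 (Nat.div (sgW 2 x0) 8) (Nat.mod (sgW 2 x0) 8) :=
    tabW2_get _ _ x0 hx
  rw [e5]
  exact lsW_ok 40673129806168193 8388608 62 2 x0 16777215 (LD.dc 11) W30 S30 _ _ (by norm_num) hx
    (Nat.mod_lt _ (by norm_num)) (Nat.div_add_mod _ 8) (fun _ => rfl) rfl (fun j _ => LD.dc_lt 11 j)
    (LD.dc_le 11) (by norm_num) (by norm_num) (by norm_num)

theorem k31 : ∀ x0 < 64, LsOk (LD.dKO (LD.dit 31)) 8388608 (LD.dRp (LD.dit 31)) (LD.dvt 31) x0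
    (LD.dc (LD.dit 31)) (nth2 [] 8 T31 x0) := by
  have e1 : LD.dit 31 = 11 := by decide +kernel
  have e2 : LD.dKO 11 = 40673129806168193 := by decide +kernel
  have e3 : LD.dRp 11 = 62 := by decide +kernel
  have e4 : LD.dvt 31 = 4 := by decide +kernel
  rw [e1, e2, e3, e4]
  intro x0 hx
  have e5 : nth2 [] 8 T31 x0 = lsW 40673129806168193 8388608 62 S31 W31 (Nat.div (sgW 4 x0) 8) (Nat.mod (sgW 4 x0) 8) :=
    tabW4_get _ _ x0 hx
  rw [e5]
  exact lsW_ok 40673129806168193 8388608 62 4 x0 16777215 (LD.dc 11) W31 S31 _ _ (by norm_num) hx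
    (Nat.mod_lt _ (by norm_num)) (Nat.div_add_mod _ 8) (fun _ => rfl) rfl (fun j _ => LD.dc_lt 11 j)
    (LD.dc_le 11) (by norm_num) (by norm_num) (by norm_num)

theorem k32 : ∀ x0 < 64, LsOk (LD.dKO (LD.dit 32)) 8388608 (LD.dRp (LD.dit 32)) (LD.dvt 32) x0
    (LD.dc (LD.dit 32)) (nth2 [] 8 T32 x0) := by
  have e1 : LD.dit 32 = 12 := by decide +kernel
  have e2 : LD.dKO 12 = 41587923480477825 := by decide +kernel
  have e3 : LD.dRp 12 = 75 := by decide +kernel
  have e4 : LD.dvt 32 = 0 := by decide +kernel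
  rw [e1, e2, e3, e4]
  intro x0 hx
  have e5 : nth2 [] 8 T32 x0 = lsW 41587923480477825 8388608 75 S32 W32 (Nat.div (sgW 0 x0) 8) (Nat.mod (sgW 0 x0) 8) :=
    tabW0_get _ _ x0 hx
  rw [e5]
  exact lsW_ok 41587923480477825 8388608 75 0 x0 16777215 (LD.dc 12) W32 S32 _ _ (by norm_num) hx
    (Nat.mod_lt _ (by norm_num)) (Nat.div_add_mod _ 8) (fun _ => rfl) rfl (fun j _ => LD.dc_lt 12 j)
    (LD.dc_le 12) (by norm_num) (by norm_num) (by norm_num)

theorem k33 : ∀ x0 < 64, LsOk (LD.dKO (LD.dit 33)) 8388608 (LD.dRp (LD.dit 33)) (LD.dvt 33) x0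
    (LD.dc (LD.dit 33)) (nth2 [] 8 T33 x0) := by
  have e1 : LD.dit 33 = 12 := by decide +kernel
  have e2 : LD.dKO 12 = 41587923480477825 := by decide +kernel
  have e3 : LD.dRp 12 = 75 := by decide +kernel
  have e4 : LD.dvt 33 = 1 := by decide +kernel
  rw [e1, e2, e3, e4]
  intro x0 hx
  have e5 : nth2 [] 8 T33 x0 = lsW 41587923480477825 8388608 75 S33 W33 (Nat.div (sgW 1 x0) 8) (Nat.mod (sgW 1 x0) 8) :=
    tabW1_get _ _ x0 hx
  rw [e5]
  exact lsW_ok 41587923480477825 8388608 75 1 x0 16777215 (LD.dc 12) W33 S33 _ _ (by norm_num) hx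
    (Nat.mod_lt _ (by norm_num)) (Nat.div_add_mod _ 8) (fun _ => rfl) rfl (fun j _ => LD.dc_lt 12 j)
    (LD.dc_le 12) (by norm_num) (by norm_num) (by norm_num)

theorem k34 : ∀ x0 < 64, LsOk (LD.dKO (LD.dit 34)) 8388608 (LD.dRp (LD.dit 34)) (LD.dvt 34) x0
    (LD.dc (LD.dit 34)) (nth2 [] 8 T34 x0) := by
  have e1 : LD.dit 34 = 13 := by decide +kernel
  have e2 : LD.dKO 13 = 41236079759589505 := by decide +kernel
  have e3 : LD.dRp 13 = 70 := by decide +kernel
  have e4 : LD.dvt 34 = 0 := by decide +kernel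
  rw [e1, e2, e3, e4]
  intro x0 hx
  have e5 : nth2 [] 8 T34 x0 = lsW 41236079759589505 8388608 70 S34 W34 (Nat.div (sgW 0 x0) 8) (Nat.mod (sgW 0 x0) 8) :=
    tabW0_get _ _ x0 hx
  rw [e5]
  exact lsW_ok 41236079759589505 8388608 70 0 x0 16777215 (LD.dc 13) W34 S34 _ _ (by norm_num) hx
    (Nat.mod_lt _ (by norm_num)) (Nat.div_add_mod _ 8) (fun _ => rfl) rfl (fun j _ => LD.dc_lt 13 j)
    (LD.dc_le 13) (by norm_num) (by norm_num) (by norm_num)

theorem k35 : ∀ x0 < 64, LsOk (LD.dKO (LD.dit 35)) 8388608 (LD.dRp (LD.dit 35)) (LD.dvt 35) x0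
    (LD.dc (LD.dit 35)) (nth2 [] 8 T35 x0) := by
  have e1 : LD.dit 35 = 13 := by decide +kernel
  have e2 : LD.dKO 13 = 41236079759589505 := by decide +kernel
  have e3 : LD.dRp 13 = 70 := by decide +kernel
  have e4 : LD.dvt 35 = 1 := by decide +kernel
  rw [e1, e2, e3, e4]
  intro x0 hx
  have e5 : nth2 [] 8 T35 x0 = lsW 41236079759589505 8388608 70 S35 W35 (Nat.div (sgW 1 x0) 8) (Nat.mod (sgW 1 x0) 8) :=
    tabW1_get _ _ x0 hx
  rw [e5]
  exact lsW_ok 41236079759589505 8388608 70 1 x0 16777215 (LD.dc 13) W35 S35 _ _ (by norm_num) hx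
    (Nat.mod_lt _ (by norm_num)) (Nat.div_add_mod _ 8) (fun _ => rfl) rfl (fun j _ => LD.dc_lt 13 j)
    (LD.dc_le 13) (by norm_num) (by norm_num) (by norm_num)

theorem k36 : ∀ x0 < 64, LsOk (LD.dKO (LD.dit 36)) 8388608 (LD.dRp (LD.dit 36)) (LD.dvt 36) x0
    (LD.dc (LD.dit 36)) (nth2 [] 8 T36 x0) := by
  have e1 : LD.dit 36 = 13 := by decide +kernel
  have e2 : LD.dKO 13 = 41236079759589505 := by decide +kernel
  have e3 : LD.dRp 13 = 70 := by decide +kernel
  have e4 : LD.dvt 36 = 3 := by decide +kernel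
  rw [e1, e2, e3, e4]
  intro x0 hx
  have e5 : nth2 [] 8 T36 x0 = lsW 41236079759589505 8388608 70 S36 W36 (Nat.div (sgW 3 x0) 8) (Nat.mod (sgW 3 x0) 8) :=
    tabW3_get _ _ x0 hx
  rw [e5]
  exact lsW_ok 41236079759589505 8388608 70 3 x0 16777215 (LD.dc 13) W36 S36 _ _ (by norm_num) hx
    (Nat.mod_lt _ (by norm_num)) (Nat.div_add_mod _ 8) (fun _ => rfl) rfl (fun j _ => LD.dc_lt 13 j)
    (LD.dc_le 13) (by norm_num) (by norm_num) (by norm_num)

theorem k37 : ∀ x0 < 64, LsOk (LD.dKO (LD.dit 37)) 8388608 (LD.dRp (LD.dit 37)) (LD.dvt 37) x0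
    (LD.dc (LD.dit 37)) (nth2 [] 8 T37 x0) := by
  have e1 : LD.dit 37 = 14 := by decide +kernel
  have e2 : LD.dKO 14 = 39547229899325569 := by decide +kernel
  have e3 : LD.dRp 14 = 46 := by decide +kernel
  have e4 : LD.dvt 37 = 0 := by decide +kernel
  rw [e1, e2, e3, e4]
  intro x0 hx
  have e5 : nth2 [] 8 T37 x0 = lsW 39547229899325569 8388608 46 S37 W37 (Nat.div (sgW 0 x0) 8) (Nat.mod (sgW 0 x0) 8) :=
    tabW0_get _ _ x0 hx
  rw [e5]
  exact lsW_ok 39547229899325569 8388608 46 0 x0 16777215 (LD.dc 14) W37 S37 _ _ (by norm_num) hx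
    (Nat.mod_lt _ (by norm_num)) (Nat.div_add_mod _ 8) (fun _ => rfl) rfl (fun j _ => LD.dc_lt 14 j)
    (LD.dc_le 14) (by norm_num) (by norm_num) (by norm_num)

theorem k38 : ∀ x0 < 64, LsOk (LD.dKO (LD.dit 38)) 8388608 (LD.dRp (LD.dit 38)) (LD.dvt 38) x0
    (LD.dc (LD.dit 38)) (nth2 [] 8 T38 x0) := by
  have e1 : LD.dit 38 = 14 := by decide +kernel
  have e2 : LD.dKO 14 = 39547229899325569 := by decide +kernel
  have e3 : LD.dRp 14 = 46 := by decide +kernel
  have e4 : LD.dvt 38 = 2 := by decide +kernel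
  rw [e1, e2, e3, e4]
  intro x0 hx
  have e5 : nth2 [] 8 T38 x0 = lsW 39547229899325569 8388608 46 S38 W38 (Nat.div (sgW 2 x0) 8) (Nat.mod (sgW 2 x0) 8) :=
    tabW2_get _ _ x0 hx
  rw [e5]
  exact lsW_ok 39547229899325569 8388608 46 2 x0 16777215 (LD.dc 14) W38 S38 _ _ (by norm_num) hx
    (Nat.mod_lt _ (by norm_num)) (Nat.div_add_mod _ 8) (fun _ => rfl) rfl (fun j _ => LD.dc_lt 14 j)
    (LD.dc_le 14) (by norm_num) (by norm_num) (by norm_num)

theorem k39 : ∀ x0 < 64, LsOk (LD.dKO (LD.dit 39)) 8388608 (LD.dRp (LD.dit 39)) (LD.dvt 39) x0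
    (LD.dc (LD.dit 39)) (nth2 [] 8 T39 x0) := by
  have e1 : LD.dit 39 = 14 := by decide +kernel
  have e2 : LD.dKO 14 = 39547229899325569 := by decide +kernel
  have e3 : LD.dRp 14 = 46 := by decide +kernel
  have e4 : LD.dvt 39 = 3 := by decide +kernel
  rw [e1, e2, e3, e4]
  intro x0 hx
  have e5 : nth2 [] 8 T39 x0 = lsW 39547229899325569 8388608 46 S39 W39 (Nat.div (sgW 3 x0) 8) (Nat.mod (sgW 3 x0) 8) :=
    tabW3_get _ _ x0 hx
  rw [e5]
  exact lsW_ok 39547229899325569 8388608 46 3 x0 16777215 (LD.dc 14) W39 S39 _ _ (by norm_num) hx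
    (Nat.mod_lt _ (by norm_num)) (Nat.div_add_mod _ 8) (fun _ => rfl) rfl (fun j _ => LD.dc_lt 14 j)
    (LD.dc_le 14) (by norm_num) (by norm_num) (by norm_num)

theorem k40 : ∀ x0 < 64, LsOk (LD.dKO (LD.dit 40)) 8388608 (LD.dRp (LD.dit 40)) (LD.dvt 40) x0
    (LD.dc (LD.dit 40)) (nth2 [] 8 T40 x0) := by
  have e1 : LD.dit 40 = 15 := by decide +kernel
  have e2 : LD.dKO 15 = 40180548596924545 := by decide +kernel
  have e3 : LD.dRp 15 = 55 := by decide +kernel
  have e4 : LD.dvt 40 = 0 := by decide +kernel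
  rw [e1, e2, e3, e4]
  intro x0 hx
  have e5 : nth2 [] 8 T40 x0 = lsW 40180548596924545 8388608 55 S40 W40 (Nat.div (sgW 0 x0) 8) (Nat.mod (sgW 0 x0) 8) :=
    tabW0_get _ _ x0 hx
  rw [e5]
  exact lsW_ok 40180548596924545 8388608 55 0 x0 16777215 (LD.dc 15) W40 S40 _ _ (by norm_num) hx
    (Nat.mod_lt _ (by norm_num)) (Nat.div_add_mod _ 8) (fun _ => rfl) rfl (fun j _ => LD.dc_lt 15 j)
    (LD.dc_le 15) (by norm_num) (by norm_num) (by norm_num)

theorem k41 : ∀ x0 < 64, LsOk (LD.dKO (LD.dit 41)) 8388608 (LD.dRp (LD.dit 41)) (LD.dvt 41) x0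
    (LD.dc (LD.dit 41)) (nth2 [] 8 T41 x0) := by
  have e1 : LD.dit 41 = 15 := by decide +kernel
  have e2 : LD.dKO 15 = 40180548596924545 := by decide +kernel
  have e3 : LD.dRp 15 = 55 := by decide +kernel
  have e4 : LD.dvt 41 = 2 := by decide +kernel
  rw [e1, e2, e3, e4]
  intro x0 hx
  have e5 : nth2 [] 8 T41 x0 = lsW 40180548596924545 8388608 55 S41 W41 (Nat.div (sgW 2 x0) 8) (Nat.mod (sgW 2 x0) 8) :=
    tabW2_get _ _ x0 hx
  rw [e5]
  exact lsW_ok 40180548596924545 8388608 55 2 x0 16777215 (LD.dc 15) W41 S41 _ _ (by norm_num) hx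
    (Nat.mod_lt _ (by norm_num)) (Nat.div_add_mod _ 8) (fun _ => rfl) rfl (fun j _ => LD.dc_lt 15 j)
    (LD.dc_le 15) (by norm_num) (by norm_num) (by norm_num)

theorem k42 : ∀ x0 < 64, LsOk (LD.dKO (LD.dit 42)) 8388608 (LD.dRp (LD.dit 42)) (LD.dvt 42) x0
    (LD.dc (LD.dit 42)) (nth2 [] 8 T42 x0) := by
  have e1 : LD.dit 42 = 15 := by decide +kernel
  have e2 : LD.dKO 15 = 40180548596924545 := by decide +kernel
  have e3 : LD.dRp 15 = 55 := by decide +kernel
  have e4 : LD.dvt 42 = 3 := by decide +kernel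
  rw [e1, e2, e3, e4]
  intro x0 hx
  have e5 : nth2 [] 8 T42 x0 = lsW 40180548596924545 8388608 55 S42 W42 (Nat.div (sgW 3 x0) 8) (Nat.mod (sgW 3 x0) 8) :=
    tabW3_get _ _ x0 hx
  rw [e5]
  exact lsW_ok 40180548596924545 8388608 55 3 x0 16777215 (LD.dc 15) W42 S42 _ _ (by norm_num) hx
    (Nat.mod_lt _ (by norm_num)) (Nat.div_add_mod _ 8) (fun _ => rfl) rfl (fun j _ => LD.dc_lt 15 j)
    (LD.dc_le 15) (by norm_num) (by norm_num) (by norm_num)

theorem k43 : ∀ x0 < 64, LsOk (LD.dKO (LD.dit 43)) 8388608 (LD.dRp (LD.dit 43)) (LD.dvt 43) x0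
    (LD.dc (LD.dit 43)) (nth2 [] 8 T43 x0) := by
  have e1 : LD.dit 43 = 16 := by decide +kernel
  have e2 : LD.dKO 16 = 39687967387680897 := by decide +kernel
  have e3 : LD.dRp 16 = 48 := by decide +kernel
  have e4 : LD.dvt 43 = 0 := by decide +kernel
  rw [e1, e2, e3, e4]
  intro x0 hx
  have e5 : nth2 [] 8 T43 x0 = lsW 39687967387680897 8388608 48 S43 W43 (Nat.div (sgW 0 x0) 8) (Nat.mod (sgW 0 x0) 8) :=
    tabW0_get _ _ x0 hx
  rw [e5]
  exact lsW_ok 39687967387680897 8388608 48 0 x0 16777215 (LD.dc 16) W43 S43 _ _ (by norm_num) hx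
    (Nat.mod_lt _ (by norm_num)) (Nat.div_add_mod _ 8) (fun _ => rfl) rfl (fun j _ => LD.dc_lt 16 j)
    (LD.dc_le 16) (by norm_num) (by norm_num) (by norm_num)

theorem k44 : ∀ x0 < 64, LsOk (LD.dKO (LD.dit 44)) 8388608 (LD.dRp (LD.dit 44)) (LD.dvt 44) x0
    (LD.dc (LD.dit 44)) (nth2 [] 8 T44 x0) := by
  have e1 : LD.dit 44 = 16 := by decide +kernel
  have e2 : LD.dKO 16 = 39687967387680897 := by decide +kernel
  have e3 : LD.dRp 16 = 48 := by decide +kernel
  have e4 : LD.dvt 44 = 1 := by decide +kernel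
  rw [e1, e2, e3, e4]
  intro x0 hx
  have e5 : nth2 [] 8 T44 x0 = lsW 39687967387680897 8388608 48 S44 W44 (Nat.div (sgW 1 x0) 8) (Nat.mod (sgW 1 x0) 8) :=
    tabW1_get _ _ x0 hx
  rw [e5]
  exact lsW_ok 39687967387680897 8388608 48 1 x0 16777215 (LD.dc 16) W44 S44 _ _ (by norm_num) hx
    (Nat.mod_lt _ (by norm_num)) (Nat.div_add_mod _ 8) (fun _ => rfl) rfl (fun j _ => LD.dc_lt 16 j)
    (LD.dc_le 16) (by norm_num) (by norm_num) (by norm_num)

theorem k45 : ∀ x0 < 64, LsOk (LD.dKO (LD.dit 45)) 8388608 (LD.dRp (LD.dit 45)) (LD.dvt 45) x0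
    (LD.dc (LD.dit 45)) (nth2 [] 8 T45 x0) := by
  have e1 : LD.dit 45 = 16 := by decide +kernel
  have e2 : LD.dKO 16 = 39687967387680897 := by decide +kernel
  have e3 : LD.dRp 16 = 48 := by decide +kernel
  have e4 : LD.dvt 45 = 3 := by decide +kernel
  rw [e1, e2, e3, e4]
  intro x0 hx
  have e5 : nth2 [] 8 T45 x0 = lsW 39687967387680897 8388608 48 S45 W45 (Nat.div (sgW 3 x0) 8) (Nat.mod (sgW 3 x0) 8) :=
    tabW3_get _ _ x0 hx
  rw [e5]
  exact lsW_ok 39687967387680897 8388608 48 3 x0 16777215 (LD.dc 16) W45 S45 _ _ (by norm_num) hx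
    (Nat.mod_lt _ (by norm_num)) (Nat.div_add_mod _ 8) (fun _ => rfl) rfl (fun j _ => LD.dc_lt 16 j)
    (LD.dc_le 16) (by norm_num) (by norm_num) (by norm_num)

theorem k46 : ∀ x0 < 64, LsOk (LD.dKO (LD.dit 46)) 8388608 (LD.dRp (LD.dit 46)) (LD.dvt 46) x0
    (LD.dc (LD.dit 46)) (nth2 [] 8 T46 x0) := by
  have e1 : LD.dit 46 = 16 := by decide +kernel
  have e2 : LD.dKO 16 = 39687967387680897 := by decide +kernel
  have e3 : LD.dRp 16 = 48 := by decide +kernel
  have e4 : LD.dvt 46 = 4 := by decide +kernel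
  rw [e1, e2, e3, e4]
  intro x0 hx
  have e5 : nth2 [] 8 T46 x0 = lsW 39687967387680897 8388608 48 S46 W46 (Nat.div (sgW 4 x0) 8) (Nat.mod (sgW 4 x0) 8) :=
    tabW4_get _ _ x0 hx
  rw [e5]
  exact lsW_ok 39687967387680897 8388608 48 4 x0 16777215 (LD.dc 16) W46 S46 _ _ (by norm_num) hx
    (Nat.mod_lt _ (by norm_num)) (Nat.div_add_mod _ 8) (fun _ => rfl) rfl (fun j _ => LD.dc_lt 16 j)
    (LD.dc_le 16) (by norm_num) (by norm_num) (by norm_num)

theorem k47 : ∀ x0 < 64, LsOk (LD.dKO (LD.dit 47)) 8388608 (LD.dRp (LD.dit 47)) (LD.dvt 47) x0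
    (LD.dc (LD.dit 47)) (nth2 [] 8 T47 x0) := by
  have e1 : LD.dit 47 = 17 := by decide +kernel
  have e2 : LD.dKO 17 = 39899073620213889 := by decide +kernel
  have e3 : LD.dRp 17 = 51 := by decide +kernel
  have e4 : LD.dvt 47 = 0 := by decide +kernel
  rw [e1, e2, e3, e4]
  intro x0 hx
  have e5 : nth2 [] 8 T47 x0 = lsW 39899073620213889 8388608 51 S47 W47 (Nat.div (sgW 0 x0) 8) (Nat.mod (sgW 0 x0) 8) :=
    tabW0_get _ _ x0 hx
  rw [e5]
  exact lsW_ok 39899073620213889 8388608 51 0 x0 16777215 (LD.dc 17) W47 S47 _ _ (by norm_num) hx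
    (Nat.mod_lt _ (by norm_num)) (Nat.div_add_mod _ 8) (fun _ => rfl) rfl (fun j _ => LD.dc_lt 17 j)
    (LD.dc_le 17) (by norm_num) (by norm_num) (by norm_num)

theorem k48 : ∀ x0 < 64, LsOk (LD.dKO (LD.dit 48)) 8388608 (LD.dRp (LD.dit 48)) (LD.dvt 48) x0
    (LD.dc (LD.dit 48)) (nth2 [] 8 T48 x0) := by
  have e1 : LD.dit 48 = 17 := by decide +kernel
  have e2 : LD.dKO 17 = 39899073620213889 := by decide +kernel
  have e3 : LD.dRp 17 = 51 := by decide +kernel
  have e4 : LD.dvt 48 = 1 := by decide +kernel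
  rw [e1, e2, e3, e4]
  intro x0 hx
  have e5 : nth2 [] 8 T48 x0 = lsW 39899073620213889 8388608 51 S48 W48 (Nat.div (sgW 1 x0) 8) (Nat.mod (sgW 1 x0) 8) :=
    tabW1_get _ _ x0 hx
  rw [e5]
  exact lsW_ok 39899073620213889 8388608 51 1 x0 16777215 (LD.dc 17) W48 S48 _ _ (by norm_num) hx
    (Nat.mod_lt _ (by norm_num)) (Nat.div_add_mod _ 8) (fun _ => rfl) rfl (fun j _ => LD.dc_lt 17 j)
    (LD.dc_le 17) (by norm_num) (by norm_num) (by norm_num)

theorem k49 : ∀ x0 < 64, LsOk (LD.dKO (LD.dit 49)) 8388608 (LD.dRp (LD.dit 49)) (LD.dvt 49) x0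
    (LD.dc (LD.dit 49)) (nth2 [] 8 T49 x0) := by
  have e1 : LD.dit 49 = 17 := by decide +kernel
  have e2 : LD.dKO 17 = 39899073620213889 := by decide +kernel
  have e3 : LD.dRp 17 = 51 := by decide +kernel
  have e4 : LD.dvt 49 = 3 := by decide +kernel
  rw [e1, e2, e3, e4]
  intro x0 hx
  have e5 : nth2 [] 8 T49 x0 = lsW 39899073620213889 8388608 51 S49 W49 (Nat.div (sgW 3 x0) 8) (Nat.mod (sgW 3 x0) 8) :=
    tabW3_get _ _ x0 hx
  rw [e5]
  exact lsW_ok 39899073620213889 8388608 51 3 x0 16777215 (LD.dc 17) W49 S49 _ _ (by norm_num) hx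
    (Nat.mod_lt _ (by norm_num)) (Nat.div_add_mod _ 8) (fun _ => rfl) rfl (fun j _ => LD.dc_lt 17 j)
    (LD.dc_le 17) (by norm_num) (by norm_num) (by norm_num)

theorem k50 : ∀ x0 < 64, LsOk (LD.dKO (LD.dit 50)) 8388608 (LD.dRp (LD.dit 50)) (LD.dvt 50) x0
    (LD.dc (LD.dit 50)) (nth2 [] 8 T50 x0) := by
  have e1 : LD.dit 50 = 17 := by decide +kernel
  have e2 : LD.dKO 17 = 39899073620213889 := by decide +kernel
  have e3 : LD.dRp 17 = 51 := by decide +kernel
  have e4 : LD.dvt 50 = 4 := by decide +kernel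
  rw [e1, e2, e3, e4]
  intro x0 hx
  have e5 : nth2 [] 8 T50 x0 = lsW 39899073620213889 8388608 51 S50 W50 (Nat.div (sgW 4 x0) 8) (Nat.mod (sgW 4 x0) 8) :=
    tabW4_get _ _ x0 hx
  rw [e5]
  exact lsW_ok 39899073620213889 8388608 51 4 x0 16777215 (LD.dc 17) W50 S50 _ _ (by norm_num) hx
    (Nat.mod_lt _ (by norm_num)) (Nat.div_add_mod _ 8) (fun _ => rfl) rfl (fun j _ => LD.dc_lt 17 j)
    (LD.dc_le 17) (by norm_num) (by norm_num) (by norm_num)

theorem k51 : ∀ x0 < 64, LsOk (LD.dKO (LD.dit 51)) 8388608 (LD.dRp (LD.dit 51)) (LD.dvt 51) x0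
    (LD.dc (LD.dit 51)) (nth2 [] 8 T51 x0) := by
  have e1 : LD.dit 51 = 18 := by decide +kernel
  have e2 : LD.dKO 18 = 41376817247944833 := by decide +kernel
  have e3 : LD.dRp 18 = 72 := by decide +kernel
  have e4 : LD.dvt 51 = 0 := by decide +kernel
  rw [e1, e2, e3, e4]
  intro x0 hx
  have e5 : nth2 [] 8 T51 x0 = lsW 41376817247944833 8388608 72 S51 W51 (Nat.div (sgW 0 x0) 8) (Nat.mod (sgW 0 x0) 8) :=
    tabW0_get _ _ x0 hx
  rw [e5]
  exact lsW_ok 41376817247944833 8388608 72 0 x0 16777215 (LD.dc 18) W51 S51 _ _ (by norm_num) hx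
    (Nat.mod_lt _ (by norm_num)) (Nat.div_add_mod _ 8) (fun _ => rfl) rfl (fun j _ => LD.dc_lt 18 j)
    (LD.dc_le 18) (by norm_num) (by norm_num) (by norm_num)

theorem k52 : ∀ x0 < 64, LsOk (LD.dKO (LD.dit 52)) 8388608 (LD.dRp (LD.dit 52)) (LD.dvt 52) x0
    (LD.dc (LD.dit 52)) (nth2 [] 8 T52 x0) := by
  have e1 : LD.dit 52 = 18 := by decide +kernel
  have e2 : LD.dKO 18 = 41376817247944833 := by decide +kernel
  have e3 : LD.dRp 18 = 72 := by decide +kernel
  have e4 : LD.dvt 52 = 3 := by decide +kernel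
  rw [e1, e2, e3, e4]
  intro x0 hx
  have e5 : nth2 [] 8 T52 x0 = lsW 41376817247944833 8388608 72 S52 W52 (Nat.div (sgW 3 x0) 8) (Nat.mod (sgW 3 x0) 8) :=
    tabW3_get _ _ x0 hx
  rw [e5]
  exact lsW_ok 41376817247944833 8388608 72 3 x0 16777215 (LD.dc 18) W52 S52 _ _ (by norm_num) hx
    (Nat.mod_lt _ (by norm_num)) (Nat.div_add_mod _ 8) (fun _ => rfl) rfl (fun j _ => LD.dc_lt 18 j)
    (LD.dc_le 18) (by norm_num) (by norm_num) (by norm_num)

theorem k53 : ∀ x0 < 64, LsOk (LD.dKO (LD.dit 53)) 8388608 (LD.dRp (LD.dit 53)) (LD.dvt 53) x0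
    (LD.dc (LD.dit 53)) (nth2 [] 8 T53 x0) := by
  have e1 : LD.dit 53 = 19 := by decide +kernel
  have e2 : LD.dKO 19 = 41869398457188481 := by decide +kernel
  have e3 : LD.dRp 19 = 79 := by decide +kernel
  have e4 : LD.dvt 53 = 0 := by decide +kernel
  rw [e1, e2, e3, e4]
  intro x0 hx
  have e5 : nth2 [] 8 T53 x0 = lsW 41869398457188481 8388608 79 S53 W53 (Nat.div (sgW 0 x0) 8) (Nat.mod (sgW 0 x0) 8) :=
    tabW0_get _ _ x0 hx
  rw [e5]
  exact lsW_ok 41869398457188481 8388608 79 0 x0 16777215 (LD.dc 19) W53 S53 _ _ (by norm_num) hx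
    (Nat.mod_lt _ (by norm_num)) (Nat.div_add_mod _ 8) (fun _ => rfl) rfl (fun j _ => LD.dc_lt 19 j)
    (LD.dc_le 19) (by norm_num) (by norm_num) (by norm_num)

theorem k54 : ∀ x0 < 64, LsOk (LD.dKO (LD.dit 54)) 8388608 (LD.dRp (LD.dit 54)) (LD.dvt 54) x0
    (LD.dc (LD.dit 54)) (nth2 [] 8 T54 x0) := by
  have e1 : LD.dit 54 = 19 := by decide +kernel
  have e2 : LD.dKO 19 = 41869398457188481 := by decide +kernel
  have e3 : LD.dRp 19 = 79 := by decide +kernel
  have e4 : LD.dvt 54 = 3 := by decide +kernel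
  rw [e1, e2, e3, e4]
  intro x0 hx
  have e5 : nth2 [] 8 T54 x0 = lsW 41869398457188481 8388608 79 S54 W54 (Nat.div (sgW 3 x0) 8) (Nat.mod (sgW 3 x0) 8) :=
    tabW3_get _ _ x0 hx
  rw [e5]
  exact lsW_ok 41869398457188481 8388608 79 3 x0 16777215 (LD.dc 19) W54 S54 _ _ (by norm_num) hx
    (Nat.mod_lt _ (by norm_num)) (Nat.div_add_mod _ 8) (fun _ => rfl) rfl (fun j _ => LD.dc_lt 19 j)
    (LD.dc_le 19) (by norm_num) (by norm_num) (by norm_num)

theorem k55 : ∀ x0 < 64, LsOk (LD.dKO (LD.dit 55)) 8388608 (LD.dRp (LD.dit 55)) (LD.dvt 55) x0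
    (LD.dc (LD.dit 55)) (nth2 [] 8 T55 x0) := by
  have e1 : LD.dit 55 = 20 := by decide +kernel
  have e2 : LD.dKO 20 = 40250917341102209 := by decide +kernel
  have e3 : LD.dRp 20 = 56 := by decide +kernel
  have e4 : LD.dvt 55 = 0 := by decide +kernel
  rw [e1, e2, e3, e4]
  intro x0 hx
  have e5 : nth2 [] 8 T55 x0 = lsW 40250917341102209 8388608 56 S55 W55 (Nat.div (sgW 0 x0) 8) (Nat.mod (sgW 0 x0) 8) :=
    tabW0_get _ _ x0 hx
  rw [e5]
  exact lsW_ok 40250917341102209 8388608 56 0 x0 16777215 (LD.dc 20) W55 S55 _ _ (by norm_num) hx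
    (Nat.mod_lt _ (by norm_num)) (Nat.div_add_mod _ 8) (fun _ => rfl) rfl (fun j _ => LD.dc_lt 20 j)
    (LD.dc_le 20) (by norm_num) (by norm_num) (by norm_num)

theorem k56 : ∀ x0 < 64, LsOk (LD.dKO (LD.dit 56)) 8388608 (LD.dRp (LD.dit 56)) (LD.dvt 56) x0
    (LD.dc (LD.dit 56)) (nth2 [] 8 T56 x0) := by
  have e1 : LD.dit 56 = 20 := by decide +kernel
  have e2 : LD.dKO 20 = 40250917341102209 := by decide +kernel
  have e3 : LD.dRp 20 = 56 := by decide +kernel
  have e4 : LD.dvt 56 = 1 := by decide +kernel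
  rw [e1, e2, e3, e4]
  intro x0 hx
  have e5 : nth2 [] 8 T56 x0 = lsW 40250917341102209 8388608 56 S56 W56 (Nat.div (sgW 1 x0) 8) (Nat.mod (sgW 1 x0) 8) :=
    tabW1_get _ _ x0 hx
  rw [e5]
  exact lsW_ok 40250917341102209 8388608 56 1 x0 16777215 (LD.dc 20) W56 S56 _ _ (by norm_num) hx
    (Nat.mod_lt _ (by norm_num)) (Nat.div_add_mod _ 8) (fun _ => rfl) rfl (fun j _ => LD.dc_lt 20 j)
    (LD.dc_le 20) (by norm_num) (by norm_num) (by norm_num)

theorem k57 : ∀ x0 < 64, LsOk (LD.dKO (LD.dit 57)) 8388608 (LD.dRp (LD.dit 57)) (LD.dvt 57) x0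
    (LD.dc (LD.dit 57)) (nth2 [] 8 T57 x0) := by
  have e1 : LD.dit 57 = 21 := by decide +kernel
  have e2 : LD.dKO 21 = 41799029713010817 := by decide +kernel
  have e3 : LD.dRp 21 = 78 := by decide +kernel
  have e4 : LD.dvt 57 = 0 := by decide +kernel
  rw [e1, e2, e3, e4]
  intro x0 hx
  have e5 : nth2 [] 8 T57 x0 = lsW 41799029713010817 8388608 78 S57 W57 (Nat.div (sgW 0 x0) 8) (Nat.mod (sgW 0 x0) 8) :=
    tabW0_get _ _ x0 hx
  rw [e5]
  exact lsW_ok 41799029713010817 8388608 78 0 x0 16777215 (LD.dc 21) W57 S57 _ _ (by norm_num) hx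
    (Nat.mod_lt _ (by norm_num)) (Nat.div_add_mod _ 8) (fun _ => rfl) rfl (fun j _ => LD.dc_lt 21 j)
    (LD.dc_le 21) (by norm_num) (by norm_num) (by norm_num)

theorem k58 : ∀ x0 < 64, LsOk (LD.dKO (LD.dit 58)) 8388608 (LD.dRp (LD.dit 58)) (LD.dvt 58) x0
    (LD.dc (LD.dit 58)) (nth2 [] 8 T58 x0) := by
  have e1 : LD.dit 58 = 21 := by decide +kernel
  have e2 : LD.dKO 21 = 41799029713010817 := by decide +kernel
  have e3 : LD.dRp 21 = 78 := by decide +kernel
  have e4 : LD.dvt 58 = 1 := by decide +kernel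
  rw [e1, e2, e3, e4]
  intro x0 hx
  have e5 : nth2 [] 8 T58 x0 = lsW 41799029713010817 8388608 78 S58 W58 (Nat.div (sgW 1 x0) 8) (Nat.mod (sgW 1 x0) 8) :=
    tabW1_get _ _ x0 hx
  rw [e5]
  exact lsW_ok 41799029713010817 8388608 78 1 x0 16777215 (LD.dc 21) W58 S58 _ _ (by norm_num) hx
    (Nat.mod_lt _ (by norm_num)) (Nat.div_add_mod _ 8) (fun _ => rfl) rfl (fun j _ => LD.dc_lt 21 j)
    (LD.dc_le 21) (by norm_num) (by norm_num) (by norm_num)

theorem k59 : ∀ x0 < 64, LsOk (LD.dKO (LD.dit 59)) 8388608 (LD.dRp (LD.dit 59)) (LD.dvt 59) x0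
    (LD.dc (LD.dit 59)) (nth2 [] 8 T59 x0) := by
  have e1 : LD.dit 59 = 22 := by decide +kernel
  have e2 : LD.dKO 22 = 39547229899325569 := by decide +kernel
  have e3 : LD.dRp 22 = 46 := by decide +kernel
  have e4 : LD.dvt 59 = 0 := by decide +kernel
  rw [e1, e2, e3, e4]
  intro x0 hx
  have e5 : nth2 [] 8 T59 x0 = lsW 39547229899325569 8388608 46 S59 W59 (Nat.div (sgW 0 x0) 8) (Nat.mod (sgW 0 x0) 8) :=
    tabW0_get _ _ x0 hx
  rw [e5]
  exact lsW_ok 39547229899325569 8388608 46 0 x0 16777215 (LD.dc 22) W59 S59 _ _ (by norm_num) hx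
    (Nat.mod_lt _ (by norm_num)) (Nat.div_add_mod _ 8) (fun _ => rfl) rfl (fun j _ => LD.dc_lt 22 j)
    (LD.dc_le 22) (by norm_num) (by norm_num) (by norm_num)

theorem k60 : ∀ x0 < 64, LsOk (LD.dKO (LD.dit 60)) 8388608 (LD.dRp (LD.dit 60)) (LD.dvt 60) x0
    (LD.dc (LD.dit 60)) (nth2 [] 8 T60 x0) := by
  have e1 : LD.dit 60 = 22 := by decide +kernel
  have e2 : LD.dKO 22 = 39547229899325569 := by decide +kernel
  have e3 : LD.dRp 22 = 46 := by decide +kernel
  have e4 : LD.dvt 60 = 1 := by decide +kernel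
  rw [e1, e2, e3, e4]
  intro x0 hx
  have e5 : nth2 [] 8 T60 x0 = lsW 39547229899325569 8388608 46 S60 W60 (Nat.div (sgW 1 x0) 8) (Nat.mod (sgW 1 x0) 8) :=
    tabW1_get _ _ x0 hx
  rw [e5]
  exact lsW_ok 39547229899325569 8388608 46 1 x0 16777215 (LD.dc 22) W60 S60 _ _ (by norm_num) hx
    (Nat.mod_lt _ (by norm_num)) (Nat.div_add_mod _ 8) (fun _ => rfl) rfl (fun j _ => LD.dc_lt 22 j)
    (LD.dc_le 22) (by norm_num) (by norm_num) (by norm_num)

theorem k61 : ∀ x0 < 64, LsOk (LD.dKO (LD.dit 61)) 8388608 (LD.dRp (LD.dit 61)) (LD.dvt 61) x0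
    (LD.dc (LD.dit 61)) (nth2 [] 8 T61 x0) := by
  have e1 : LD.dit 61 = 22 := by decide +kernel
  have e2 : LD.dKO 22 = 39547229899325569 := by decide +kernel
  have e3 : LD.dRp 22 = 46 := by decide +kernel
  have e4 : LD.dvt 61 = 3 := by decide +kernel
  rw [e1, e2, e3, e4]
  intro x0 hx
  have e5 : nth2 [] 8 T61 x0 = lsW 39547229899325569 8388608 46 S61 W61 (Nat.div (sgW 3 x0) 8) (Nat.mod (sgW 3 x0) 8) :=
    tabW3_get _ _ x0 hx
  rw [e5]
  exact lsW_ok 39547229899325569 8388608 46 3 x0 16777215 (LD.dc 22) W61 S61 _ _ (by norm_num) hx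
    (Nat.mod_lt _ (by norm_num)) (Nat.div_add_mod _ 8) (fun _ => rfl) rfl (fun j _ => LD.dc_lt 22 j)
    (LD.dc_le 22) (by norm_num) (by norm_num) (by norm_num)

theorem k62 : ∀ x0 < 64, LsOk (LD.dKO (LD.dit 62)) 8388608 (LD.dRp (LD.dit 62)) (LD.dvt 62) x0
    (LD.dc (LD.dit 62)) (nth2 [] 8 T62 x0) := by
  have e1 : LD.dit 62 = 22 := by decide +kernel
  have e2 : LD.dKO 22 = 39547229899325569 := by decide +kernel
  have e3 : LD.dRp 22 = 46 := by decide +kernel
  have e4 : LD.dvt 62 = 4 := by decide +kernel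
  rw [e1, e2, e3, e4]
  intro x0 hx
  have e5 : nth2 [] 8 T62 x0 = lsW 39547229899325569 8388608 46 S62 W62 (Nat.div (sgW 4 x0) 8) (Nat.mod (sgW 4 x0) 8) :=
    tabW4_get _ _ x0 hx
  rw [e5]
  exact lsW_ok 39547229899325569 8388608 46 4 x0 16777215 (LD.dc 22) W62 S62 _ _ (by norm_num) hx
    (Nat.mod_lt _ (by norm_num)) (Nat.div_add_mod _ 8) (fun _ => rfl) rfl (fun j _ => LD.dc_lt 22 j)
    (LD.dc_le 22) (by norm_num) (by norm_num) (by norm_num)

theorem k63 : ∀ x0 < 64, LsOk (LD.dKO (LD.dit 63)) 8388608 (LD.dRp (LD.dit 63)) (LD.dvt 63) x0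
    (LD.dc (LD.dit 63)) (nth2 [] 8 T63 x0) := by
  have e1 : LD.dit 63 = 23 := by decide +kernel
  have e2 : LD.dKO 23 = 40391654829457537 := by decide +kernel
  have e3 : LD.dRp 23 = 58 := by decide +kernel
  have e4 : LD.dvt 63 = 0 := by decide +kernel
  rw [e1, e2, e3, e4]
  intro x0 hx
  have e5 : nth2 [] 8 T63 x0 = lsW 40391654829457537 8388608 58 S63 W63 (Nat.div (sgW 0 x0) 8) (Nat.mod (sgW 0 x0) 8) :=
    tabW0_get _ _ x0 hx
  rw [e5]
  exact lsW_ok 40391654829457537 8388608 58 0 x0 16777215 (LD.dc 23) W63 S63 _ _ (by norm_num) hx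
    (Nat.mod_lt _ (by norm_num)) (Nat.div_add_mod _ 8) (fun _ => rfl) rfl (fun j _ => LD.dc_lt 23 j)
    (LD.dc_le 23) (by norm_num) (by norm_num) (by norm_num)

theorem k64 : ∀ x0 < 64, LsOk (LD.dKO (LD.dit 64)) 8388608 (LD.dRp (LD.dit 64)) (LD.dvt 64) x0
    (LD.dc (LD.dit 64)) (nth2 [] 8 T64 x0) := by
  have e1 : LD.dit 64 = 23 := by decide +kernel
  have e2 : LD.dKO 23 = 40391654829457537 := by decide +kernel
  have e3 : LD.dRp 23 = 58 := by decide +kernel
  have e4 : LD.dvt 64 = 1 := by decide +kernel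
  rw [e1, e2, e3, e4]
  intro x0 hx
  have e5 : nth2 [] 8 T64 x0 = lsW 40391654829457537 8388608 58 S64 W64 (Nat.div (sgW 1 x0) 8) (Nat.mod (sgW 1 x0) 8) :=
    tabW1_get _ _ x0 hx
  rw [e5]
  exact lsW_ok 40391654829457537 8388608 58 1 x0 16777215 (LD.dc 23) W64 S64 _ _ (by norm_num) hx
    (Nat.mod_lt _ (by norm_num)) (Nat.div_add_mod _ 8) (fun _ => rfl) rfl (fun j _ => LD.dc_lt 23 j)
    (LD.dc_le 23) (by norm_num) (by norm_num) (by norm_num)

theorem k65 : ∀ x0 < 64, LsOk (LD.dKO (LD.dit 65)) 8388608 (LD.dRp (LD.dit 65)) (LD.dvt 65) x0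
    (LD.dc (LD.dit 65)) (nth2 [] 8 T65 x0) := by
  have e1 : LD.dit 65 = 23 := by decide +kernel
  have e2 : LD.dKO 23 = 40391654829457537 := by decide +kernel
  have e3 : LD.dRp 23 = 58 := by decide +kernel
  have e4 : LD.dvt 65 = 2 := by decide +kernel
  rw [e1, e2, e3, e4]
  intro x0 hx
  have e5 : nth2 [] 8 T65 x0 = lsW 40391654829457537 8388608 58 S65 W65 (Nat.div (sgW 2 x0) 8) (Nat.mod (sgW 2 x0) 8) :=
    tabW2_get _ _ x0 hx
  rw [e5]
  exact lsW_ok 40391654829457537 8388608 58 2 x0 16777215 (LD.dc 23) W65 S65 _ _ (by norm_num) hx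
    (Nat.mod_lt _ (by norm_num)) (Nat.div_add_mod _ 8) (fun _ => rfl) rfl (fun j _ => LD.dc_lt 23 j)
    (LD.dc_le 23) (by norm_num) (by norm_num) (by norm_num)

theorem k66 : ∀ x0 < 64, LsOk (LD.dKO (LD.dit 66)) 8388608 (LD.dRp (LD.dit 66)) (LD.dvt 66) x0
    (LD.dc (LD.dit 66)) (nth2 [] 8 T66 x0) := by
  have e1 : LD.dit 66 = 23 := by decide +kernel
  have e2 : LD.dKO 23 = 40391654829457537 := by decide +kernel
  have e3 : LD.dRp 23 = 58 := by decide +kernel
  have e4 : LD.dvt 66 = 4 := by decide +kernel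
  rw [e1, e2, e3, e4]
  intro x0 hx
  have e5 : nth2 [] 8 T66 x0 = lsW 40391654829457537 8388608 58 S66 W66 (Nat.div (sgW 4 x0) 8) (Nat.mod (sgW 4 x0) 8) :=
    tabW4_get _ _ x0 hx
  rw [e5]
  exact lsW_ok 40391654829457537 8388608 58 4 x0 16777215 (LD.dc 23) W66 S66 _ _ (by norm_num) hx
    (Nat.mod_lt _ (by norm_num)) (Nat.div_add_mod _ 8) (fun _ => rfl) rfl (fun j _ => LD.dc_lt 23 j)
    (LD.dc_le 23) (by norm_num) (by norm_num) (by norm_num)

theorem k67 : ∀ x0 < 64, LsOk (LD.dKO (LD.dit 67)) 8388608 (LD.dRp (LD.dit 67)) (LD.dvt 67) x0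
    (LD.dc (LD.dit 67)) (nth2 [] 8 T67 x0) := by
  have e1 : LD.dit 67 = 24 := by decide +kernel
  have e2 : LD.dKO 24 = 41165711015411841 := by decide +kernel
  have e3 : LD.dRp 24 = 69 := by decide +kernel
  have e4 : LD.dvt 67 = 0 := by decide +kernel
  rw [e1, e2, e3, e4]
  intro x0 hx
  have e5 : nth2 [] 8 T67 x0 = lsW 41165711015411841 8388608 69 S67 W67 (Nat.div (sgW 0 x0) 8) (Nat.mod (sgW 0 x0) 8) :=
    tabW0_get _ _ x0 hx
  rw [e5]
  exact lsW_ok 41165711015411841 8388608 69 0 x0 16777215 (LD.dc 24) W67 S67 _ _ (by norm_num) hx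
    (Nat.mod_lt _ (by norm_num)) (Nat.div_add_mod _ 8) (fun _ => rfl) rfl (fun j _ => LD.dc_lt 24 j)
    (LD.dc_le 24) (by norm_num) (by norm_num) (by norm_num)

theorem k68 : ∀ x0 < 64, LsOk (LD.dKO (LD.dit 68)) 8388608 (LD.dRp (LD.dit 68)) (LD.dvt 68) x0
    (LD.dc (LD.dit 68)) (nth2 [] 8 T68 x0) := by
  have e1 : LD.dit 68 = 24 := by decide +kernel
  have e2 : LD.dKO 24 = 41165711015411841 := by decide +kernel
  have e3 : LD.dRp 24 = 69 := by decide +kernel
  have e4 : LD.dvt 68 = 1 := by decide +kernel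
  rw [e1, e2, e3, e4]
  intro x0 hx
  have e5 : nth2 [] 8 T68 x0 = lsW 41165711015411841 8388608 69 S68 W68 (Nat.div (sgW 1 x0) 8) (Nat.mod (sgW 1 x0) 8) :=
    tabW1_get _ _ x0 hx
  rw [e5]
  exact lsW_ok 41165711015411841 8388608 69 1 x0 16777215 (LD.dc 24) W68 S68 _ _ (by norm_num) hx
    (Nat.mod_lt _ (by norm_num)) (Nat.div_add_mod _ 8) (fun _ => rfl) rfl (fun j _ => LD.dc_lt 24 j)
    (LD.dc_le 24) (by norm_num) (by norm_num) (by norm_num)

theorem k69 : ∀ x0 < 64, LsOk (LD.dKO (LD.dit 69)) 8388608 (LD.dRp (LD.dit 69)) (LD.dvt 69) x0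
    (LD.dc (LD.dit 69)) (nth2 [] 8 T69 x0) := by
  have e1 : LD.dit 69 = 24 := by decide +kernel
  have e2 : LD.dKO 24 = 41165711015411841 := by decide +kernel
  have e3 : LD.dRp 24 = 69 := by decide +kernel
  have e4 : LD.dvt 69 = 4 := by decide +kernel
  rw [e1, e2, e3, e4]
  intro x0 hx
  have e5 : nth2 [] 8 T69 x0 = lsW 41165711015411841 8388608 69 S69 W69 (Nat.div (sgW 4 x0) 8) (Nat.mod (sgW 4 x0) 8) :=
    tabW4_get _ _ x0 hx
  rw [e5]
  exact lsW_ok 41165711015411841 8388608 69 4 x0 16777215 (LD.dc 24) W69 S69 _ _ (by norm_num) hx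
    (Nat.mod_lt _ (by norm_num)) (Nat.div_add_mod _ 8) (fun _ => rfl) rfl (fun j _ => LD.dc_lt 24 j)
    (LD.dc_le 24) (by norm_num) (by norm_num) (by norm_num)

theorem k70 : ∀ x0 < 64, LsOk (LD.dKO (LD.dit 70)) 8388608 (LD.dRp (LD.dit 70)) (LD.dvt 70) x0
    (LD.dc (LD.dit 70)) (nth2 [] 8 T70 x0) := by
  have e1 : LD.dit 70 = 25 := by decide +kernel
  have e2 : LD.dKO 25 = 41024973527056513 := by decide +kernel
  have e3 : LD.dRp 25 = 67 := by decide +kernel
  have e4 : LD.dvt 70 = 0 := by decide +kernel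
  rw [e1, e2, e3, e4]
  intro x0 hx
  have e5 : nth2 [] 8 T70 x0 = lsW 41024973527056513 8388608 67 S70 W70 (Nat.div (sgW 0 x0) 8) (Nat.mod (sgW 0 x0) 8) :=
    tabW0_get _ _ x0 hx
  rw [e5]
  exact lsW_ok 41024973527056513 8388608 67 0 x0 16777215 (LD.dc 25) W70 S70 _ _ (by norm_num) hx
    (Nat.mod_lt _ (by norm_num)) (Nat.div_add_mod _ 8) (fun _ => rfl) rfl (fun j _ => LD.dc_lt 25 j)
    (LD.dc_le 25) (by norm_num) (by norm_num) (by norm_num)

theorem k71 : ∀ x0 < 64, LsOk (LD.dKO (LD.dit 71)) 8388608 (LD.dRp (LD.dit 71)) (LD.dvt 71) x0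
    (LD.dc (LD.dit 71)) (nth2 [] 8 T71 x0) := by
  have e1 : LD.dit 71 = 25 := by decide +kernel
  have e2 : LD.dKO 25 = 41024973527056513 := by decide +kernel
  have e3 : LD.dRp 25 = 67 := by decide +kernel
  have e4 : LD.dvt 71 = 4 := by decide +kernel
  rw [e1, e2, e3, e4]
  intro x0 hx
  have e5 : nth2 [] 8 T71 x0 = lsW 41024973527056513 8388608 67 S71 W71 (Nat.div (sgW 4 x0) 8) (Nat.mod (sgW 4 x0) 8) :=
    tabW4_get _ _ x0 hx
  rw [e5]
  exact lsW_ok 41024973527056513 8388608 67 4 x0 16777215 (LD.dc 25) W71 S71 _ _ (by norm_num) hx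
    (Nat.mod_lt _ (by norm_num)) (Nat.div_add_mod _ 8) (fun _ => rfl) rfl (fun j _ => LD.dc_lt 25 j)
    (LD.dc_le 25) (by norm_num) (by norm_num) (by norm_num)

theorem k72 : ∀ x0 < 64, LsOk (LD.dKO (LD.dit 72)) 8388608 (LD.dRp (LD.dit 72)) (LD.dvt 72) x0
    (LD.dc (LD.dit 72)) (nth2 [] 8 T72 x0) := by
  have e1 : LD.dit 72 = 26 := by decide +kernel
  have e2 : LD.dKO 26 = 42432348410609793 := by decide +kernel
  have e3 : LD.dRp 26 = 87 := by decide +kernel
  have e4 : LD.dvt 72 = 0 := by decide +kernel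
  rw [e1, e2, e3, e4]
  intro x0 hx
  have e5 : nth2 [] 8 T72 x0 = lsW 42432348410609793 8388608 87 S72 W72 (Nat.div (sgW 0 x0) 8) (Nat.mod (sgW 0 x0) 8) :=
    tabW0_get _ _ x0 hx
  rw [e5]
  exact lsW_ok 42432348410609793 8388608 87 0 x0 16777215 (LD.dc 26) W72 S72 _ _ (by norm_num) hx
    (Nat.mod_lt _ (by norm_num)) (Nat.div_add_mod _ 8) (fun _ => rfl) rfl (fun j _ => LD.dc_lt 26 j)
    (LD.dc_le 26) (by norm_num) (by norm_num) (by norm_num)

theorem k73 : ∀ x0 < 64, LsOk (LD.dKO (LD.dit 73)) 8388608 (LD.dRp (LD.dit 73)) (LD.dvt 73) x0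
    (LD.dc (LD.dit 73)) (nth2 [] 8 T73 x0) := by
  have e1 : LD.dit 73 = 27 := by decide +kernel
  have e2 : LD.dKO 27 = 39899073620213889 := by decide +kernel
  have e3 : LD.dRp 27 = 51 := by decide +kernel
  have e4 : LD.dvt 73 = 0 := by decide +kernel
  rw [e1, e2, e3, e4]
  intro x0 hx
  have e5 : nth2 [] 8 T73 x0 = lsW 39899073620213889 8388608 51 S73 W73 (Nat.div (sgW 0 x0) 8) (Nat.mod (sgW 0 x0) 8) :=
    tabW0_get _ _ x0 hx
  rw [e5]
  exact lsW_ok 39899073620213889 8388608 51 0 x0 16777215 (LD.dc 27) W73 S73 _ _ (by norm_num) hx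
    (Nat.mod_lt _ (by norm_num)) (Nat.div_add_mod _ 8) (fun _ => rfl) rfl (fun j _ => LD.dc_lt 27 j)
    (LD.dc_le 27) (by norm_num) (by norm_num) (by norm_num)

theorem k74 : ∀ x0 < 64, LsOk (LD.dKO (LD.dit 74)) 8388608 (LD.dRp (LD.dit 74)) (LD.dvt 74) x0
    (LD.dc (LD.dit 74)) (nth2 [] 8 T74 x0) := by
  have e1 : LD.dit 74 = 27 := by decide +kernel
  have e2 : LD.dKO 27 = 39899073620213889 := by decide +kernel
  have e3 : LD.dRp 27 = 51 := by decide +kernel
  have e4 : LD.dvt 74 = 1 := by decide +kernel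
  rw [e1, e2, e3, e4]
  intro x0 hx
  have e5 : nth2 [] 8 T74 x0 = lsW 39899073620213889 8388608 51 S74 W74 (Nat.div (sgW 1 x0) 8) (Nat.mod (sgW 1 x0) 8) :=
    tabW1_get _ _ x0 hx
  rw [e5]
  exact lsW_ok 39899073620213889 8388608 51 1 x0 16777215 (LD.dc 27) W74 S74 _ _ (by norm_num) hx
    (Nat.mod_lt _ (by norm_num)) (Nat.div_add_mod _ 8) (fun _ => rfl) rfl (fun j _ => LD.dc_lt 27 j)
    (LD.dc_le 27) (by norm_num) (by norm_num) (by norm_num)

theorem k75 : ∀ x0 < 64, LsOk (LD.dKO (LD.dit 75)) 8388608 (LD.dRp (LD.dit 75)) (LD.dvt 75) x0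
    (LD.dc (LD.dit 75)) (nth2 [] 8 T75 x0) := by
  have e1 : LD.dit 75 = 27 := by decide +kernel
  have e2 : LD.dKO 27 = 39899073620213889 := by decide +kernel
  have e3 : LD.dRp 27 = 51 := by decide +kernel
  have e4 : LD.dvt 75 = 3 := by decide +kernel
  rw [e1, e2, e3, e4]
  intro x0 hx
  have e5 : nth2 [] 8 T75 x0 = lsW 39899073620213889 8388608 51 S75 W75 (Nat.div (sgW 3 x0) 8) (Nat.mod (sgW 3 x0) 8) :=
    tabW3_get _ _ x0 hx
  rw [e5]
  exact lsW_ok 39899073620213889 8388608 51 3 x0 16777215 (LD.dc 27) W75 S75 _ _ (by norm_num) hx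
    (Nat.mod_lt _ (by norm_num)) (Nat.div_add_mod _ 8) (fun _ => rfl) rfl (fun j _ => LD.dc_lt 27 j)
    (LD.dc_le 27) (by norm_num) (by norm_num) (by norm_num)

theorem k76 : ∀ x0 < 64, LsOk (LD.dKO (LD.dit 76)) 8388608 (LD.dRp (LD.dit 76)) (LD.dvt 76) x0
    (LD.dc (LD.dit 76)) (nth2 [] 8 T76 x0) := by
  have e1 : LD.dit 76 = 28 := by decide +kernel
  have e2 : LD.dKO 28 = 40180548596924545 := by decide +kernel
  have e3 : LD.dRp 28 = 55 := by decide +kernel
  have e4 : LD.dvt 76 = 0 := by decide +kernel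
  rw [e1, e2, e3, e4]
  intro x0 hx
  have e5 : nth2 [] 8 T76 x0 = lsW 40180548596924545 8388608 55 S76 W76 (Nat.div (sgW 0 x0) 8) (Nat.mod (sgW 0 x0) 8) :=
    tabW0_get _ _ x0 hx
  rw [e5]
  exact lsW_ok 40180548596924545 8388608 55 0 x0 16777215 (LD.dc 28) W76 S76 _ _ (by norm_num) hx
    (Nat.mod_lt _ (by norm_num)) (Nat.div_add_mod _ 8) (fun _ => rfl) rfl (fun j _ => LD.dc_lt 28 j)
    (LD.dc_le 28) (by norm_num) (by norm_num) (by norm_num)

theorem k77 : ∀ x0 < 64, LsOk (LD.dKO (LD.dit 77)) 8388608 (LD.dRp (LD.dit 77)) (LD.dvt 77) x0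
    (LD.dc (LD.dit 77)) (nth2 [] 8 T77 x0) := by
  have e1 : LD.dit 77 = 28 := by decide +kernel
  have e2 : LD.dKO 28 = 40180548596924545 := by decide +kernel
  have e3 : LD.dRp 28 = 55 := by decide +kernel
  have e4 : LD.dvt 77 = 2 := by decide +kernel
  rw [e1, e2, e3, e4]
  intro x0 hx
  have e5 : nth2 [] 8 T77 x0 = lsW 40180548596924545 8388608 55 S77 W77 (Nat.div (sgW 2 x0) 8) (Nat.mod (sgW 2 x0) 8) :=
    tabW2_get _ _ x0 hx
  rw [e5]
  exact lsW_ok 40180548596924545 8388608 55 2 x0 16777215 (LD.dc 28) W77 S77 _ _ (by norm_num) hx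
    (Nat.mod_lt _ (by norm_num)) (Nat.div_add_mod _ 8) (fun _ => rfl) rfl (fun j _ => LD.dc_lt 28 j)
    (LD.dc_le 28) (by norm_num) (by norm_num) (by norm_num)

theorem k78 : ∀ x0 < 64, LsOk (LD.dKO (LD.dit 78)) 8388608 (LD.dRp (LD.dit 78)) (LD.dvt 78) x0
    (LD.dc (LD.dit 78)) (nth2 [] 8 T78 x0) := by
  have e1 : LD.dit 78 = 28 := by decide +kernel
  have e2 : LD.dKO 28 = 40180548596924545 := by decide +kernel
  have e3 : LD.dRp 28 = 55 := by decide +kernel
  have e4 : LD.dvt 78 = 4 := by decide +kernel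
  rw [e1, e2, e3, e4]
  intro x0 hx
  have e5 : nth2 [] 8 T78 x0 = lsW 40180548596924545 8388608 55 S78 W78 (Nat.div (sgW 4 x0) 8) (Nat.mod (sgW 4 x0) 8) :=
    tabW4_get _ _ x0 hx
  rw [e5]
  exact lsW_ok 40180548596924545 8388608 55 4 x0 16777215 (LD.dc 28) W78 S78 _ _ (by norm_num) hx
    (Nat.mod_lt _ (by norm_num)) (Nat.div_add_mod _ 8) (fun _ => rfl) rfl (fun j _ => LD.dc_lt 28 j)
    (LD.dc_le 28) (by norm_num) (by norm_num) (by norm_num)

theorem k79 : ∀ x0 < 64, LsOk (LD.dKO (LD.dit 79)) 8388608 (LD.dRp (LD.dit 79)) (LD.dvt 79) x0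
    (LD.dc (LD.dit 79)) (nth2 [] 8 T79 x0) := by
  have e1 : LD.dit 79 = 29 := by decide +kernel
  have e2 : LD.dKO 29 = 40673129806168193 := by decide +kernel
  have e3 : LD.dRp 29 = 62 := by decide +kernel
  have e4 : LD.dvt 79 = 0 := by decide +kernel
  rw [e1, e2, e3, e4]
  intro x0 hx
  have e5 : nth2 [] 8 T79 x0 = lsW 40673129806168193 8388608 62 S79 W79 (Nat.div (sgW 0 x0) 8) (Nat.mod (sgW 0 x0) 8) :=
    tabW0_get _ _ x0 hx
  rw [e5]
  exact lsW_ok 40673129806168193 8388608 62 0 x0 16777215 (LD.dc 29) W79 S79 _ _ (by norm_num) hx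
    (Nat.mod_lt _ (by norm_num)) (Nat.div_add_mod _ 8) (fun _ => rfl) rfl (fun j _ => LD.dc_lt 29 j)
    (LD.dc_le 29) (by norm_num) (by norm_num) (by norm_num)

theorem k80 : ∀ x0 < 64, LsOk (LD.dKO (LD.dit 80)) 8388608 (LD.dRp (LD.dit 80)) (LD.dvt 80) x0
    (LD.dc (LD.dit 80)) (nth2 [] 8 T80 x0) := by
  have e1 : LD.dit 80 = 29 := by decide +kernel
  have e2 : LD.dKO 29 = 40673129806168193 := by decide +kernel
  have e3 : LD.dRp 29 = 62 := by decide +kernel
  have e4 : LD.dvt 80 = 1 := by decide +kernel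
  rw [e1, e2, e3, e4]
  intro x0 hx
  have e5 : nth2 [] 8 T80 x0 = lsW 40673129806168193 8388608 62 S80 W80 (Nat.div (sgW 1 x0) 8) (Nat.mod (sgW 1 x0) 8) :=
    tabW1_get _ _ x0 hx
  rw [e5]
  exact lsW_ok 40673129806168193 8388608 62 1 x0 16777215 (LD.dc 29) W80 S80 _ _ (by norm_num) hx
    (Nat.mod_lt _ (by norm_num)) (Nat.div_add_mod _ 8) (fun _ => rfl) rfl (fun j _ => LD.dc_lt 29 j)
    (LD.dc_le 29) (by norm_num) (by norm_num) (by norm_num)

theorem k81 : ∀ x0 < 64, LsOk (LD.dKO (LD.dit 81)) 8388608 (LD.dRp (LD.dit 81)) (LD.dvt 81) x0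
    (LD.dc (LD.dit 81)) (nth2 [] 8 T81 x0) := by
  have e1 : LD.dit 81 = 29 := by decide +kernel
  have e2 : LD.dKO 29 = 40673129806168193 := by decide +kernel
  have e3 : LD.dRp 29 = 62 := by decide +kernel
  have e4 : LD.dvt 81 = 3 := by decide +kernel
  rw [e1, e2, e3, e4]
  intro x0 hx
  have e5 : nth2 [] 8 T81 x0 = lsW 40673129806168193 8388608 62 S81 W81 (Nat.div (sgW 3 x0) 8) (Nat.mod (sgW 3 x0) 8) :=
    tabW3_get _ _ x0 hx
  rw [e5]
  exact lsW_ok 40673129806168193 8388608 62 3 x0 16777215 (LD.dc 29) W81 S81 _ _ (by norm_num) hx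
    (Nat.mod_lt _ (by norm_num)) (Nat.div_add_mod _ 8) (fun _ => rfl) rfl (fun j _ => LD.dc_lt 29 j)
    (LD.dc_le 29) (by norm_num) (by norm_num) (by norm_num)

theorem k82 : ∀ x0 < 64, LsOk (LD.dKO (LD.dit 82)) 8388608 (LD.dRp (LD.dit 82)) (LD.dvt 82) x0
    (LD.dc (LD.dit 82)) (nth2 [] 8 T82 x0) := by
  have e1 : LD.dit 82 = 30 := by decide +kernel
  have e2 : LD.dKO 30 = 41517554736300161 := by decide +kernel
  have e3 : LD.dRp 30 = 74 := by decide +kernel
  have e4 : LD.dvt 82 = 0 := by decide +kernel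
  rw [e1, e2, e3, e4]
  intro x0 hx
  have e5 : nth2 [] 8 T82 x0 = lsW 41517554736300161 8388608 74 S82 W82 (Nat.div (sgW 0 x0) 8) (Nat.mod (sgW 0 x0) 8) :=
    tabW0_get _ _ x0 hx
  rw [e5]
  exact lsW_ok 41517554736300161 8388608 74 0 x0 16777215 (LD.dc 30) W82 S82 _ _ (by norm_num) hx
    (Nat.mod_lt _ (by norm_num)) (Nat.div_add_mod _ 8) (fun _ => rfl) rfl (fun j _ => LD.dc_lt 30 j)
    (LD.dc_le 30) (by norm_num) (by norm_num) (by norm_num)

theorem k83 : ∀ x0 < 64, LsOk (LD.dKO (LD.dit 83)) 8388608 (LD.dRp (LD.dit 83)) (LD.dvt 83) x0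
    (LD.dc (LD.dit 83)) (nth2 [] 8 T83 x0) := by
  have e1 : LD.dit 83 = 30 := by decide +kernel
  have e2 : LD.dKO 30 = 41517554736300161 := by decide +kernel
  have e3 : LD.dRp 30 = 74 := by decide +kernel
  have e4 : LD.dvt 83 = 1 := by decide +kernel
  rw [e1, e2, e3, e4]
  intro x0 hx
  have e5 : nth2 [] 8 T83 x0 = lsW 41517554736300161 8388608 74 S83 W83 (Nat.div (sgW 1 x0) 8) (Nat.mod (sgW 1 x0) 8) :=
    tabW1_get _ _ x0 hx
  rw [e5]
  exact lsW_ok 41517554736300161 8388608 74 1 x0 16777215 (LD.dc 30) W83 S83 _ _ (by norm_num) hx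
    (Nat.mod_lt _ (by norm_num)) (Nat.div_add_mod _ 8) (fun _ => rfl) rfl (fun j _ => LD.dc_lt 30 j)
    (LD.dc_le 30) (by norm_num) (by norm_num) (by norm_num)

theorem k84 : ∀ x0 < 64, LsOk (LD.dKO (LD.dit 84)) 8388608 (LD.dRp (LD.dit 84)) (LD.dvt 84) x0
    (LD.dc (LD.dit 84)) (nth2 [] 8 T84 x0) := by
  have e1 : LD.dit 84 = 30 := by decide +kernel
  have e2 : LD.dKO 30 = 41517554736300161 := by decide +kernel
  have e3 : LD.dRp 30 = 74 := by decide +kernel
  have e4 : LD.dvt 84 = 3 := by decide +kernel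
  rw [e1, e2, e3, e4]
  intro x0 hx
  have e5 : nth2 [] 8 T84 x0 = lsW 41517554736300161 8388608 74 S84 W84 (Nat.div (sgW 3 x0) 8) (Nat.mod (sgW 3 x0) 8) :=
    tabW3_get _ _ x0 hx
  rw [e5]
  exact lsW_ok 41517554736300161 8388608 74 3 x0 16777215 (LD.dc 30) W84 S84 _ _ (by norm_num) hx
    (Nat.mod_lt _ (by norm_num)) (Nat.div_add_mod _ 8) (fun _ => rfl) rfl (fun j _ => LD.dc_lt 30 j)
    (LD.dc_le 30) (by norm_num) (by norm_num) (by norm_num)

theorem k85 : ∀ x0 < 64, LsOk (LD.dKO (LD.dit 85)) 8388608 (LD.dRp (LD.dit 85)) (LD.dvt 85) x0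
    (LD.dc (LD.dit 85)) (nth2 [] 8 T85 x0) := by
  have e1 : LD.dit 85 = 31 := by decide +kernel
  have e2 : LD.dKO 31 = 40673129806168193 := by decide +kernel
  have e3 : LD.dRp 31 = 62 := by decide +kernel
  have e4 : LD.dvt 85 = 0 := by decide +kernel
  rw [e1, e2, e3, e4]
  intro x0 hx
  have e5 : nth2 [] 8 T85 x0 = lsW 40673129806168193 8388608 62 S85 W85 (Nat.div (sgW 0 x0) 8) (Nat.mod (sgW 0 x0) 8) :=
    tabW0_get _ _ x0 hx
  rw [e5]
  exact lsW_ok 40673129806168193 8388608 62 0 x0 16777215 (LD.dc 31) W85 S85 _ _ (by norm_num) hx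
    (Nat.mod_lt _ (by norm_num)) (Nat.div_add_mod _ 8) (fun _ => rfl) rfl (fun j _ => LD.dc_lt 31 j)
    (LD.dc_le 31) (by norm_num) (by norm_num) (by norm_num)

theorem k86 : ∀ x0 < 64, LsOk (LD.dKO (LD.dit 86)) 8388608 (LD.dRp (LD.dit 86)) (LD.dvt 86) x0
    (LD.dc (LD.dit 86)) (nth2 [] 8 T86 x0) := by
  have e1 : LD.dit 86 = 31 := by decide +kernel
  have e2 : LD.dKO 31 = 40673129806168193 := by decide +kernel
  have e3 : LD.dRp 31 = 62 := by decide +kernel
  have e4 : LD.dvt 86 = 4 := by decide +kernel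
  rw [e1, e2, e3, e4]
  intro x0 hx
  have e5 : nth2 [] 8 T86 x0 = lsW 40673129806168193 8388608 62 S86 W86 (Nat.div (sgW 4 x0) 8) (Nat.mod (sgW 4 x0) 8) :=
    tabW4_get _ _ x0 hx
  rw [e5]
  exact lsW_ok 40673129806168193 8388608 62 4 x0 16777215 (LD.dc 31) W86 S86 _ _ (by norm_num) hx
    (Nat.mod_lt _ (by norm_num)) (Nat.div_add_mod _ 8) (fun _ => rfl) rfl (fun j _ => LD.dc_lt 31 j)
    (LD.dc_le 31) (by norm_num) (by norm_num) (by norm_num)

theorem k87 : ∀ x0 < 64, LsOk (LD.dKO (LD.dit 87)) 8388608 (LD.dRp (LD.dit 87)) (LD.dvt 87) x0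
    (LD.dc (LD.dit 87)) (nth2 [] 8 T87 x0) := by
  have e1 : LD.dit 87 = 32 := by decide +kernel
  have e2 : LD.dKO 32 = 41799029713010817 := by decide +kernel
  have e3 : LD.dRp 32 = 78 := by decide +kernel
  have e4 : LD.dvt 87 = 0 := by decide +kernel
  rw [e1, e2, e3, e4]
  intro x0 hx
  have e5 : nth2 [] 8 T87 x0 = lsW 41799029713010817 8388608 78 S87 W87 (Nat.div (sgW 0 x0) 8) (Nat.mod (sgW 0 x0) 8) :=
    tabW0_get _ _ x0 hx
  rw [e5]
  exact lsW_ok 41799029713010817 8388608 78 0 x0 16777215 (LD.dc 32) W87 S87 _ _ (by norm_num) hx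
    (Nat.mod_lt _ (by norm_num)) (Nat.div_add_mod _ 8) (fun _ => rfl) rfl (fun j _ => LD.dc_lt 32 j)
    (LD.dc_le 32) (by norm_num) (by norm_num) (by norm_num)

theorem k88 : ∀ x0 < 64, LsOk (LD.dKO (LD.dit 88)) 8388608 (LD.dRp (LD.dit 88)) (LD.dvt 88) x0
    (LD.dc (LD.dit 88)) (nth2 [] 8 T88 x0) := by
  have e1 : LD.dit 88 = 32 := by decide +kernel
  have e2 : LD.dKO 32 = 41799029713010817 := by decide +kernel
  have e3 : LD.dRp 32 = 78 := by decide +kernel
  have e4 : LD.dvt 88 = 2 := by decide +kernel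
  rw [e1, e2, e3, e4]
  intro x0 hx
  have e5 : nth2 [] 8 T88 x0 = lsW 41799029713010817 8388608 78 S88 W88 (Nat.div (sgW 2 x0) 8) (Nat.mod (sgW 2 x0) 8) :=
    tabW2_get _ _ x0 hx
  rw [e5]
  exact lsW_ok 41799029713010817 8388608 78 2 x0 16777215 (LD.dc 32) W88 S88 _ _ (by norm_num) hx
    (Nat.mod_lt _ (by norm_num)) (Nat.div_add_mod _ 8) (fun _ => rfl) rfl (fun j _ => LD.dc_lt 32 j)
    (LD.dc_le 32) (by norm_num) (by norm_num) (by norm_num)

theorem k89 : ∀ x0 < 64, LsOk (LD.dKO (LD.dit 89)) 8388608 (LD.dRp (LD.dit 89)) (LD.dvt 89) x0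
    (LD.dc (LD.dit 89)) (nth2 [] 8 T89 x0) := by
  have e1 : LD.dit 89 = 33 := by decide +kernel
  have e2 : LD.dKO 33 = 43698985805807745 := by decide +kernel
  have e3 : LD.dRp 33 = 105 := by decide +kernel
  have e4 : LD.dvt 89 = 0 := by decide +kernel
  rw [e1, e2, e3, e4]
  intro x0 hx
  have e5 : nth2 [] 8 T89 x0 = lsW 43698985805807745 8388608 105 S89 W89 (Nat.div (sgW 0 x0) 8) (Nat.mod (sgW 0 x0) 8) :=
    tabW0_get _ _ x0 hx
  rw [e5]
  exact lsW_ok 43698985805807745 8388608 105 0 x0 16777215 (LD.dc 33) W89 S89 _ _ (by norm_num) hx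
    (Nat.mod_lt _ (by norm_num)) (Nat.div_add_mod _ 8) (fun _ => rfl) rfl (fun j _ => LD.dc_lt 33 j)
    (LD.dc_le 33) (by norm_num) (by norm_num) (by norm_num)

theorem ls_ok : ∀ t < 90, ∀ x0 < 64, LsOk (LD.dKO (LD.dit t)) 8388608 (LD.dRp (LD.dit t)) (LD.dvt t) x0
    (LD.dc (LD.dit t)) (ls t x0) := by
  intro t ht
  interval_cases t
  · exact k00
  · exact k01
  · exact k02
  · exact k03
  · exact k04
  · exact k05
  · exact k06
  · exact k07
  · exact k08
  · exact k09
  · exact k10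
  · exact k11
  · exact k12
  · exact k13
  · exact k14
  · exact k15
  · exact k16
  · exact k17
  · exact k18
  · exact k19
  · exact k20
  · exact k21
  · exact k22
  · exact k23
  · exact k24
  · exact k25
  · exact k26
  · exact k27
  · exact k28
  · exact k29
  · exact k30
  · exact k31
  · exact k32
  · exact k33
  · exact k34
  · exact k35
  · exact k36
  · exact k37
  · exact k38
  · exact k39
  · exact k40
  · exact k41
  · exact k42
  · exact k43
  · exact k44
  · exact k45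
  · exact k46
  · exact k47
  · exact k48
  · exact k49
  · exact k50
  · exact k51
  · exact k52
  · exact k53
  · exact k54
  · exact k55
  · exact k56
  · exact k57
  · exact k58
  · exact k59
  · exact k60
  · exact k61
  · exact k62
  · exact k63
  · exact k64
  · exact k65
  · exact k66
  · exact k67
  · exact k68
  · exact k69
  · exact k70
  · exact k71
  · exact k72
  · exact k73
  · exact k74
  · exact k75
  · exact k76
  · exact k77
  · exact k78
  · exact k79
  · exact k80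
  · exact k81
  · exact k82
  · exact k83
  · exact k84
  · exact k85
  · exact k86
  · exact k87
  · exact k88
  · exact k89

end Pool.Agent.Lib.MP_afdd4d_co.K10.LS
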