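import Pool.Agent.Lib.MP_afdd4d_co.K10.LS.All

/-!
# The blocks of all pairs
-/

namespace Pool.Agent.Lib.MP_afdd4d_co.K10.LS

open K8 K8.L9

/-- The arrays of the pair `0`. -/
noncomputable def L00 : List O8 := bld W00 (nat_lit 17) []

/-- The blocks of the pair `0`. -/
noncomputable def G00 : List (List (List (List Nat))) :=
  tabW0 (fun h l => tabW0 (blF (nat_lit 45387835666071681) (nat_lit 8388608) S00 L00 h l))

theorem y00 : ∀ k < 7, W00 (129 + k) = 0 := by decide +kernel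

theorem z00 : ∀ j, 129 ≤ j → j < 8 * 17 → W00 j = 0 := by
  intro j h1 h2
  have h3 := y00 (j - 129) (by omega)
  rw [Nat.add_sub_cancel' h1] at h3
  exact h3

theorem g00 : ∀ x < 64, ∀ y < 64,
    nth2 0 8 (nth2 [] 8 G00 x) y = blL (nth2 [] 8 T00 x) (nth2 [] 8 T00 y) := by
  intro x hx y hy
  have e1 : nth2 [] 8 G00 x = tabW0 (blF 45387835666071681 8388608 S00 L00 (Nat.div (sgW 0 x) 8)
    (Nat.mod (sgW 0 x) 8)) := tabW0_get _ _ x hx
  have e2 : nth2 0 8 (tabW0 (blF 45387835666071681 8388608 S00 L00 (Nat.div (sgW 0 x) 8)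
    (Nat.mod (sgW 0 x) 8))) y = blF 45387835666071681 8388608 S00 L00 (Nat.div (sgW 0 x) 8)
    (Nat.mod (sgW 0 x) 8) (Nat.div (sgW 0 y) 8) (Nat.mod (sgW 0 y) 8) := tabW0_get _ _ y hy
  have e3 : nth2 [] 8 T00 x = lsW 45387835666071681 8388608 129 S00 W00 (Nat.div (sgW 0 x) 8) (Nat.mod (sgW 0 x) 8) :=
    tabW0_get _ _ x hx
  have e4 : nth2 [] 8 T00 y = lsW 45387835666071681 8388608 129 S00 W00 (Nat.div (sgW 0 y) 8) (Nat.mod (sgW 0 y) 8) :=
    tabW0_get _ _ y hy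
  rw [e1, e2, e3, e4]
  exact blF_eq 45387835666071681 8388608 129 S00 17 W00 (by norm_num) z00 _ _ _ _

/-- The arrays of the pair `1`. -/
noncomputable def L01 : List O8 := bld W01 (nat_lit 10) []

/-- The blocks of the pair `1`. -/
noncomputable def G01 : List (List (List (List Nat))) :=
  tabW0 (fun h l => tabW0 (blF (nat_lit 41658292224655489) (nat_lit 8388608) S01 L01 h l))

theorem y01 : ∀ k < 4, W01 (76 + k) = 0 := by decide +kernel

theorem z01 : ∀ j, 76 ≤ j → j < 8 * 10 → W01 j = 0 := by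
  intro j h1 h2
  have h3 := y01 (j - 76) (by omega)
  rw [Nat.add_sub_cancel' h1] at h3
  exact h3

theorem g01 : ∀ x < 64, ∀ y < 64,
    nth2 0 8 (nth2 [] 8 G01 x) y = blL (nth2 [] 8 T01 x) (nth2 [] 8 T01 y) := by
  intro x hx y hy
  have e1 : nth2 [] 8 G01 x = tabW0 (blF 41658292224655489 8388608 S01 L01 (Nat.div (sgW 0 x) 8)
    (Nat.mod (sgW 0 x) 8)) := tabW0_get _ _ x hx
  have e2 : nth2 0 8 (tabW0 (blF 41658292224655489 8388608 S01 L01 (Nat.div (sgW 0 x) 8)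
    (Nat.mod (sgW 0 x) 8))) y = blF 41658292224655489 8388608 S01 L01 (Nat.div (sgW 0 x) 8)
    (Nat.mod (sgW 0 x) 8) (Nat.div (sgW 0 y) 8) (Nat.mod (sgW 0 y) 8) := tabW0_get _ _ y hy
  have e3 : nth2 [] 8 T01 x = lsW 41658292224655489 8388608 76 S01 W01 (Nat.div (sgW 0 x) 8) (Nat.mod (sgW 0 x) 8) :=
    tabW0_get _ _ x hx
  have e4 : nth2 [] 8 T01 y = lsW 41658292224655489 8388608 76 S01 W01 (Nat.div (sgW 0 y) 8) (Nat.mod (sgW 0 y) 8) :=
    tabW0_get _ _ y hy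
  rw [e1, e2, e3, e4]
  exact blF_eq 41658292224655489 8388608 76 S01 10 W01 (by norm_num) z01 _ _ _ _

/-- The arrays of the pair `2`. -/
noncomputable def L02 : List O8 := bld W02 (nat_lit 10) []

/-- The blocks of the pair `2`. -/
noncomputable def G02 : List (List (List (List Nat))) :=
  tabW3 (fun h l => tabW3 (blF (nat_lit 41658292224655489) (nat_lit 8388608) S02 L02 h l))

theorem y02 : ∀ k < 4, W02 (76 + k) = 0 := by decide +kernel

theorem z02 : ∀ j, 76 ≤ j → j < 8 * 10 → W02 j = 0 := by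
  intro j h1 h2
  have h3 := y02 (j - 76) (by omega)
  rw [Nat.add_sub_cancel' h1] at h3
  exact h3

theorem g02 : ∀ x < 64, ∀ y < 64,
    nth2 0 8 (nth2 [] 8 G02 x) y = blL (nth2 [] 8 T02 x) (nth2 [] 8 T02 y) := by
  intro x hx y hy
  have e1 : nth2 [] 8 G02 x = tabW3 (blF 41658292224655489 8388608 S02 L02 (Nat.div (sgW 3 x) 8)
    (Nat.mod (sgW 3 x) 8)) := tabW3_get _ _ x hx
  have e2 : nth2 0 8 (tabW3 (blF 41658292224655489 8388608 S02 L02 (Nat.div (sgW 3 x) 8)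
    (Nat.mod (sgW 3 x) 8))) y = blF 41658292224655489 8388608 S02 L02 (Nat.div (sgW 3 x) 8)
    (Nat.mod (sgW 3 x) 8) (Nat.div (sgW 3 y) 8) (Nat.mod (sgW 3 y) 8) := tabW3_get _ _ y hy
  have e3 : nth2 [] 8 T02 x = lsW 41658292224655489 8388608 76 S02 W02 (Nat.div (sgW 3 x) 8) (Nat.mod (sgW 3 x) 8) :=
    tabW3_get _ _ x hx
  have e4 : nth2 [] 8 T02 y = lsW 41658292224655489 8388608 76 S02 W02 (Nat.div (sgW 3 y) 8) (Nat.mod (sgW 3 y) 8) :=
    tabW3_get _ _ y hy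
  rw [e1, e2, e3, e4]
  exact blF_eq 41658292224655489 8388608 76 S02 10 W02 (by norm_num) z02 _ _ _ _

/-- The arrays of the pair `3`. -/
noncomputable def L03 : List O8 := bld W03 (nat_lit 7) []

/-- The blocks of the pair `3`. -/
noncomputable def G03 : List (List (List (List Nat))) :=
  tabW0 (fun h l => tabW0 (blF (nat_lit 40110179852746881) (nat_lit 8388608) S03 L03 h l))

theorem y03 : ∀ k < 2, W03 (54 + k) = 0 := by decide +kernel

theorem z03 : ∀ j, 54 ≤ j → j < 8 * 7 → W03 j = 0 := by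
  intro j h1 h2
  have h3 := y03 (j - 54) (by omega)
  rw [Nat.add_sub_cancel' h1] at h3
  exact h3

theorem g03 : ∀ x < 64, ∀ y < 64,
    nth2 0 8 (nth2 [] 8 G03 x) y = blL (nth2 [] 8 T03 x) (nth2 [] 8 T03 y) := by
  intro x hx y hy
  have e1 : nth2 [] 8 G03 x = tabW0 (blF 40110179852746881 8388608 S03 L03 (Nat.div (sgW 0 x) 8)
    (Nat.mod (sgW 0 x) 8)) := tabW0_get _ _ x hx
  have e2 : nth2 0 8 (tabW0 (blF 40110179852746881 8388608 S03 L03 (Nat.div (sgW 0 x) 8)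
    (Nat.mod (sgW 0 x) 8))) y = blF 40110179852746881 8388608 S03 L03 (Nat.div (sgW 0 x) 8)
    (Nat.mod (sgW 0 x) 8) (Nat.div (sgW 0 y) 8) (Nat.mod (sgW 0 y) 8) := tabW0_get _ _ y hy
  have e3 : nth2 [] 8 T03 x = lsW 40110179852746881 8388608 54 S03 W03 (Nat.div (sgW 0 x) 8) (Nat.mod (sgW 0 x) 8) :=
    tabW0_get _ _ x hx
  have e4 : nth2 [] 8 T03 y = lsW 40110179852746881 8388608 54 S03 W03 (Nat.div (sgW 0 y) 8) (Nat.mod (sgW 0 y) 8) :=
    tabW0_get _ _ y hy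
  rw [e1, e2, e3, e4]
  exact blF_eq 40110179852746881 8388608 54 S03 7 W03 (by norm_num) z03 _ _ _ _

/-- The arrays of the pair `4`. -/
noncomputable def L04 : List O8 := bld W04 (nat_lit 7) []

/-- The blocks of the pair `4`. -/
noncomputable def G04 : List (List (List (List Nat))) :=
  tabW2 (fun h l => tabW2 (blF (nat_lit 40110179852746881) (nat_lit 8388608) S04 L04 h l))

theorem y04 : ∀ k < 2, W04 (54 + k) = 0 := by decide +kernel

theorem z04 : ∀ j, 54 ≤ j → j < 8 * 7 → W04 j = 0 := by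
  intro j h1 h2
  have h3 := y04 (j - 54) (by omega)
  rw [Nat.add_sub_cancel' h1] at h3
  exact h3

theorem g04 : ∀ x < 64, ∀ y < 64,
    nth2 0 8 (nth2 [] 8 G04 x) y = blL (nth2 [] 8 T04 x) (nth2 [] 8 T04 y) := by
  intro x hx y hy
  have e1 : nth2 [] 8 G04 x = tabW2 (blF 40110179852746881 8388608 S04 L04 (Nat.div (sgW 2 x) 8)
    (Nat.mod (sgW 2 x) 8)) := tabW2_get _ _ x hx
  have e2 : nth2 0 8 (tabW2 (blF 40110179852746881 8388608 S04 L04 (Nat.div (sgW 2 x) 8)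
    (Nat.mod (sgW 2 x) 8))) y = blF 40110179852746881 8388608 S04 L04 (Nat.div (sgW 2 x) 8)
    (Nat.mod (sgW 2 x) 8) (Nat.div (sgW 2 y) 8) (Nat.mod (sgW 2 y) 8) := tabW2_get _ _ y hy
  have e3 : nth2 [] 8 T04 x = lsW 40110179852746881 8388608 54 S04 W04 (Nat.div (sgW 2 x) 8) (Nat.mod (sgW 2 x) 8) :=
    tabW2_get _ _ x hx
  have e4 : nth2 [] 8 T04 y = lsW 40110179852746881 8388608 54 S04 W04 (Nat.div (sgW 2 y) 8) (Nat.mod (sgW 2 y) 8) :=
    tabW2_get _ _ y hy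
  rw [e1, e2, e3, e4]
  exact blF_eq 40110179852746881 8388608 54 S04 7 W04 (by norm_num) z04 _ _ _ _

/-- The arrays of the pair `5`. -/
noncomputable def L05 : List O8 := bld W05 (nat_lit 7) []

/-- The blocks of the pair `5`. -/
noncomputable def G05 : List (List (List (List Nat))) :=
  tabW4 (fun h l => tabW4 (blF (nat_lit 40110179852746881) (nat_lit 8388608) S05 L05 h l))

theorem y05 : ∀ k < 2, W05 (54 + k) = 0 := by decide +kernel

theorem z05 : ∀ j, 54 ≤ j → j < 8 * 7 → W05 j = 0 := by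
  intro j h1 h2
  have h3 := y05 (j - 54) (by omega)
  rw [Nat.add_sub_cancel' h1] at h3
  exact h3

theorem g05 : ∀ x < 64, ∀ y < 64,
    nth2 0 8 (nth2 [] 8 G05 x) y = blL (nth2 [] 8 T05 x) (nth2 [] 8 T05 y) := by
  intro x hx y hy
  have e1 : nth2 [] 8 G05 x = tabW4 (blF 40110179852746881 8388608 S05 L05 (Nat.div (sgW 4 x) 8)
    (Nat.mod (sgW 4 x) 8)) := tabW4_get _ _ x hx
  have e2 : nth2 0 8 (tabW4 (blF 40110179852746881 8388608 S05 L05 (Nat.div (sgW 4 x) 8)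
    (Nat.mod (sgW 4 x) 8))) y = blF 40110179852746881 8388608 S05 L05 (Nat.div (sgW 4 x) 8)
    (Nat.mod (sgW 4 x) 8) (Nat.div (sgW 4 y) 8) (Nat.mod (sgW 4 y) 8) := tabW4_get _ _ y hy
  have e3 : nth2 [] 8 T05 x = lsW 40110179852746881 8388608 54 S05 W05 (Nat.div (sgW 4 x) 8) (Nat.mod (sgW 4 x) 8) :=
    tabW4_get _ _ x hx
  have e4 : nth2 [] 8 T05 y = lsW 40110179852746881 8388608 54 S05 W05 (Nat.div (sgW 4 y) 8) (Nat.mod (sgW 4 y) 8) :=
    tabW4_get _ _ y hy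
  rw [e1, e2, e3, e4]
  exact blF_eq 40110179852746881 8388608 54 S05 7 W05 (by norm_num) z05 _ _ _ _

/-- The arrays of the pair `6`. -/
noncomputable def L06 : List O8 := bld W06 (nat_lit 6) []

/-- The blocks of the pair `6`. -/
noncomputable def G06 : List (List (List (List Nat))) :=
  tabW0 (fun h l => tabW0 (blF (nat_lit 39617598643503233) (nat_lit 8388608) S06 L06 h l))

theorem y06 : ∀ k < 1, W06 (47 + k) = 0 := by decide +kernel

theorem z06 : ∀ j, 47 ≤ j → j < 8 * 6 → W06 j = 0 := by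
  intro j h1 h2
  have h3 := y06 (j - 47) (by omega)
  rw [Nat.add_sub_cancel' h1] at h3
  exact h3

theorem g06 : ∀ x < 64, ∀ y < 64,
    nth2 0 8 (nth2 [] 8 G06 x) y = blL (nth2 [] 8 T06 x) (nth2 [] 8 T06 y) := by
  intro x hx y hy
  have e1 : nth2 [] 8 G06 x = tabW0 (blF 39617598643503233 8388608 S06 L06 (Nat.div (sgW 0 x) 8)
    (Nat.mod (sgW 0 x) 8)) := tabW0_get _ _ x hx
  have e2 : nth2 0 8 (tabW0 (blF 39617598643503233 8388608 S06 L06 (Nat.div (sgW 0 x) 8)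
    (Nat.mod (sgW 0 x) 8))) y = blF 39617598643503233 8388608 S06 L06 (Nat.div (sgW 0 x) 8)
    (Nat.mod (sgW 0 x) 8) (Nat.div (sgW 0 y) 8) (Nat.mod (sgW 0 y) 8) := tabW0_get _ _ y hy
  have e3 : nth2 [] 8 T06 x = lsW 39617598643503233 8388608 47 S06 W06 (Nat.div (sgW 0 x) 8) (Nat.mod (sgW 0 x) 8) :=
    tabW0_get _ _ x hx
  have e4 : nth2 [] 8 T06 y = lsW 39617598643503233 8388608 47 S06 W06 (Nat.div (sgW 0 y) 8) (Nat.mod (sgW 0 y) 8) :=
    tabW0_get _ _ y hy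
  rw [e1, e2, e3, e4]
  exact blF_eq 39617598643503233 8388608 47 S06 6 W06 (by norm_num) z06 _ _ _ _

/-- The arrays of the pair `7`. -/
noncomputable def L07 : List O8 := bld W07 (nat_lit 6) []

/-- The blocks of the pair `7`. -/
noncomputable def G07 : List (List (List (List Nat))) :=
  tabW1 (fun h l => tabW1 (blF (nat_lit 39617598643503233) (nat_lit 8388608) S07 L07 h l))

theorem y07 : ∀ k < 1, W07 (47 + k) = 0 := by decide +kernel

theorem z07 : ∀ j, 47 ≤ j → j < 8 * 6 → W07 j = 0 := by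
  intro j h1 h2
  have h3 := y07 (j - 47) (by omega)
  rw [Nat.add_sub_cancel' h1] at h3
  exact h3

theorem g07 : ∀ x < 64, ∀ y < 64,
    nth2 0 8 (nth2 [] 8 G07 x) y = blL (nth2 [] 8 T07 x) (nth2 [] 8 T07 y) := by
  intro x hx y hy
  have e1 : nth2 [] 8 G07 x = tabW1 (blF 39617598643503233 8388608 S07 L07 (Nat.div (sgW 1 x) 8)
    (Nat.mod (sgW 1 x) 8)) := tabW1_get _ _ x hx
  have e2 : nth2 0 8 (tabW1 (blF 39617598643503233 8388608 S07 L07 (Nat.div (sgW 1 x) 8)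
    (Nat.mod (sgW 1 x) 8))) y = blF 39617598643503233 8388608 S07 L07 (Nat.div (sgW 1 x) 8)
    (Nat.mod (sgW 1 x) 8) (Nat.div (sgW 1 y) 8) (Nat.mod (sgW 1 y) 8) := tabW1_get _ _ y hy
  have e3 : nth2 [] 8 T07 x = lsW 39617598643503233 8388608 47 S07 W07 (Nat.div (sgW 1 x) 8) (Nat.mod (sgW 1 x) 8) :=
    tabW1_get _ _ x hx
  have e4 : nth2 [] 8 T07 y = lsW 39617598643503233 8388608 47 S07 W07 (Nat.div (sgW 1 y) 8) (Nat.mod (sgW 1 y) 8) :=
    tabW1_get _ _ y hy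
  rw [e1, e2, e3, e4]
  exact blF_eq 39617598643503233 8388608 47 S07 6 W07 (by norm_num) z07 _ _ _ _

/-- The arrays of the pair `8`. -/
noncomputable def L08 : List O8 := bld W08 (nat_lit 6) []

/-- The blocks of the pair `8`. -/
noncomputable def G08 : List (List (List (List Nat))) :=
  tabW4 (fun h l => tabW4 (blF (nat_lit 39617598643503233) (nat_lit 8388608) S08 L08 h l))

theorem y08 : ∀ k < 1, W08 (47 + k) = 0 := by decide +kernel

theorem z08 : ∀ j, 47 ≤ j → j < 8 * 6 → W08 j = 0 := by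
  intro j h1 h2
  have h3 := y08 (j - 47) (by omega)
  rw [Nat.add_sub_cancel' h1] at h3
  exact h3

theorem g08 : ∀ x < 64, ∀ y < 64,
    nth2 0 8 (nth2 [] 8 G08 x) y = blL (nth2 [] 8 T08 x) (nth2 [] 8 T08 y) := by
  intro x hx y hy
  have e1 : nth2 [] 8 G08 x = tabW4 (blF 39617598643503233 8388608 S08 L08 (Nat.div (sgW 4 x) 8)
    (Nat.mod (sgW 4 x) 8)) := tabW4_get _ _ x hx
  have e2 : nth2 0 8 (tabW4 (blF 39617598643503233 8388608 S08 L08 (Nat.div (sgW 4 x) 8)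
    (Nat.mod (sgW 4 x) 8))) y = blF 39617598643503233 8388608 S08 L08 (Nat.div (sgW 4 x) 8)
    (Nat.mod (sgW 4 x) 8) (Nat.div (sgW 4 y) 8) (Nat.mod (sgW 4 y) 8) := tabW4_get _ _ y hy
  have e3 : nth2 [] 8 T08 x = lsW 39617598643503233 8388608 47 S08 W08 (Nat.div (sgW 4 x) 8) (Nat.mod (sgW 4 x) 8) :=
    tabW4_get _ _ x hx
  have e4 : nth2 [] 8 T08 y = lsW 39617598643503233 8388608 47 S08 W08 (Nat.div (sgW 4 y) 8) (Nat.mod (sgW 4 y) 8) :=
    tabW4_get _ _ y hy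
  rw [e1, e2, e3, e4]
  exact blF_eq 39617598643503233 8388608 47 S08 6 W08 (by norm_num) z08 _ _ _ _

/-- The arrays of the pair `9`. -/
noncomputable def L09 : List O8 := bld W09 (nat_lit 10) []

/-- The blocks of the pair `9`. -/
noncomputable def G09 : List (List (List (List Nat))) :=
  tabW0 (fun h l => tabW0 (blF (nat_lit 41587923480477825) (nat_lit 8388608) S09 L09 h l))

theorem y09 : ∀ k < 5, W09 (75 + k) = 0 := by decide +kernel

theorem z09 : ∀ j, 75 ≤ j → j < 8 * 10 → W09 j = 0 := by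
  intro j h1 h2
  have h3 := y09 (j - 75) (by omega)
  rw [Nat.add_sub_cancel' h1] at h3
  exact h3

theorem g09 : ∀ x < 64, ∀ y < 64,
    nth2 0 8 (nth2 [] 8 G09 x) y = blL (nth2 [] 8 T09 x) (nth2 [] 8 T09 y) := by
  intro x hx y hy
  have e1 : nth2 [] 8 G09 x = tabW0 (blF 41587923480477825 8388608 S09 L09 (Nat.div (sgW 0 x) 8)
    (Nat.mod (sgW 0 x) 8)) := tabW0_get _ _ x hx
  have e2 : nth2 0 8 (tabW0 (blF 41587923480477825 8388608 S09 L09 (Nat.div (sgW 0 x) 8)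
    (Nat.mod (sgW 0 x) 8))) y = blF 41587923480477825 8388608 S09 L09 (Nat.div (sgW 0 x) 8)
    (Nat.mod (sgW 0 x) 8) (Nat.div (sgW 0 y) 8) (Nat.mod (sgW 0 y) 8) := tabW0_get _ _ y hy
  have e3 : nth2 [] 8 T09 x = lsW 41587923480477825 8388608 75 S09 W09 (Nat.div (sgW 0 x) 8) (Nat.mod (sgW 0 x) 8) :=
    tabW0_get _ _ x hx
  have e4 : nth2 [] 8 T09 y = lsW 41587923480477825 8388608 75 S09 W09 (Nat.div (sgW 0 y) 8) (Nat.mod (sgW 0 y) 8) :=
    tabW0_get _ _ y hy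
  rw [e1, e2, e3, e4]
  exact blF_eq 41587923480477825 8388608 75 S09 10 W09 (by norm_num) z09 _ _ _ _

/-- The arrays of the pair `10`. -/
noncomputable def L10 : List O8 := bld W10 (nat_lit 10) []

/-- The blocks of the pair `10`. -/
noncomputable def G10 : List (List (List (List Nat))) :=
  tabW4 (fun h l => tabW4 (blF (nat_lit 41587923480477825) (nat_lit 8388608) S10 L10 h l))

theorem y10 : ∀ k < 5, W10 (75 + k) = 0 := by decide +kernel

theorem z10 : ∀ j, 75 ≤ j → j < 8 * 10 → W10 j = 0 := by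
  intro j h1 h2
  have h3 := y10 (j - 75) (by omega)
  rw [Nat.add_sub_cancel' h1] at h3
  exact h3

theorem g10 : ∀ x < 64, ∀ y < 64,
    nth2 0 8 (nth2 [] 8 G10 x) y = blL (nth2 [] 8 T10 x) (nth2 [] 8 T10 y) := by
  intro x hx y hy
  have e1 : nth2 [] 8 G10 x = tabW4 (blF 41587923480477825 8388608 S10 L10 (Nat.div (sgW 4 x) 8)
    (Nat.mod (sgW 4 x) 8)) := tabW4_get _ _ x hx
  have e2 : nth2 0 8 (tabW4 (blF 41587923480477825 8388608 S10 L10 (Nat.div (sgW 4 x) 8)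
    (Nat.mod (sgW 4 x) 8))) y = blF 41587923480477825 8388608 S10 L10 (Nat.div (sgW 4 x) 8)
    (Nat.mod (sgW 4 x) 8) (Nat.div (sgW 4 y) 8) (Nat.mod (sgW 4 y) 8) := tabW4_get _ _ y hy
  have e3 : nth2 [] 8 T10 x = lsW 41587923480477825 8388608 75 S10 W10 (Nat.div (sgW 4 x) 8) (Nat.mod (sgW 4 x) 8) :=
    tabW4_get _ _ x hx
  have e4 : nth2 [] 8 T10 y = lsW 41587923480477825 8388608 75 S10 W10 (Nat.div (sgW 4 y) 8) (Nat.mod (sgW 4 y) 8) :=
    tabW4_get _ _ y hy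
  rw [e1, e2, e3, e4]
  exact blF_eq 41587923480477825 8388608 75 S10 10 W10 (by norm_num) z10 _ _ _ _

/-- The arrays of the pair `11`. -/
noncomputable def L11 : List O8 := bld W11 (nat_lit 10) []

/-- The blocks of the pair `11`. -/
noncomputable def G11 : List (List (List (List Nat))) :=
  tabW0 (fun h l => tabW0 (blF (nat_lit 41658292224655489) (nat_lit 8388608) S11 L11 h l))

theorem y11 : ∀ k < 4, W11 (76 + k) = 0 := by decide +kernel

theorem z11 : ∀ j, 76 ≤ j → j < 8 * 10 → W11 j = 0 := by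
  intro j h1 h2
  have h3 := y11 (j - 76) (by omega)
  rw [Nat.add_sub_cancel' h1] at h3
  exact h3

theorem g11 : ∀ x < 64, ∀ y < 64,
    nth2 0 8 (nth2 [] 8 G11 x) y = blL (nth2 [] 8 T11 x) (nth2 [] 8 T11 y) := by
  intro x hx y hy
  have e1 : nth2 [] 8 G11 x = tabW0 (blF 41658292224655489 8388608 S11 L11 (Nat.div (sgW 0 x) 8)
    (Nat.mod (sgW 0 x) 8)) := tabW0_get _ _ x hx
  have e2 : nth2 0 8 (tabW0 (blF 41658292224655489 8388608 S11 L11 (Nat.div (sgW 0 x) 8)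
    (Nat.mod (sgW 0 x) 8))) y = blF 41658292224655489 8388608 S11 L11 (Nat.div (sgW 0 x) 8)
    (Nat.mod (sgW 0 x) 8) (Nat.div (sgW 0 y) 8) (Nat.mod (sgW 0 y) 8) := tabW0_get _ _ y hy
  have e3 : nth2 [] 8 T11 x = lsW 41658292224655489 8388608 76 S11 W11 (Nat.div (sgW 0 x) 8) (Nat.mod (sgW 0 x) 8) :=
    tabW0_get _ _ x hx
  have e4 : nth2 [] 8 T11 y = lsW 41658292224655489 8388608 76 S11 W11 (Nat.div (sgW 0 y) 8) (Nat.mod (sgW 0 y) 8) :=
    tabW0_get _ _ y hy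
  rw [e1, e2, e3, e4]
  exact blF_eq 41658292224655489 8388608 76 S11 10 W11 (by norm_num) z11 _ _ _ _

/-- The arrays of the pair `12`. -/
noncomputable def L12 : List O8 := bld W12 (nat_lit 10) []

/-- The blocks of the pair `12`. -/
noncomputable def G12 : List (List (List (List Nat))) :=
  tabW2 (fun h l => tabW2 (blF (nat_lit 41658292224655489) (nat_lit 8388608) S12 L12 h l))

theorem y12 : ∀ k < 4, W12 (76 + k) = 0 := by decide +kernel

theorem z12 : ∀ j, 76 ≤ j → j < 8 * 10 → W12 j = 0 := by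
  intro j h1 h2
  have h3 := y12 (j - 76) (by omega)
  rw [Nat.add_sub_cancel' h1] at h3
  exact h3

theorem g12 : ∀ x < 64, ∀ y < 64,
    nth2 0 8 (nth2 [] 8 G12 x) y = blL (nth2 [] 8 T12 x) (nth2 [] 8 T12 y) := by
  intro x hx y hy
  have e1 : nth2 [] 8 G12 x = tabW2 (blF 41658292224655489 8388608 S12 L12 (Nat.div (sgW 2 x) 8)
    (Nat.mod (sgW 2 x) 8)) := tabW2_get _ _ x hx
  have e2 : nth2 0 8 (tabW2 (blF 41658292224655489 8388608 S12 L12 (Nat.div (sgW 2 x) 8)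
    (Nat.mod (sgW 2 x) 8))) y = blF 41658292224655489 8388608 S12 L12 (Nat.div (sgW 2 x) 8)
    (Nat.mod (sgW 2 x) 8) (Nat.div (sgW 2 y) 8) (Nat.mod (sgW 2 y) 8) := tabW2_get _ _ y hy
  have e3 : nth2 [] 8 T12 x = lsW 41658292224655489 8388608 76 S12 W12 (Nat.div (sgW 2 x) 8) (Nat.mod (sgW 2 x) 8) :=
    tabW2_get _ _ x hx
  have e4 : nth2 [] 8 T12 y = lsW 41658292224655489 8388608 76 S12 W12 (Nat.div (sgW 2 y) 8) (Nat.mod (sgW 2 y) 8) :=
    tabW2_get _ _ y hy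
  rw [e1, e2, e3, e4]
  exact blF_eq 41658292224655489 8388608 76 S12 10 W12 (by norm_num) z12 _ _ _ _

/-- The arrays of the pair `13`. -/
noncomputable def L13 : List O8 := bld W13 (nat_lit 9) []

/-- The blocks of the pair `13`. -/
noncomputable def G13 : List (List (List (List Nat))) :=
  tabW0 (fun h l => tabW0 (blF (nat_lit 40954604782878849) (nat_lit 8388608) S13 L13 h l))

theorem y13 : ∀ k < 6, W13 (66 + k) = 0 := by decide +kernel

theorem z13 : ∀ j, 66 ≤ j → j < 8 * 9 → W13 j = 0 := by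
  intro j h1 h2
  have h3 := y13 (j - 66) (by omega)
  rw [Nat.add_sub_cancel' h1] at h3
  exact h3

theorem g13 : ∀ x < 64, ∀ y < 64,
    nth2 0 8 (nth2 [] 8 G13 x) y = blL (nth2 [] 8 T13 x) (nth2 [] 8 T13 y) := by
  intro x hx y hy
  have e1 : nth2 [] 8 G13 x = tabW0 (blF 40954604782878849 8388608 S13 L13 (Nat.div (sgW 0 x) 8)
    (Nat.mod (sgW 0 x) 8)) := tabW0_get _ _ x hx
  have e2 : nth2 0 8 (tabW0 (blF 40954604782878849 8388608 S13 L13 (Nat.div (sgW 0 x) 8)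
    (Nat.mod (sgW 0 x) 8))) y = blF 40954604782878849 8388608 S13 L13 (Nat.div (sgW 0 x) 8)
    (Nat.mod (sgW 0 x) 8) (Nat.div (sgW 0 y) 8) (Nat.mod (sgW 0 y) 8) := tabW0_get _ _ y hy
  have e3 : nth2 [] 8 T13 x = lsW 40954604782878849 8388608 66 S13 W13 (Nat.div (sgW 0 x) 8) (Nat.mod (sgW 0 x) 8) :=
    tabW0_get _ _ x hx
  have e4 : nth2 [] 8 T13 y = lsW 40954604782878849 8388608 66 S13 W13 (Nat.div (sgW 0 y) 8) (Nat.mod (sgW 0 y) 8) :=
    tabW0_get _ _ y hy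
  rw [e1, e2, e3, e4]
  exact blF_eq 40954604782878849 8388608 66 S13 9 W13 (by norm_num) z13 _ _ _ _

/-- The arrays of the pair `14`. -/
noncomputable def L14 : List O8 := bld W14 (nat_lit 9) []

/-- The blocks of the pair `14`. -/
noncomputable def G14 : List (List (List (List Nat))) :=
  tabW1 (fun h l => tabW1 (blF (nat_lit 40954604782878849) (nat_lit 8388608) S14 L14 h l))

theorem y14 : ∀ k < 6, W14 (66 + k) = 0 := by decide +kernel

theorem z14 : ∀ j, 66 ≤ j → j < 8 * 9 → W14 j = 0 := by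
  intro j h1 h2
  have h3 := y14 (j - 66) (by omega)
  rw [Nat.add_sub_cancel' h1] at h3
  exact h3

theorem g14 : ∀ x < 64, ∀ y < 64,
    nth2 0 8 (nth2 [] 8 G14 x) y = blL (nth2 [] 8 T14 x) (nth2 [] 8 T14 y) := by
  intro x hx y hy
  have e1 : nth2 [] 8 G14 x = tabW1 (blF 40954604782878849 8388608 S14 L14 (Nat.div (sgW 1 x) 8)
    (Nat.mod (sgW 1 x) 8)) := tabW1_get _ _ x hx
  have e2 : nth2 0 8 (tabW1 (blF 40954604782878849 8388608 S14 L14 (Nat.div (sgW 1 x) 8)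
    (Nat.mod (sgW 1 x) 8))) y = blF 40954604782878849 8388608 S14 L14 (Nat.div (sgW 1 x) 8)
    (Nat.mod (sgW 1 x) 8) (Nat.div (sgW 1 y) 8) (Nat.mod (sgW 1 y) 8) := tabW1_get _ _ y hy
  have e3 : nth2 [] 8 T14 x = lsW 40954604782878849 8388608 66 S14 W14 (Nat.div (sgW 1 x) 8) (Nat.mod (sgW 1 x) 8) :=
    tabW1_get _ _ x hx
  have e4 : nth2 [] 8 T14 y = lsW 40954604782878849 8388608 66 S14 W14 (Nat.div (sgW 1 y) 8) (Nat.mod (sgW 1 y) 8) :=
    tabW1_get _ _ y hy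
  rw [e1, e2, e3, e4]
  exact blF_eq 40954604782878849 8388608 66 S14 9 W14 (by norm_num) z14 _ _ _ _

/-- The arrays of the pair `15`. -/
noncomputable def L15 : List O8 := bld W15 (nat_lit 7) []

/-- The blocks of the pair `15`. -/
noncomputable def G15 : List (List (List (List Nat))) :=
  tabW0 (fun h l => tabW0 (blF (nat_lit 39828704876036225) (nat_lit 8388608) S15 L15 h l))

theorem y15 : ∀ k < 6, W15 (50 + k) = 0 := by decide +kernel

theorem z15 : ∀ j, 50 ≤ j → j < 8 * 7 → W15 j = 0 := by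
  intro j h1 h2
  have h3 := y15 (j - 50) (by omega)
  rw [Nat.add_sub_cancel' h1] at h3
  exact h3

theorem g15 : ∀ x < 64, ∀ y < 64,
    nth2 0 8 (nth2 [] 8 G15 x) y = blL (nth2 [] 8 T15 x) (nth2 [] 8 T15 y) := by
  intro x hx y hy
  have e1 : nth2 [] 8 G15 x = tabW0 (blF 39828704876036225 8388608 S15 L15 (Nat.div (sgW 0 x) 8)
    (Nat.mod (sgW 0 x) 8)) := tabW0_get _ _ x hx
  have e2 : nth2 0 8 (tabW0 (blF 39828704876036225 8388608 S15 L15 (Nat.div (sgW 0 x) 8)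
    (Nat.mod (sgW 0 x) 8))) y = blF 39828704876036225 8388608 S15 L15 (Nat.div (sgW 0 x) 8)
    (Nat.mod (sgW 0 x) 8) (Nat.div (sgW 0 y) 8) (Nat.mod (sgW 0 y) 8) := tabW0_get _ _ y hy
  have e3 : nth2 [] 8 T15 x = lsW 39828704876036225 8388608 50 S15 W15 (Nat.div (sgW 0 x) 8) (Nat.mod (sgW 0 x) 8) :=
    tabW0_get _ _ x hx
  have e4 : nth2 [] 8 T15 y = lsW 39828704876036225 8388608 50 S15 W15 (Nat.div (sgW 0 y) 8) (Nat.mod (sgW 0 y) 8) :=
    tabW0_get _ _ y hy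
  rw [e1, e2, e3, e4]
  exact blF_eq 39828704876036225 8388608 50 S15 7 W15 (by norm_num) z15 _ _ _ _

/-- The arrays of the pair `16`. -/
noncomputable def L16 : List O8 := bld W16 (nat_lit 7) []

/-- The blocks of the pair `16`. -/
noncomputable def G16 : List (List (List (List Nat))) :=
  tabW1 (fun h l => tabW1 (blF (nat_lit 39828704876036225) (nat_lit 8388608) S16 L16 h l))

theorem y16 : ∀ k < 6, W16 (50 + k) = 0 := by decide +kernel

theorem z16 : ∀ j, 50 ≤ j → j < 8 * 7 → W16 j = 0 := by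
  intro j h1 h2
  have h3 := y16 (j - 50) (by omega)
  rw [Nat.add_sub_cancel' h1] at h3
  exact h3

theorem g16 : ∀ x < 64, ∀ y < 64,
    nth2 0 8 (nth2 [] 8 G16 x) y = blL (nth2 [] 8 T16 x) (nth2 [] 8 T16 y) := by
  intro x hx y hy
  have e1 : nth2 [] 8 G16 x = tabW1 (blF 39828704876036225 8388608 S16 L16 (Nat.div (sgW 1 x) 8)
    (Nat.mod (sgW 1 x) 8)) := tabW1_get _ _ x hx
  have e2 : nth2 0 8 (tabW1 (blF 39828704876036225 8388608 S16 L16 (Nat.div (sgW 1 x) 8)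
    (Nat.mod (sgW 1 x) 8))) y = blF 39828704876036225 8388608 S16 L16 (Nat.div (sgW 1 x) 8)
    (Nat.mod (sgW 1 x) 8) (Nat.div (sgW 1 y) 8) (Nat.mod (sgW 1 y) 8) := tabW1_get _ _ y hy
  have e3 : nth2 [] 8 T16 x = lsW 39828704876036225 8388608 50 S16 W16 (Nat.div (sgW 1 x) 8) (Nat.mod (sgW 1 x) 8) :=
    tabW1_get _ _ x hx
  have e4 : nth2 [] 8 T16 y = lsW 39828704876036225 8388608 50 S16 W16 (Nat.div (sgW 1 y) 8) (Nat.mod (sgW 1 y) 8) :=
    tabW1_get _ _ y hy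
  rw [e1, e2, e3, e4]
  exact blF_eq 39828704876036225 8388608 50 S16 7 W16 (by norm_num) z16 _ _ _ _

/-- The arrays of the pair `17`. -/
noncomputable def L17 : List O8 := bld W17 (nat_lit 7) []

/-- The blocks of the pair `17`. -/
noncomputable def G17 : List (List (List (List Nat))) :=
  tabW3 (fun h l => tabW3 (blF (nat_lit 39828704876036225) (nat_lit 8388608) S17 L17 h l))

theorem y17 : ∀ k < 6, W17 (50 + k) = 0 := by decide +kernel

theorem z17 : ∀ j, 50 ≤ j → j < 8 * 7 → W17 j = 0 := by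
  intro j h1 h2
  have h3 := y17 (j - 50) (by omega)
  rw [Nat.add_sub_cancel' h1] at h3
  exact h3

theorem g17 : ∀ x < 64, ∀ y < 64,
    nth2 0 8 (nth2 [] 8 G17 x) y = blL (nth2 [] 8 T17 x) (nth2 [] 8 T17 y) := by
  intro x hx y hy
  have e1 : nth2 [] 8 G17 x = tabW3 (blF 39828704876036225 8388608 S17 L17 (Nat.div (sgW 3 x) 8)
    (Nat.mod (sgW 3 x) 8)) := tabW3_get _ _ x hx
  have e2 : nth2 0 8 (tabW3 (blF 39828704876036225 8388608 S17 L17 (Nat.div (sgW 3 x) 8)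
    (Nat.mod (sgW 3 x) 8))) y = blF 39828704876036225 8388608 S17 L17 (Nat.div (sgW 3 x) 8)
    (Nat.mod (sgW 3 x) 8) (Nat.div (sgW 3 y) 8) (Nat.mod (sgW 3 y) 8) := tabW3_get _ _ y hy
  have e3 : nth2 [] 8 T17 x = lsW 39828704876036225 8388608 50 S17 W17 (Nat.div (sgW 3 x) 8) (Nat.mod (sgW 3 x) 8) :=
    tabW3_get _ _ x hx
  have e4 : nth2 [] 8 T17 y = lsW 39828704876036225 8388608 50 S17 W17 (Nat.div (sgW 3 y) 8) (Nat.mod (sgW 3 y) 8) :=
    tabW3_get _ _ y hy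
  rw [e1, e2, e3, e4]
  exact blF_eq 39828704876036225 8388608 50 S17 7 W17 (by norm_num) z17 _ _ _ _

/-- The arrays of the pair `18`. -/
noncomputable def L18 : List O8 := bld W18 (nat_lit 6) []

/-- The blocks of the pair `18`. -/
noncomputable def G18 : List (List (List (List Nat))) :=
  tabW0 (fun h l => tabW0 (blF (nat_lit 39617598643503233) (nat_lit 8388608) S18 L18 h l))

theorem y18 : ∀ k < 1, W18 (47 + k) = 0 := by decide +kernel

theorem z18 : ∀ j, 47 ≤ j → j < 8 * 6 → W18 j = 0 := by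
  intro j h1 h2
  have h3 := y18 (j - 47) (by omega)
  rw [Nat.add_sub_cancel' h1] at h3
  exact h3

theorem g18 : ∀ x < 64, ∀ y < 64,
    nth2 0 8 (nth2 [] 8 G18 x) y = blL (nth2 [] 8 T18 x) (nth2 [] 8 T18 y) := by
  intro x hx y hy
  have e1 : nth2 [] 8 G18 x = tabW0 (blF 39617598643503233 8388608 S18 L18 (Nat.div (sgW 0 x) 8)
    (Nat.mod (sgW 0 x) 8)) := tabW0_get _ _ x hx
  have e2 : nth2 0 8 (tabW0 (blF 39617598643503233 8388608 S18 L18 (Nat.div (sgW 0 x) 8)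
    (Nat.mod (sgW 0 x) 8))) y = blF 39617598643503233 8388608 S18 L18 (Nat.div (sgW 0 x) 8)
    (Nat.mod (sgW 0 x) 8) (Nat.div (sgW 0 y) 8) (Nat.mod (sgW 0 y) 8) := tabW0_get _ _ y hy
  have e3 : nth2 [] 8 T18 x = lsW 39617598643503233 8388608 47 S18 W18 (Nat.div (sgW 0 x) 8) (Nat.mod (sgW 0 x) 8) :=
    tabW0_get _ _ x hx
  have e4 : nth2 [] 8 T18 y = lsW 39617598643503233 8388608 47 S18 W18 (Nat.div (sgW 0 y) 8) (Nat.mod (sgW 0 y) 8) :=
    tabW0_get _ _ y hy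
  rw [e1, e2, e3, e4]
  exact blF_eq 39617598643503233 8388608 47 S18 6 W18 (by norm_num) z18 _ _ _ _

/-- The arrays of the pair `19`. -/
noncomputable def L19 : List O8 := bld W19 (nat_lit 6) []

/-- The blocks of the pair `19`. -/
noncomputable def G19 : List (List (List (List Nat))) :=
  tabW1 (fun h l => tabW1 (blF (nat_lit 39617598643503233) (nat_lit 8388608) S19 L19 h l))

theorem y19 : ∀ k < 1, W19 (47 + k) = 0 := by decide +kernel

theorem z19 : ∀ j, 47 ≤ j → j < 8 * 6 → W19 j = 0 := by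
  intro j h1 h2
  have h3 := y19 (j - 47) (by omega)
  rw [Nat.add_sub_cancel' h1] at h3
  exact h3

theorem g19 : ∀ x < 64, ∀ y < 64,
    nth2 0 8 (nth2 [] 8 G19 x) y = blL (nth2 [] 8 T19 x) (nth2 [] 8 T19 y) := by
  intro x hx y hy
  have e1 : nth2 [] 8 G19 x = tabW1 (blF 39617598643503233 8388608 S19 L19 (Nat.div (sgW 1 x) 8)
    (Nat.mod (sgW 1 x) 8)) := tabW1_get _ _ x hx
  have e2 : nth2 0 8 (tabW1 (blF 39617598643503233 8388608 S19 L19 (Nat.div (sgW 1 x) 8)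
    (Nat.mod (sgW 1 x) 8))) y = blF 39617598643503233 8388608 S19 L19 (Nat.div (sgW 1 x) 8)
    (Nat.mod (sgW 1 x) 8) (Nat.div (sgW 1 y) 8) (Nat.mod (sgW 1 y) 8) := tabW1_get _ _ y hy
  have e3 : nth2 [] 8 T19 x = lsW 39617598643503233 8388608 47 S19 W19 (Nat.div (sgW 1 x) 8) (Nat.mod (sgW 1 x) 8) :=
    tabW1_get _ _ x hx
  have e4 : nth2 [] 8 T19 y = lsW 39617598643503233 8388608 47 S19 W19 (Nat.div (sgW 1 y) 8) (Nat.mod (sgW 1 y) 8) :=
    tabW1_get _ _ y hy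
  rw [e1, e2, e3, e4]
  exact blF_eq 39617598643503233 8388608 47 S19 6 W19 (by norm_num) z19 _ _ _ _

/-- The arrays of the pair `20`. -/
noncomputable def L20 : List O8 := bld W20 (nat_lit 6) []

/-- The blocks of the pair `20`. -/
noncomputable def G20 : List (List (List (List Nat))) :=
  tabW2 (fun h l => tabW2 (blF (nat_lit 39617598643503233) (nat_lit 8388608) S20 L20 h l))

theorem y20 : ∀ k < 1, W20 (47 + k) = 0 := by decide +kernel

theorem z20 : ∀ j, 47 ≤ j → j < 8 * 6 → W20 j = 0 := by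
  intro j h1 h2
  have h3 := y20 (j - 47) (by omega)
  rw [Nat.add_sub_cancel' h1] at h3
  exact h3

theorem g20 : ∀ x < 64, ∀ y < 64,
    nth2 0 8 (nth2 [] 8 G20 x) y = blL (nth2 [] 8 T20 x) (nth2 [] 8 T20 y) := by
  intro x hx y hy
  have e1 : nth2 [] 8 G20 x = tabW2 (blF 39617598643503233 8388608 S20 L20 (Nat.div (sgW 2 x) 8)
    (Nat.mod (sgW 2 x) 8)) := tabW2_get _ _ x hx
  have e2 : nth2 0 8 (tabW2 (blF 39617598643503233 8388608 S20 L20 (Nat.div (sgW 2 x) 8)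
    (Nat.mod (sgW 2 x) 8))) y = blF 39617598643503233 8388608 S20 L20 (Nat.div (sgW 2 x) 8)
    (Nat.mod (sgW 2 x) 8) (Nat.div (sgW 2 y) 8) (Nat.mod (sgW 2 y) 8) := tabW2_get _ _ y hy
  have e3 : nth2 [] 8 T20 x = lsW 39617598643503233 8388608 47 S20 W20 (Nat.div (sgW 2 x) 8) (Nat.mod (sgW 2 x) 8) :=
    tabW2_get _ _ x hx
  have e4 : nth2 [] 8 T20 y = lsW 39617598643503233 8388608 47 S20 W20 (Nat.div (sgW 2 y) 8) (Nat.mod (sgW 2 y) 8) :=
    tabW2_get _ _ y hy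
  rw [e1, e2, e3, e4]
  exact blF_eq 39617598643503233 8388608 47 S20 6 W20 (by norm_num) z20 _ _ _ _

/-- The arrays of the pair `21`. -/
noncomputable def L21 : List O8 := bld W21 (nat_lit 6) []

/-- The blocks of the pair `21`. -/
noncomputable def G21 : List (List (List (List Nat))) :=
  tabW4 (fun h l => tabW4 (blF (nat_lit 39617598643503233) (nat_lit 8388608) S21 L21 h l))

theorem y21 : ∀ k < 1, W21 (47 + k) = 0 := by decide +kernel

theorem z21 : ∀ j, 47 ≤ j → j < 8 * 6 → W21 j = 0 := by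
  intro j h1 h2
  have h3 := y21 (j - 47) (by omega)
  rw [Nat.add_sub_cancel' h1] at h3
  exact h3

theorem g21 : ∀ x < 64, ∀ y < 64,
    nth2 0 8 (nth2 [] 8 G21 x) y = blL (nth2 [] 8 T21 x) (nth2 [] 8 T21 y) := by
  intro x hx y hy
  have e1 : nth2 [] 8 G21 x = tabW4 (blF 39617598643503233 8388608 S21 L21 (Nat.div (sgW 4 x) 8)
    (Nat.mod (sgW 4 x) 8)) := tabW4_get _ _ x hx
  have e2 : nth2 0 8 (tabW4 (blF 39617598643503233 8388608 S21 L21 (Nat.div (sgW 4 x) 8)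
    (Nat.mod (sgW 4 x) 8))) y = blF 39617598643503233 8388608 S21 L21 (Nat.div (sgW 4 x) 8)
    (Nat.mod (sgW 4 x) 8) (Nat.div (sgW 4 y) 8) (Nat.mod (sgW 4 y) 8) := tabW4_get _ _ y hy
  have e3 : nth2 [] 8 T21 x = lsW 39617598643503233 8388608 47 S21 W21 (Nat.div (sgW 4 x) 8) (Nat.mod (sgW 4 x) 8) :=
    tabW4_get _ _ x hx
  have e4 : nth2 [] 8 T21 y = lsW 39617598643503233 8388608 47 S21 W21 (Nat.div (sgW 4 y) 8) (Nat.mod (sgW 4 y) 8) :=
    tabW4_get _ _ y hy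
  rw [e1, e2, e3, e4]
  exact blF_eq 39617598643503233 8388608 47 S21 6 W21 (by norm_num) z21 _ _ _ _

/-- The arrays of the pair `22`. -/
noncomputable def L22 : List O8 := bld W22 (nat_lit 7) []

/-- The blocks of the pair `22`. -/
noncomputable def G22 : List (List (List (List Nat))) :=
  tabW0 (fun h l => tabW0 (blF (nat_lit 40110179852746881) (nat_lit 8388608) S22 L22 h l))

theorem y22 : ∀ k < 2, W22 (54 + k) = 0 := by decide +kernel

theorem z22 : ∀ j, 54 ≤ j → j < 8 * 7 → W22 j = 0 := by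
  intro j h1 h2
  have h3 := y22 (j - 54) (by omega)
  rw [Nat.add_sub_cancel' h1] at h3
  exact h3

theorem g22 : ∀ x < 64, ∀ y < 64,
    nth2 0 8 (nth2 [] 8 G22 x) y = blL (nth2 [] 8 T22 x) (nth2 [] 8 T22 y) := by
  intro x hx y hy
  have e1 : nth2 [] 8 G22 x = tabW0 (blF 40110179852746881 8388608 S22 L22 (Nat.div (sgW 0 x) 8)
    (Nat.mod (sgW 0 x) 8)) := tabW0_get _ _ x hx
  have e2 : nth2 0 8 (tabW0 (blF 40110179852746881 8388608 S22 L22 (Nat.div (sgW 0 x) 8)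
    (Nat.mod (sgW 0 x) 8))) y = blF 40110179852746881 8388608 S22 L22 (Nat.div (sgW 0 x) 8)
    (Nat.mod (sgW 0 x) 8) (Nat.div (sgW 0 y) 8) (Nat.mod (sgW 0 y) 8) := tabW0_get _ _ y hy
  have e3 : nth2 [] 8 T22 x = lsW 40110179852746881 8388608 54 S22 W22 (Nat.div (sgW 0 x) 8) (Nat.mod (sgW 0 x) 8) :=
    tabW0_get _ _ x hx
  have e4 : nth2 [] 8 T22 y = lsW 40110179852746881 8388608 54 S22 W22 (Nat.div (sgW 0 y) 8) (Nat.mod (sgW 0 y) 8) :=
    tabW0_get _ _ y hy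
  rw [e1, e2, e3, e4]
  exact blF_eq 40110179852746881 8388608 54 S22 7 W22 (by norm_num) z22 _ _ _ _

/-- The arrays of the pair `23`. -/
noncomputable def L23 : List O8 := bld W23 (nat_lit 7) []

/-- The blocks of the pair `23`. -/
noncomputable def G23 : List (List (List (List Nat))) :=
  tabW2 (fun h l => tabW2 (blF (nat_lit 40110179852746881) (nat_lit 8388608) S23 L23 h l))

theorem y23 : ∀ k < 2, W23 (54 + k) = 0 := by decide +kernel

theorem z23 : ∀ j, 54 ≤ j → j < 8 * 7 → W23 j = 0 := by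
  intro j h1 h2
  have h3 := y23 (j - 54) (by omega)
  rw [Nat.add_sub_cancel' h1] at h3
  exact h3

theorem g23 : ∀ x < 64, ∀ y < 64,
    nth2 0 8 (nth2 [] 8 G23 x) y = blL (nth2 [] 8 T23 x) (nth2 [] 8 T23 y) := by
  intro x hx y hy
  have e1 : nth2 [] 8 G23 x = tabW2 (blF 40110179852746881 8388608 S23 L23 (Nat.div (sgW 2 x) 8)
    (Nat.mod (sgW 2 x) 8)) := tabW2_get _ _ x hx
  have e2 : nth2 0 8 (tabW2 (blF 40110179852746881 8388608 S23 L23 (Nat.div (sgW 2 x) 8)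
    (Nat.mod (sgW 2 x) 8))) y = blF 40110179852746881 8388608 S23 L23 (Nat.div (sgW 2 x) 8)
    (Nat.mod (sgW 2 x) 8) (Nat.div (sgW 2 y) 8) (Nat.mod (sgW 2 y) 8) := tabW2_get _ _ y hy
  have e3 : nth2 [] 8 T23 x = lsW 40110179852746881 8388608 54 S23 W23 (Nat.div (sgW 2 x) 8) (Nat.mod (sgW 2 x) 8) :=
    tabW2_get _ _ x hx
  have e4 : nth2 [] 8 T23 y = lsW 40110179852746881 8388608 54 S23 W23 (Nat.div (sgW 2 y) 8) (Nat.mod (sgW 2 y) 8) :=
    tabW2_get _ _ y hy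
  rw [e1, e2, e3, e4]
  exact blF_eq 40110179852746881 8388608 54 S23 7 W23 (by norm_num) z23 _ _ _ _

/-- The arrays of the pair `24`. -/
noncomputable def L24 : List O8 := bld W24 (nat_lit 7) []

/-- The blocks of the pair `24`. -/
noncomputable def G24 : List (List (List (List Nat))) :=
  tabW4 (fun h l => tabW4 (blF (nat_lit 40110179852746881) (nat_lit 8388608) S24 L24 h l))

theorem y24 : ∀ k < 2, W24 (54 + k) = 0 := by decide +kernel

theorem z24 : ∀ j, 54 ≤ j → j < 8 * 7 → W24 j = 0 := by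
  intro j h1 h2
  have h3 := y24 (j - 54) (by omega)
  rw [Nat.add_sub_cancel' h1] at h3
  exact h3

theorem g24 : ∀ x < 64, ∀ y < 64,
    nth2 0 8 (nth2 [] 8 G24 x) y = blL (nth2 [] 8 T24 x) (nth2 [] 8 T24 y) := by
  intro x hx y hy
  have e1 : nth2 [] 8 G24 x = tabW4 (blF 40110179852746881 8388608 S24 L24 (Nat.div (sgW 4 x) 8)
    (Nat.mod (sgW 4 x) 8)) := tabW4_get _ _ x hx
  have e2 : nth2 0 8 (tabW4 (blF 40110179852746881 8388608 S24 L24 (Nat.div (sgW 4 x) 8)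
    (Nat.mod (sgW 4 x) 8))) y = blF 40110179852746881 8388608 S24 L24 (Nat.div (sgW 4 x) 8)
    (Nat.mod (sgW 4 x) 8) (Nat.div (sgW 4 y) 8) (Nat.mod (sgW 4 y) 8) := tabW4_get _ _ y hy
  have e3 : nth2 [] 8 T24 x = lsW 40110179852746881 8388608 54 S24 W24 (Nat.div (sgW 4 x) 8) (Nat.mod (sgW 4 x) 8) :=
    tabW4_get _ _ x hx
  have e4 : nth2 [] 8 T24 y = lsW 40110179852746881 8388608 54 S24 W24 (Nat.div (sgW 4 y) 8) (Nat.mod (sgW 4 y) 8) :=
    tabW4_get _ _ y hy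
  rw [e1, e2, e3, e4]
  exact blF_eq 40110179852746881 8388608 54 S24 7 W24 (by norm_num) z24 _ _ _ _

/-- The arrays of the pair `25`. -/
noncomputable def L25 : List O8 := bld W25 (nat_lit 6) []

/-- The blocks of the pair `25`. -/
noncomputable def G25 : List (List (List (List Nat))) :=
  tabW0 (fun h l => tabW0 (blF (nat_lit 39617598643503233) (nat_lit 8388608) S25 L25 h l))

theorem y25 : ∀ k < 1, W25 (47 + k) = 0 := by decide +kernel

theorem z25 : ∀ j, 47 ≤ j → j < 8 * 6 → W25 j = 0 := by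
  intro j h1 h2
  have h3 := y25 (j - 47) (by omega)
  rw [Nat.add_sub_cancel' h1] at h3
  exact h3

theorem g25 : ∀ x < 64, ∀ y < 64,
    nth2 0 8 (nth2 [] 8 G25 x) y = blL (nth2 [] 8 T25 x) (nth2 [] 8 T25 y) := by
  intro x hx y hy
  have e1 : nth2 [] 8 G25 x = tabW0 (blF 39617598643503233 8388608 S25 L25 (Nat.div (sgW 0 x) 8)
    (Nat.mod (sgW 0 x) 8)) := tabW0_get _ _ x hx
  have e2 : nth2 0 8 (tabW0 (blF 39617598643503233 8388608 S25 L25 (Nat.div (sgW 0 x) 8)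
    (Nat.mod (sgW 0 x) 8))) y = blF 39617598643503233 8388608 S25 L25 (Nat.div (sgW 0 x) 8)
    (Nat.mod (sgW 0 x) 8) (Nat.div (sgW 0 y) 8) (Nat.mod (sgW 0 y) 8) := tabW0_get _ _ y hy
  have e3 : nth2 [] 8 T25 x = lsW 39617598643503233 8388608 47 S25 W25 (Nat.div (sgW 0 x) 8) (Nat.mod (sgW 0 x) 8) :=
    tabW0_get _ _ x hx
  have e4 : nth2 [] 8 T25 y = lsW 39617598643503233 8388608 47 S25 W25 (Nat.div (sgW 0 y) 8) (Nat.mod (sgW 0 y) 8) :=
    tabW0_get _ _ y hy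
  rw [e1, e2, e3, e4]
  exact blF_eq 39617598643503233 8388608 47 S25 6 W25 (by norm_num) z25 _ _ _ _

/-- The arrays of the pair `26`. -/
noncomputable def L26 : List O8 := bld W26 (nat_lit 6) []

/-- The blocks of the pair `26`. -/
noncomputable def G26 : List (List (List (List Nat))) :=
  tabW2 (fun h l => tabW2 (blF (nat_lit 39617598643503233) (nat_lit 8388608) S26 L26 h l))

theorem y26 : ∀ k < 1, W26 (47 + k) = 0 := by decide +kernel

theorem z26 : ∀ j, 47 ≤ j → j < 8 * 6 → W26 j = 0 := by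
  intro j h1 h2
  have h3 := y26 (j - 47) (by omega)
  rw [Nat.add_sub_cancel' h1] at h3
  exact h3

theorem g26 : ∀ x < 64, ∀ y < 64,
    nth2 0 8 (nth2 [] 8 G26 x) y = blL (nth2 [] 8 T26 x) (nth2 [] 8 T26 y) := by
  intro x hx y hy
  have e1 : nth2 [] 8 G26 x = tabW2 (blF 39617598643503233 8388608 S26 L26 (Nat.div (sgW 2 x) 8)
    (Nat.mod (sgW 2 x) 8)) := tabW2_get _ _ x hx
  have e2 : nth2 0 8 (tabW2 (blF 39617598643503233 8388608 S26 L26 (Nat.div (sgW 2 x) 8)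
    (Nat.mod (sgW 2 x) 8))) y = blF 39617598643503233 8388608 S26 L26 (Nat.div (sgW 2 x) 8)
    (Nat.mod (sgW 2 x) 8) (Nat.div (sgW 2 y) 8) (Nat.mod (sgW 2 y) 8) := tabW2_get _ _ y hy
  have e3 : nth2 [] 8 T26 x = lsW 39617598643503233 8388608 47 S26 W26 (Nat.div (sgW 2 x) 8) (Nat.mod (sgW 2 x) 8) :=
    tabW2_get _ _ x hx
  have e4 : nth2 [] 8 T26 y = lsW 39617598643503233 8388608 47 S26 W26 (Nat.div (sgW 2 y) 8) (Nat.mod (sgW 2 y) 8) :=
    tabW2_get _ _ y hy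
  rw [e1, e2, e3, e4]
  exact blF_eq 39617598643503233 8388608 47 S26 6 W26 (by norm_num) z26 _ _ _ _

/-- The arrays of the pair `27`. -/
noncomputable def L27 : List O8 := bld W27 (nat_lit 6) []

/-- The blocks of the pair `27`. -/
noncomputable def G27 : List (List (List (List Nat))) :=
  tabW3 (fun h l => tabW3 (blF (nat_lit 39617598643503233) (nat_lit 8388608) S27 L27 h l))

theorem y27 : ∀ k < 1, W27 (47 + k) = 0 := by decide +kernel

theorem z27 : ∀ j, 47 ≤ j → j < 8 * 6 → W27 j = 0 := by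
  intro j h1 h2
  have h3 := y27 (j - 47) (by omega)
  rw [Nat.add_sub_cancel' h1] at h3
  exact h3

theorem g27 : ∀ x < 64, ∀ y < 64,
    nth2 0 8 (nth2 [] 8 G27 x) y = blL (nth2 [] 8 T27 x) (nth2 [] 8 T27 y) := by
  intro x hx y hy
  have e1 : nth2 [] 8 G27 x = tabW3 (blF 39617598643503233 8388608 S27 L27 (Nat.div (sgW 3 x) 8)
    (Nat.mod (sgW 3 x) 8)) := tabW3_get _ _ x hx
  have e2 : nth2 0 8 (tabW3 (blF 39617598643503233 8388608 S27 L27 (Nat.div (sgW 3 x) 8)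
    (Nat.mod (sgW 3 x) 8))) y = blF 39617598643503233 8388608 S27 L27 (Nat.div (sgW 3 x) 8)
    (Nat.mod (sgW 3 x) 8) (Nat.div (sgW 3 y) 8) (Nat.mod (sgW 3 y) 8) := tabW3_get _ _ y hy
  have e3 : nth2 [] 8 T27 x = lsW 39617598643503233 8388608 47 S27 W27 (Nat.div (sgW 3 x) 8) (Nat.mod (sgW 3 x) 8) :=
    tabW3_get _ _ x hx
  have e4 : nth2 [] 8 T27 y = lsW 39617598643503233 8388608 47 S27 W27 (Nat.div (sgW 3 y) 8) (Nat.mod (sgW 3 y) 8) :=
    tabW3_get _ _ y hy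
  rw [e1, e2, e3, e4]
  exact blF_eq 39617598643503233 8388608 47 S27 6 W27 (by norm_num) z27 _ _ _ _

/-- The arrays of the pair `28`. -/
noncomputable def L28 : List O8 := bld W28 (nat_lit 6) []

/-- The blocks of the pair `28`. -/
noncomputable def G28 : List (List (List (List Nat))) :=
  tabW4 (fun h l => tabW4 (blF (nat_lit 39617598643503233) (nat_lit 8388608) S28 L28 h l))

theorem y28 : ∀ k < 1, W28 (47 + k) = 0 := by decide +kernel

theorem z28 : ∀ j, 47 ≤ j → j < 8 * 6 → W28 j = 0 := by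
  intro j h1 h2
  have h3 := y28 (j - 47) (by omega)
  rw [Nat.add_sub_cancel' h1] at h3
  exact h3

theorem g28 : ∀ x < 64, ∀ y < 64,
    nth2 0 8 (nth2 [] 8 G28 x) y = blL (nth2 [] 8 T28 x) (nth2 [] 8 T28 y) := by
  intro x hx y hy
  have e1 : nth2 [] 8 G28 x = tabW4 (blF 39617598643503233 8388608 S28 L28 (Nat.div (sgW 4 x) 8)
    (Nat.mod (sgW 4 x) 8)) := tabW4_get _ _ x hx
  have e2 : nth2 0 8 (tabW4 (blF 39617598643503233 8388608 S28 L28 (Nat.div (sgW 4 x) 8)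
    (Nat.mod (sgW 4 x) 8))) y = blF 39617598643503233 8388608 S28 L28 (Nat.div (sgW 4 x) 8)
    (Nat.mod (sgW 4 x) 8) (Nat.div (sgW 4 y) 8) (Nat.mod (sgW 4 y) 8) := tabW4_get _ _ y hy
  have e3 : nth2 [] 8 T28 x = lsW 39617598643503233 8388608 47 S28 W28 (Nat.div (sgW 4 x) 8) (Nat.mod (sgW 4 x) 8) :=
    tabW4_get _ _ x hx
  have e4 : nth2 [] 8 T28 y = lsW 39617598643503233 8388608 47 S28 W28 (Nat.div (sgW 4 y) 8) (Nat.mod (sgW 4 y) 8) :=
    tabW4_get _ _ y hy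
  rw [e1, e2, e3, e4]
  exact blF_eq 39617598643503233 8388608 47 S28 6 W28 (by norm_num) z28 _ _ _ _

/-- The arrays of the pair `29`. -/
noncomputable def L29 : List O8 := bld W29 (nat_lit 8) []

/-- The blocks of the pair `29`. -/
noncomputable def G29 : List (List (List (List Nat))) :=
  tabW0 (fun h l => tabW0 (blF (nat_lit 40673129806168193) (nat_lit 8388608) S29 L29 h l))

theorem y29 : ∀ k < 2, W29 (62 + k) = 0 := by decide +kernel

theorem z29 : ∀ j, 62 ≤ j → j < 8 * 8 → W29 j = 0 := by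
  intro j h1 h2
  have h3 := y29 (j - 62) (by omega)
  rw [Nat.add_sub_cancel' h1] at h3
  exact h3

theorem g29 : ∀ x < 64, ∀ y < 64,
    nth2 0 8 (nth2 [] 8 G29 x) y = blL (nth2 [] 8 T29 x) (nth2 [] 8 T29 y) := by
  intro x hx y hy
  have e1 : nth2 [] 8 G29 x = tabW0 (blF 40673129806168193 8388608 S29 L29 (Nat.div (sgW 0 x) 8)
    (Nat.mod (sgW 0 x) 8)) := tabW0_get _ _ x hx
  have e2 : nth2 0 8 (tabW0 (blF 40673129806168193 8388608 S29 L29 (Nat.div (sgW 0 x) 8)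
    (Nat.mod (sgW 0 x) 8))) y = blF 40673129806168193 8388608 S29 L29 (Nat.div (sgW 0 x) 8)
    (Nat.mod (sgW 0 x) 8) (Nat.div (sgW 0 y) 8) (Nat.mod (sgW 0 y) 8) := tabW0_get _ _ y hy
  have e3 : nth2 [] 8 T29 x = lsW 40673129806168193 8388608 62 S29 W29 (Nat.div (sgW 0 x) 8) (Nat.mod (sgW 0 x) 8) :=
    tabW0_get _ _ x hx
  have e4 : nth2 [] 8 T29 y = lsW 40673129806168193 8388608 62 S29 W29 (Nat.div (sgW 0 y) 8) (Nat.mod (sgW 0 y) 8) :=
    tabW0_get _ _ y hy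
  rw [e1, e2, e3, e4]
  exact blF_eq 40673129806168193 8388608 62 S29 8 W29 (by norm_num) z29 _ _ _ _

/-- The arrays of the pair `30`. -/
noncomputable def L30 : List O8 := bld W30 (nat_lit 8) []

/-- The blocks of the pair `30`. -/
noncomputable def G30 : List (List (List (List Nat))) :=
  tabW2 (fun h l => tabW2 (blF (nat_lit 40673129806168193) (nat_lit 8388608) S30 L30 h l))

theorem y30 : ∀ k < 2, W30 (62 + k) = 0 := by decide +kernel

theorem z30 : ∀ j, 62 ≤ j → j < 8 * 8 → W30 j = 0 := by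
  intro j h1 h2
  have h3 := y30 (j - 62) (by omega)
  rw [Nat.add_sub_cancel' h1] at h3
  exact h3

theorem g30 : ∀ x < 64, ∀ y < 64,
    nth2 0 8 (nth2 [] 8 G30 x) y = blL (nth2 [] 8 T30 x) (nth2 [] 8 T30 y) := by
  intro x hx y hy
  have e1 : nth2 [] 8 G30 x = tabW2 (blF 40673129806168193 8388608 S30 L30 (Nat.div (sgW 2 x) 8)
    (Nat.mod (sgW 2 x) 8)) := tabW2_get _ _ x hx
  have e2 : nth2 0 8 (tabW2 (blF 40673129806168193 8388608 S30 L30 (Nat.div (sgW 2 x) 8)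
    (Nat.mod (sgW 2 x) 8))) y = blF 40673129806168193 8388608 S30 L30 (Nat.div (sgW 2 x) 8)
    (Nat.mod (sgW 2 x) 8) (Nat.div (sgW 2 y) 8) (Nat.mod (sgW 2 y) 8) := tabW2_get _ _ y hy
  have e3 : nth2 [] 8 T30 x = lsW 40673129806168193 8388608 62 S30 W30 (Nat.div (sgW 2 x) 8) (Nat.mod (sgW 2 x) 8) :=
    tabW2_get _ _ x hx
  have e4 : nth2 [] 8 T30 y = lsW 40673129806168193 8388608 62 S30 W30 (Nat.div (sgW 2 y) 8) (Nat.mod (sgW 2 y) 8) :=
    tabW2_get _ _ y hy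
  rw [e1, e2, e3, e4]
  exact blF_eq 40673129806168193 8388608 62 S30 8 W30 (by norm_num) z30 _ _ _ _

/-- The arrays of the pair `31`. -/
noncomputable def L31 : List O8 := bld W31 (nat_lit 8) []

/-- The blocks of the pair `31`. -/
noncomputable def G31 : List (List (List (List Nat))) :=
  tabW4 (fun h l => tabW4 (blF (nat_lit 40673129806168193) (nat_lit 8388608) S31 L31 h l))

theorem y31 : ∀ k < 2, W31 (62 + k) = 0 := by decide +kernel

theorem z31 : ∀ j, 62 ≤ j → j < 8 * 8 → W31 j = 0 := by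
  intro j h1 h2
  have h3 := y31 (j - 62) (by omega)
  rw [Nat.add_sub_cancel' h1] at h3
  exact h3

theorem g31 : ∀ x < 64, ∀ y < 64,
    nth2 0 8 (nth2 [] 8 G31 x) y = blL (nth2 [] 8 T31 x) (nth2 [] 8 T31 y) := by
  intro x hx y hy
  have e1 : nth2 [] 8 G31 x = tabW4 (blF 40673129806168193 8388608 S31 L31 (Nat.div (sgW 4 x) 8)
    (Nat.mod (sgW 4 x) 8)) := tabW4_get _ _ x hx
  have e2 : nth2 0 8 (tabW4 (blF 40673129806168193 8388608 S31 L31 (Nat.div (sgW 4 x) 8)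
    (Nat.mod (sgW 4 x) 8))) y = blF 40673129806168193 8388608 S31 L31 (Nat.div (sgW 4 x) 8)
    (Nat.mod (sgW 4 x) 8) (Nat.div (sgW 4 y) 8) (Nat.mod (sgW 4 y) 8) := tabW4_get _ _ y hy
  have e3 : nth2 [] 8 T31 x = lsW 40673129806168193 8388608 62 S31 W31 (Nat.div (sgW 4 x) 8) (Nat.mod (sgW 4 x) 8) :=
    tabW4_get _ _ x hx
  have e4 : nth2 [] 8 T31 y = lsW 40673129806168193 8388608 62 S31 W31 (Nat.div (sgW 4 y) 8) (Nat.mod (sgW 4 y) 8) :=
    tabW4_get _ _ y hy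
  rw [e1, e2, e3, e4]
  exact blF_eq 40673129806168193 8388608 62 S31 8 W31 (by norm_num) z31 _ _ _ _

/-- The arrays of the pair `32`. -/
noncomputable def L32 : List O8 := bld W32 (nat_lit 10) []

/-- The blocks of the pair `32`. -/
noncomputable def G32 : List (List (List (List Nat))) :=
  tabW0 (fun h l => tabW0 (blF (nat_lit 41587923480477825) (nat_lit 8388608) S32 L32 h l))

theorem y32 : ∀ k < 5, W32 (75 + k) = 0 := by decide +kernel

theorem z32 : ∀ j, 75 ≤ j → j < 8 * 10 → W32 j = 0 := by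
  intro j h1 h2
  have h3 := y32 (j - 75) (by omega)
  rw [Nat.add_sub_cancel' h1] at h3
  exact h3

theorem g32 : ∀ x < 64, ∀ y < 64,
    nth2 0 8 (nth2 [] 8 G32 x) y = blL (nth2 [] 8 T32 x) (nth2 [] 8 T32 y) := by
  intro x hx y hy
  have e1 : nth2 [] 8 G32 x = tabW0 (blF 41587923480477825 8388608 S32 L32 (Nat.div (sgW 0 x) 8)
    (Nat.mod (sgW 0 x) 8)) := tabW0_get _ _ x hx
  have e2 : nth2 0 8 (tabW0 (blF 41587923480477825 8388608 S32 L32 (Nat.div (sgW 0 x) 8)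
    (Nat.mod (sgW 0 x) 8))) y = blF 41587923480477825 8388608 S32 L32 (Nat.div (sgW 0 x) 8)
    (Nat.mod (sgW 0 x) 8) (Nat.div (sgW 0 y) 8) (Nat.mod (sgW 0 y) 8) := tabW0_get _ _ y hy
  have e3 : nth2 [] 8 T32 x = lsW 41587923480477825 8388608 75 S32 W32 (Nat.div (sgW 0 x) 8) (Nat.mod (sgW 0 x) 8) :=
    tabW0_get _ _ x hx
  have e4 : nth2 [] 8 T32 y = lsW 41587923480477825 8388608 75 S32 W32 (Nat.div (sgW 0 y) 8) (Nat.mod (sgW 0 y) 8) :=
    tabW0_get _ _ y hy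
  rw [e1, e2, e3, e4]
  exact blF_eq 41587923480477825 8388608 75 S32 10 W32 (by norm_num) z32 _ _ _ _

/-- The arrays of the pair `33`. -/
noncomputable def L33 : List O8 := bld W33 (nat_lit 10) []

/-- The blocks of the pair `33`. -/
noncomputable def G33 : List (List (List (List Nat))) :=
  tabW1 (fun h l => tabW1 (blF (nat_lit 41587923480477825) (nat_lit 8388608) S33 L33 h l))

theorem y33 : ∀ k < 5, W33 (75 + k) = 0 := by decide +kernel

theorem z33 : ∀ j, 75 ≤ j → j < 8 * 10 → W33 j = 0 := by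
  intro j h1 h2
  have h3 := y33 (j - 75) (by omega)
  rw [Nat.add_sub_cancel' h1] at h3
  exact h3

theorem g33 : ∀ x < 64, ∀ y < 64,
    nth2 0 8 (nth2 [] 8 G33 x) y = blL (nth2 [] 8 T33 x) (nth2 [] 8 T33 y) := by
  intro x hx y hy
  have e1 : nth2 [] 8 G33 x = tabW1 (blF 41587923480477825 8388608 S33 L33 (Nat.div (sgW 1 x) 8)
    (Nat.mod (sgW 1 x) 8)) := tabW1_get _ _ x hx
  have e2 : nth2 0 8 (tabW1 (blF 41587923480477825 8388608 S33 L33 (Nat.div (sgW 1 x) 8)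
    (Nat.mod (sgW 1 x) 8))) y = blF 41587923480477825 8388608 S33 L33 (Nat.div (sgW 1 x) 8)
    (Nat.mod (sgW 1 x) 8) (Nat.div (sgW 1 y) 8) (Nat.mod (sgW 1 y) 8) := tabW1_get _ _ y hy
  have e3 : nth2 [] 8 T33 x = lsW 41587923480477825 8388608 75 S33 W33 (Nat.div (sgW 1 x) 8) (Nat.mod (sgW 1 x) 8) :=
    tabW1_get _ _ x hx
  have e4 : nth2 [] 8 T33 y = lsW 41587923480477825 8388608 75 S33 W33 (Nat.div (sgW 1 y) 8) (Nat.mod (sgW 1 y) 8) :=
    tabW1_get _ _ y hy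
  rw [e1, e2, e3, e4]
  exact blF_eq 41587923480477825 8388608 75 S33 10 W33 (by norm_num) z33 _ _ _ _

/-- The arrays of the pair `34`. -/
noncomputable def L34 : List O8 := bld W34 (nat_lit 9) []

/-- The blocks of the pair `34`. -/
noncomputable def G34 : List (List (List (List Nat))) :=
  tabW0 (fun h l => tabW0 (blF (nat_lit 41236079759589505) (nat_lit 8388608) S34 L34 h l))

theorem y34 : ∀ k < 2, W34 (70 + k) = 0 := by decide +kernel

theorem z34 : ∀ j, 70 ≤ j → j < 8 * 9 → W34 j = 0 := by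
  intro j h1 h2
  have h3 := y34 (j - 70) (by omega)
  rw [Nat.add_sub_cancel' h1] at h3
  exact h3

theorem g34 : ∀ x < 64, ∀ y < 64,
    nth2 0 8 (nth2 [] 8 G34 x) y = blL (nth2 [] 8 T34 x) (nth2 [] 8 T34 y) := by
  intro x hx y hy
  have e1 : nth2 [] 8 G34 x = tabW0 (blF 41236079759589505 8388608 S34 L34 (Nat.div (sgW 0 x) 8)
    (Nat.mod (sgW 0 x) 8)) := tabW0_get _ _ x hx
  have e2 : nth2 0 8 (tabW0 (blF 41236079759589505 8388608 S34 L34 (Nat.div (sgW 0 x) 8)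
    (Nat.mod (sgW 0 x) 8))) y = blF 41236079759589505 8388608 S34 L34 (Nat.div (sgW 0 x) 8)
    (Nat.mod (sgW 0 x) 8) (Nat.div (sgW 0 y) 8) (Nat.mod (sgW 0 y) 8) := tabW0_get _ _ y hy
  have e3 : nth2 [] 8 T34 x = lsW 41236079759589505 8388608 70 S34 W34 (Nat.div (sgW 0 x) 8) (Nat.mod (sgW 0 x) 8) :=
    tabW0_get _ _ x hx
  have e4 : nth2 [] 8 T34 y = lsW 41236079759589505 8388608 70 S34 W34 (Nat.div (sgW 0 y) 8) (Nat.mod (sgW 0 y) 8) :=
    tabW0_get _ _ y hy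
  rw [e1, e2, e3, e4]
  exact blF_eq 41236079759589505 8388608 70 S34 9 W34 (by norm_num) z34 _ _ _ _

/-- The arrays of the pair `35`. -/
noncomputable def L35 : List O8 := bld W35 (nat_lit 9) []

/-- The blocks of the pair `35`. -/
noncomputable def G35 : List (List (List (List Nat))) :=
  tabW1 (fun h l => tabW1 (blF (nat_lit 41236079759589505) (nat_lit 8388608) S35 L35 h l))

theorem y35 : ∀ k < 2, W35 (70 + k) = 0 := by decide +kernel

theorem z35 : ∀ j, 70 ≤ j → j < 8 * 9 → W35 j = 0 := by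
  intro j h1 h2
  have h3 := y35 (j - 70) (by omega)
  rw [Nat.add_sub_cancel' h1] at h3
  exact h3

theorem g35 : ∀ x < 64, ∀ y < 64,
    nth2 0 8 (nth2 [] 8 G35 x) y = blL (nth2 [] 8 T35 x) (nth2 [] 8 T35 y) := by
  intro x hx y hy
  have e1 : nth2 [] 8 G35 x = tabW1 (blF 41236079759589505 8388608 S35 L35 (Nat.div (sgW 1 x) 8)
    (Nat.mod (sgW 1 x) 8)) := tabW1_get _ _ x hx
  have e2 : nth2 0 8 (tabW1 (blF 41236079759589505 8388608 S35 L35 (Nat.div (sgW 1 x) 8)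
    (Nat.mod (sgW 1 x) 8))) y = blF 41236079759589505 8388608 S35 L35 (Nat.div (sgW 1 x) 8)
    (Nat.mod (sgW 1 x) 8) (Nat.div (sgW 1 y) 8) (Nat.mod (sgW 1 y) 8) := tabW1_get _ _ y hy
  have e3 : nth2 [] 8 T35 x = lsW 41236079759589505 8388608 70 S35 W35 (Nat.div (sgW 1 x) 8) (Nat.mod (sgW 1 x) 8) :=
    tabW1_get _ _ x hx
  have e4 : nth2 [] 8 T35 y = lsW 41236079759589505 8388608 70 S35 W35 (Nat.div (sgW 1 y) 8) (Nat.mod (sgW 1 y) 8) :=
    tabW1_get _ _ y hy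
  rw [e1, e2, e3, e4]
  exact blF_eq 41236079759589505 8388608 70 S35 9 W35 (by norm_num) z35 _ _ _ _

/-- The arrays of the pair `36`. -/
noncomputable def L36 : List O8 := bld W36 (nat_lit 9) []

/-- The blocks of the pair `36`. -/
noncomputable def G36 : List (List (List (List Nat))) :=
  tabW3 (fun h l => tabW3 (blF (nat_lit 41236079759589505) (nat_lit 8388608) S36 L36 h l))

theorem y36 : ∀ k < 2, W36 (70 + k) = 0 := by decide +kernel

theorem z36 : ∀ j, 70 ≤ j → j < 8 * 9 → W36 j = 0 := by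
  intro j h1 h2
  have h3 := y36 (j - 70) (by omega)
  rw [Nat.add_sub_cancel' h1] at h3
  exact h3

theorem g36 : ∀ x < 64, ∀ y < 64,
    nth2 0 8 (nth2 [] 8 G36 x) y = blL (nth2 [] 8 T36 x) (nth2 [] 8 T36 y) := by
  intro x hx y hy
  have e1 : nth2 [] 8 G36 x = tabW3 (blF 41236079759589505 8388608 S36 L36 (Nat.div (sgW 3 x) 8)
    (Nat.mod (sgW 3 x) 8)) := tabW3_get _ _ x hx
  have e2 : nth2 0 8 (tabW3 (blF 41236079759589505 8388608 S36 L36 (Nat.div (sgW 3 x) 8)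
    (Nat.mod (sgW 3 x) 8))) y = blF 41236079759589505 8388608 S36 L36 (Nat.div (sgW 3 x) 8)
    (Nat.mod (sgW 3 x) 8) (Nat.div (sgW 3 y) 8) (Nat.mod (sgW 3 y) 8) := tabW3_get _ _ y hy
  have e3 : nth2 [] 8 T36 x = lsW 41236079759589505 8388608 70 S36 W36 (Nat.div (sgW 3 x) 8) (Nat.mod (sgW 3 x) 8) :=
    tabW3_get _ _ x hx
  have e4 : nth2 [] 8 T36 y = lsW 41236079759589505 8388608 70 S36 W36 (Nat.div (sgW 3 y) 8) (Nat.mod (sgW 3 y) 8) :=
    tabW3_get _ _ y hy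
  rw [e1, e2, e3, e4]
  exact blF_eq 41236079759589505 8388608 70 S36 9 W36 (by norm_num) z36 _ _ _ _

/-- The arrays of the pair `37`. -/
noncomputable def L37 : List O8 := bld W37 (nat_lit 6) []

/-- The blocks of the pair `37`. -/
noncomputable def G37 : List (List (List (List Nat))) :=
  tabW0 (fun h l => tabW0 (blF (nat_lit 39547229899325569) (nat_lit 8388608) S37 L37 h l))

theorem y37 : ∀ k < 2, W37 (46 + k) = 0 := by decide +kernel

theorem z37 : ∀ j, 46 ≤ j → j < 8 * 6 → W37 j = 0 := by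
  intro j h1 h2
  have h3 := y37 (j - 46) (by omega)
  rw [Nat.add_sub_cancel' h1] at h3
  exact h3

theorem g37 : ∀ x < 64, ∀ y < 64,
    nth2 0 8 (nth2 [] 8 G37 x) y = blL (nth2 [] 8 T37 x) (nth2 [] 8 T37 y) := by
  intro x hx y hy
  have e1 : nth2 [] 8 G37 x = tabW0 (blF 39547229899325569 8388608 S37 L37 (Nat.div (sgW 0 x) 8)
    (Nat.mod (sgW 0 x) 8)) := tabW0_get _ _ x hx
  have e2 : nth2 0 8 (tabW0 (blF 39547229899325569 8388608 S37 L37 (Nat.div (sgW 0 x) 8)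
    (Nat.mod (sgW 0 x) 8))) y = blF 39547229899325569 8388608 S37 L37 (Nat.div (sgW 0 x) 8)
    (Nat.mod (sgW 0 x) 8) (Nat.div (sgW 0 y) 8) (Nat.mod (sgW 0 y) 8) := tabW0_get _ _ y hy
  have e3 : nth2 [] 8 T37 x = lsW 39547229899325569 8388608 46 S37 W37 (Nat.div (sgW 0 x) 8) (Nat.mod (sgW 0 x) 8) :=
    tabW0_get _ _ x hx
  have e4 : nth2 [] 8 T37 y = lsW 39547229899325569 8388608 46 S37 W37 (Nat.div (sgW 0 y) 8) (Nat.mod (sgW 0 y) 8) :=
    tabW0_get _ _ y hy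
  rw [e1, e2, e3, e4]
  exact blF_eq 39547229899325569 8388608 46 S37 6 W37 (by norm_num) z37 _ _ _ _

/-- The arrays of the pair `38`. -/
noncomputable def L38 : List O8 := bld W38 (nat_lit 6) []

/-- The blocks of the pair `38`. -/
noncomputable def G38 : List (List (List (List Nat))) :=
  tabW2 (fun h l => tabW2 (blF (nat_lit 39547229899325569) (nat_lit 8388608) S38 L38 h l))

theorem y38 : ∀ k < 2, W38 (46 + k) = 0 := by decide +kernel

theorem z38 : ∀ j, 46 ≤ j → j < 8 * 6 → W38 j = 0 := by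
  intro j h1 h2
  have h3 := y38 (j - 46) (by omega)
  rw [Nat.add_sub_cancel' h1] at h3
  exact h3

theorem g38 : ∀ x < 64, ∀ y < 64,
    nth2 0 8 (nth2 [] 8 G38 x) y = blL (nth2 [] 8 T38 x) (nth2 [] 8 T38 y) := by
  intro x hx y hy
  have e1 : nth2 [] 8 G38 x = tabW2 (blF 39547229899325569 8388608 S38 L38 (Nat.div (sgW 2 x) 8)
    (Nat.mod (sgW 2 x) 8)) := tabW2_get _ _ x hx
  have e2 : nth2 0 8 (tabW2 (blF 39547229899325569 8388608 S38 L38 (Nat.div (sgW 2 x) 8)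
    (Nat.mod (sgW 2 x) 8))) y = blF 39547229899325569 8388608 S38 L38 (Nat.div (sgW 2 x) 8)
    (Nat.mod (sgW 2 x) 8) (Nat.div (sgW 2 y) 8) (Nat.mod (sgW 2 y) 8) := tabW2_get _ _ y hy
  have e3 : nth2 [] 8 T38 x = lsW 39547229899325569 8388608 46 S38 W38 (Nat.div (sgW 2 x) 8) (Nat.mod (sgW 2 x) 8) :=
    tabW2_get _ _ x hx
  have e4 : nth2 [] 8 T38 y = lsW 39547229899325569 8388608 46 S38 W38 (Nat.div (sgW 2 y) 8) (Nat.mod (sgW 2 y) 8) :=
    tabW2_get _ _ y hy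
  rw [e1, e2, e3, e4]
  exact blF_eq 39547229899325569 8388608 46 S38 6 W38 (by norm_num) z38 _ _ _ _

/-- The arrays of the pair `39`. -/
noncomputable def L39 : List O8 := bld W39 (nat_lit 6) []

/-- The blocks of the pair `39`. -/
noncomputable def G39 : List (List (List (List Nat))) :=
  tabW3 (fun h l => tabW3 (blF (nat_lit 39547229899325569) (nat_lit 8388608) S39 L39 h l))

theorem y39 : ∀ k < 2, W39 (46 + k) = 0 := by decide +kernel

theorem z39 : ∀ j, 46 ≤ j → j < 8 * 6 → W39 j = 0 := by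
  intro j h1 h2
  have h3 := y39 (j - 46) (by omega)
  rw [Nat.add_sub_cancel' h1] at h3
  exact h3

theorem g39 : ∀ x < 64, ∀ y < 64,
    nth2 0 8 (nth2 [] 8 G39 x) y = blL (nth2 [] 8 T39 x) (nth2 [] 8 T39 y) := by
  intro x hx y hy
  have e1 : nth2 [] 8 G39 x = tabW3 (blF 39547229899325569 8388608 S39 L39 (Nat.div (sgW 3 x) 8)
    (Nat.mod (sgW 3 x) 8)) := tabW3_get _ _ x hx
  have e2 : nth2 0 8 (tabW3 (blF 39547229899325569 8388608 S39 L39 (Nat.div (sgW 3 x) 8)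
    (Nat.mod (sgW 3 x) 8))) y = blF 39547229899325569 8388608 S39 L39 (Nat.div (sgW 3 x) 8)
    (Nat.mod (sgW 3 x) 8) (Nat.div (sgW 3 y) 8) (Nat.mod (sgW 3 y) 8) := tabW3_get _ _ y hy
  have e3 : nth2 [] 8 T39 x = lsW 39547229899325569 8388608 46 S39 W39 (Nat.div (sgW 3 x) 8) (Nat.mod (sgW 3 x) 8) :=
    tabW3_get _ _ x hx
  have e4 : nth2 [] 8 T39 y = lsW 39547229899325569 8388608 46 S39 W39 (Nat.div (sgW 3 y) 8) (Nat.mod (sgW 3 y) 8) :=
    tabW3_get _ _ y hy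
  rw [e1, e2, e3, e4]
  exact blF_eq 39547229899325569 8388608 46 S39 6 W39 (by norm_num) z39 _ _ _ _

/-- The arrays of the pair `40`. -/
noncomputable def L40 : List O8 := bld W40 (nat_lit 7) []

/-- The blocks of the pair `40`. -/
noncomputable def G40 : List (List (List (List Nat))) :=
  tabW0 (fun h l => tabW0 (blF (nat_lit 40180548596924545) (nat_lit 8388608) S40 L40 h l))

theorem y40 : ∀ k < 1, W40 (55 + k) = 0 := by decide +kernel

theorem z40 : ∀ j, 55 ≤ j → j < 8 * 7 → W40 j = 0 := by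
  intro j h1 h2
  have h3 := y40 (j - 55) (by omega)
  rw [Nat.add_sub_cancel' h1] at h3
  exact h3

theorem g40 : ∀ x < 64, ∀ y < 64,
    nth2 0 8 (nth2 [] 8 G40 x) y = blL (nth2 [] 8 T40 x) (nth2 [] 8 T40 y) := by
  intro x hx y hy
  have e1 : nth2 [] 8 G40 x = tabW0 (blF 40180548596924545 8388608 S40 L40 (Nat.div (sgW 0 x) 8)
    (Nat.mod (sgW 0 x) 8)) := tabW0_get _ _ x hx
  have e2 : nth2 0 8 (tabW0 (blF 40180548596924545 8388608 S40 L40 (Nat.div (sgW 0 x) 8)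
    (Nat.mod (sgW 0 x) 8))) y = blF 40180548596924545 8388608 S40 L40 (Nat.div (sgW 0 x) 8)
    (Nat.mod (sgW 0 x) 8) (Nat.div (sgW 0 y) 8) (Nat.mod (sgW 0 y) 8) := tabW0_get _ _ y hy
  have e3 : nth2 [] 8 T40 x = lsW 40180548596924545 8388608 55 S40 W40 (Nat.div (sgW 0 x) 8) (Nat.mod (sgW 0 x) 8) :=
    tabW0_get _ _ x hx
  have e4 : nth2 [] 8 T40 y = lsW 40180548596924545 8388608 55 S40 W40 (Nat.div (sgW 0 y) 8) (Nat.mod (sgW 0 y) 8) :=
    tabW0_get _ _ y hy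
  rw [e1, e2, e3, e4]
  exact blF_eq 40180548596924545 8388608 55 S40 7 W40 (by norm_num) z40 _ _ _ _

/-- The arrays of the pair `41`. -/
noncomputable def L41 : List O8 := bld W41 (nat_lit 7) []

/-- The blocks of the pair `41`. -/
noncomputable def G41 : List (List (List (List Nat))) :=
  tabW2 (fun h l => tabW2 (blF (nat_lit 40180548596924545) (nat_lit 8388608) S41 L41 h l))

theorem y41 : ∀ k < 1, W41 (55 + k) = 0 := by decide +kernel

theorem z41 : ∀ j, 55 ≤ j → j < 8 * 7 → W41 j = 0 := by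
  intro j h1 h2
  have h3 := y41 (j - 55) (by omega)
  rw [Nat.add_sub_cancel' h1] at h3
  exact h3

theorem g41 : ∀ x < 64, ∀ y < 64,
    nth2 0 8 (nth2 [] 8 G41 x) y = blL (nth2 [] 8 T41 x) (nth2 [] 8 T41 y) := by
  intro x hx y hy
  have e1 : nth2 [] 8 G41 x = tabW2 (blF 40180548596924545 8388608 S41 L41 (Nat.div (sgW 2 x) 8)
    (Nat.mod (sgW 2 x) 8)) := tabW2_get _ _ x hx
  have e2 : nth2 0 8 (tabW2 (blF 40180548596924545 8388608 S41 L41 (Nat.div (sgW 2 x) 8)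
    (Nat.mod (sgW 2 x) 8))) y = blF 40180548596924545 8388608 S41 L41 (Nat.div (sgW 2 x) 8)
    (Nat.mod (sgW 2 x) 8) (Nat.div (sgW 2 y) 8) (Nat.mod (sgW 2 y) 8) := tabW2_get _ _ y hy
  have e3 : nth2 [] 8 T41 x = lsW 40180548596924545 8388608 55 S41 W41 (Nat.div (sgW 2 x) 8) (Nat.mod (sgW 2 x) 8) :=
    tabW2_get _ _ x hx
  have e4 : nth2 [] 8 T41 y = lsW 40180548596924545 8388608 55 S41 W41 (Nat.div (sgW 2 y) 8) (Nat.mod (sgW 2 y) 8) :=
    tabW2_get _ _ y hy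
  rw [e1, e2, e3, e4]
  exact blF_eq 40180548596924545 8388608 55 S41 7 W41 (by norm_num) z41 _ _ _ _

/-- The arrays of the pair `42`. -/
noncomputable def L42 : List O8 := bld W42 (nat_lit 7) []

/-- The blocks of the pair `42`. -/
noncomputable def G42 : List (List (List (List Nat))) :=
  tabW3 (fun h l => tabW3 (blF (nat_lit 40180548596924545) (nat_lit 8388608) S42 L42 h l))

theorem y42 : ∀ k < 1, W42 (55 + k) = 0 := by decide +kernel

theorem z42 : ∀ j, 55 ≤ j → j < 8 * 7 → W42 j = 0 := by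
  intro j h1 h2
  have h3 := y42 (j - 55) (by omega)
  rw [Nat.add_sub_cancel' h1] at h3
  exact h3

theorem g42 : ∀ x < 64, ∀ y < 64,
    nth2 0 8 (nth2 [] 8 G42 x) y = blL (nth2 [] 8 T42 x) (nth2 [] 8 T42 y) := by
  intro x hx y hy
  have e1 : nth2 [] 8 G42 x = tabW3 (blF 40180548596924545 8388608 S42 L42 (Nat.div (sgW 3 x) 8)
    (Nat.mod (sgW 3 x) 8)) := tabW3_get _ _ x hx
  have e2 : nth2 0 8 (tabW3 (blF 40180548596924545 8388608 S42 L42 (Nat.div (sgW 3 x) 8)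
    (Nat.mod (sgW 3 x) 8))) y = blF 40180548596924545 8388608 S42 L42 (Nat.div (sgW 3 x) 8)
    (Nat.mod (sgW 3 x) 8) (Nat.div (sgW 3 y) 8) (Nat.mod (sgW 3 y) 8) := tabW3_get _ _ y hy
  have e3 : nth2 [] 8 T42 x = lsW 40180548596924545 8388608 55 S42 W42 (Nat.div (sgW 3 x) 8) (Nat.mod (sgW 3 x) 8) :=
    tabW3_get _ _ x hx
  have e4 : nth2 [] 8 T42 y = lsW 40180548596924545 8388608 55 S42 W42 (Nat.div (sgW 3 y) 8) (Nat.mod (sgW 3 y) 8) :=
    tabW3_get _ _ y hy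
  rw [e1, e2, e3, e4]
  exact blF_eq 40180548596924545 8388608 55 S42 7 W42 (by norm_num) z42 _ _ _ _

/-- The arrays of the pair `43`. -/
noncomputable def L43 : List O8 := bld W43 (nat_lit 6) []

/-- The blocks of the pair `43`. -/
noncomputable def G43 : List (List (List (List Nat))) :=
  tabW0 (fun h l => tabW0 (blF (nat_lit 39687967387680897) (nat_lit 8388608) S43 L43 h l))

theorem z43 : ∀ j, 48 ≤ j → j < 8 * 6 → W43 j = 0 := by
  intro j h1 h2
  omega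

theorem g43 : ∀ x < 64, ∀ y < 64,
    nth2 0 8 (nth2 [] 8 G43 x) y = blL (nth2 [] 8 T43 x) (nth2 [] 8 T43 y) := by
  intro x hx y hy
  have e1 : nth2 [] 8 G43 x = tabW0 (blF 39687967387680897 8388608 S43 L43 (Nat.div (sgW 0 x) 8)
    (Nat.mod (sgW 0 x) 8)) := tabW0_get _ _ x hx
  have e2 : nth2 0 8 (tabW0 (blF 39687967387680897 8388608 S43 L43 (Nat.div (sgW 0 x) 8)
    (Nat.mod (sgW 0 x) 8))) y = blF 39687967387680897 8388608 S43 L43 (Nat.div (sgW 0 x) 8)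
    (Nat.mod (sgW 0 x) 8) (Nat.div (sgW 0 y) 8) (Nat.mod (sgW 0 y) 8) := tabW0_get _ _ y hy
  have e3 : nth2 [] 8 T43 x = lsW 39687967387680897 8388608 48 S43 W43 (Nat.div (sgW 0 x) 8) (Nat.mod (sgW 0 x) 8) :=
    tabW0_get _ _ x hx
  have e4 : nth2 [] 8 T43 y = lsW 39687967387680897 8388608 48 S43 W43 (Nat.div (sgW 0 y) 8) (Nat.mod (sgW 0 y) 8) :=
    tabW0_get _ _ y hy
  rw [e1, e2, e3, e4]
  exact blF_eq 39687967387680897 8388608 48 S43 6 W43 (by norm_num) z43 _ _ _ _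

/-- The arrays of the pair `44`. -/
noncomputable def L44 : List O8 := bld W44 (nat_lit 6) []

/-- The blocks of the pair `44`. -/
noncomputable def G44 : List (List (List (List Nat))) :=
  tabW1 (fun h l => tabW1 (blF (nat_lit 39687967387680897) (nat_lit 8388608) S44 L44 h l))

theorem z44 : ∀ j, 48 ≤ j → j < 8 * 6 → W44 j = 0 := by
  intro j h1 h2
  omega

theorem g44 : ∀ x < 64, ∀ y < 64,
    nth2 0 8 (nth2 [] 8 G44 x) y = blL (nth2 [] 8 T44 x) (nth2 [] 8 T44 y) := by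
  intro x hx y hy
  have e1 : nth2 [] 8 G44 x = tabW1 (blF 39687967387680897 8388608 S44 L44 (Nat.div (sgW 1 x) 8)
    (Nat.mod (sgW 1 x) 8)) := tabW1_get _ _ x hx
  have e2 : nth2 0 8 (tabW1 (blF 39687967387680897 8388608 S44 L44 (Nat.div (sgW 1 x) 8)
    (Nat.mod (sgW 1 x) 8))) y = blF 39687967387680897 8388608 S44 L44 (Nat.div (sgW 1 x) 8)
    (Nat.mod (sgW 1 x) 8) (Nat.div (sgW 1 y) 8) (Nat.mod (sgW 1 y) 8) := tabW1_get _ _ y hy
  have e3 : nth2 [] 8 T44 x = lsW 39687967387680897 8388608 48 S44 W44 (Nat.div (sgW 1 x) 8) (Nat.mod (sgW 1 x) 8) :=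
    tabW1_get _ _ x hx
  have e4 : nth2 [] 8 T44 y = lsW 39687967387680897 8388608 48 S44 W44 (Nat.div (sgW 1 y) 8) (Nat.mod (sgW 1 y) 8) :=
    tabW1_get _ _ y hy
  rw [e1, e2, e3, e4]
  exact blF_eq 39687967387680897 8388608 48 S44 6 W44 (by norm_num) z44 _ _ _ _

/-- The arrays of the pair `45`. -/
noncomputable def L45 : List O8 := bld W45 (nat_lit 6) []

/-- The blocks of the pair `45`. -/
noncomputable def G45 : List (List (List (List Nat))) :=
  tabW3 (fun h l => tabW3 (blF (nat_lit 39687967387680897) (nat_lit 8388608) S45 L45 h l))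

theorem z45 : ∀ j, 48 ≤ j → j < 8 * 6 → W45 j = 0 := by
  intro j h1 h2
  omega

theorem g45 : ∀ x < 64, ∀ y < 64,
    nth2 0 8 (nth2 [] 8 G45 x) y = blL (nth2 [] 8 T45 x) (nth2 [] 8 T45 y) := by
  intro x hx y hy
  have e1 : nth2 [] 8 G45 x = tabW3 (blF 39687967387680897 8388608 S45 L45 (Nat.div (sgW 3 x) 8)
    (Nat.mod (sgW 3 x) 8)) := tabW3_get _ _ x hx
  have e2 : nth2 0 8 (tabW3 (blF 39687967387680897 8388608 S45 L45 (Nat.div (sgW 3 x) 8)
    (Nat.mod (sgW 3 x) 8))) y = blF 39687967387680897 8388608 S45 L45 (Nat.div (sgW 3 x) 8)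
    (Nat.mod (sgW 3 x) 8) (Nat.div (sgW 3 y) 8) (Nat.mod (sgW 3 y) 8) := tabW3_get _ _ y hy
  have e3 : nth2 [] 8 T45 x = lsW 39687967387680897 8388608 48 S45 W45 (Nat.div (sgW 3 x) 8) (Nat.mod (sgW 3 x) 8) :=
    tabW3_get _ _ x hx
  have e4 : nth2 [] 8 T45 y = lsW 39687967387680897 8388608 48 S45 W45 (Nat.div (sgW 3 y) 8) (Nat.mod (sgW 3 y) 8) :=
    tabW3_get _ _ y hy
  rw [e1, e2, e3, e4]
  exact blF_eq 39687967387680897 8388608 48 S45 6 W45 (by norm_num) z45 _ _ _ _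

/-- The arrays of the pair `46`. -/
noncomputable def L46 : List O8 := bld W46 (nat_lit 6) []

/-- The blocks of the pair `46`. -/
noncomputable def G46 : List (List (List (List Nat))) :=
  tabW4 (fun h l => tabW4 (blF (nat_lit 39687967387680897) (nat_lit 8388608) S46 L46 h l))

theorem z46 : ∀ j, 48 ≤ j → j < 8 * 6 → W46 j = 0 := by
  intro j h1 h2
  omega

theorem g46 : ∀ x < 64, ∀ y < 64,
    nth2 0 8 (nth2 [] 8 G46 x) y = blL (nth2 [] 8 T46 x) (nth2 [] 8 T46 y) := by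
  intro x hx y hy
  have e1 : nth2 [] 8 G46 x = tabW4 (blF 39687967387680897 8388608 S46 L46 (Nat.div (sgW 4 x) 8)
    (Nat.mod (sgW 4 x) 8)) := tabW4_get _ _ x hx
  have e2 : nth2 0 8 (tabW4 (blF 39687967387680897 8388608 S46 L46 (Nat.div (sgW 4 x) 8)
    (Nat.mod (sgW 4 x) 8))) y = blF 39687967387680897 8388608 S46 L46 (Nat.div (sgW 4 x) 8)
    (Nat.mod (sgW 4 x) 8) (Nat.div (sgW 4 y) 8) (Nat.mod (sgW 4 y) 8) := tabW4_get _ _ y hy
  have e3 : nth2 [] 8 T46 x = lsW 39687967387680897 8388608 48 S46 W46 (Nat.div (sgW 4 x) 8) (Nat.mod (sgW 4 x) 8) :=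
    tabW4_get _ _ x hx
  have e4 : nth2 [] 8 T46 y = lsW 39687967387680897 8388608 48 S46 W46 (Nat.div (sgW 4 y) 8) (Nat.mod (sgW 4 y) 8) :=
    tabW4_get _ _ y hy
  rw [e1, e2, e3, e4]
  exact blF_eq 39687967387680897 8388608 48 S46 6 W46 (by norm_num) z46 _ _ _ _

/-- The arrays of the pair `47`. -/
noncomputable def L47 : List O8 := bld W47 (nat_lit 7) []

/-- The blocks of the pair `47`. -/
noncomputable def G47 : List (List (List (List Nat))) :=
  tabW0 (fun h l => tabW0 (blF (nat_lit 39899073620213889) (nat_lit 8388608) S47 L47 h l))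

theorem y47 : ∀ k < 5, W47 (51 + k) = 0 := by decide +kernel

theorem z47 : ∀ j, 51 ≤ j → j < 8 * 7 → W47 j = 0 := by
  intro j h1 h2
  have h3 := y47 (j - 51) (by omega)
  rw [Nat.add_sub_cancel' h1] at h3
  exact h3

theorem g47 : ∀ x < 64, ∀ y < 64,
    nth2 0 8 (nth2 [] 8 G47 x) y = blL (nth2 [] 8 T47 x) (nth2 [] 8 T47 y) := by
  intro x hx y hy
  have e1 : nth2 [] 8 G47 x = tabW0 (blF 39899073620213889 8388608 S47 L47 (Nat.div (sgW 0 x) 8)
    (Nat.mod (sgW 0 x) 8)) := tabW0_get _ _ x hx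
  have e2 : nth2 0 8 (tabW0 (blF 39899073620213889 8388608 S47 L47 (Nat.div (sgW 0 x) 8)
    (Nat.mod (sgW 0 x) 8))) y = blF 39899073620213889 8388608 S47 L47 (Nat.div (sgW 0 x) 8)
    (Nat.mod (sgW 0 x) 8) (Nat.div (sgW 0 y) 8) (Nat.mod (sgW 0 y) 8) := tabW0_get _ _ y hy
  have e3 : nth2 [] 8 T47 x = lsW 39899073620213889 8388608 51 S47 W47 (Nat.div (sgW 0 x) 8) (Nat.mod (sgW 0 x) 8) :=
    tabW0_get _ _ x hx
  have e4 : nth2 [] 8 T47 y = lsW 39899073620213889 8388608 51 S47 W47 (Nat.div (sgW 0 y) 8) (Nat.mod (sgW 0 y) 8) :=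
    tabW0_get _ _ y hy
  rw [e1, e2, e3, e4]
  exact blF_eq 39899073620213889 8388608 51 S47 7 W47 (by norm_num) z47 _ _ _ _

/-- The arrays of the pair `48`. -/
noncomputable def L48 : List O8 := bld W48 (nat_lit 7) []

/-- The blocks of the pair `48`. -/
noncomputable def G48 : List (List (List (List Nat))) :=
  tabW1 (fun h l => tabW1 (blF (nat_lit 39899073620213889) (nat_lit 8388608) S48 L48 h l))

theorem y48 : ∀ k < 5, W48 (51 + k) = 0 := by decide +kernel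

theorem z48 : ∀ j, 51 ≤ j → j < 8 * 7 → W48 j = 0 := by
  intro j h1 h2
  have h3 := y48 (j - 51) (by omega)
  rw [Nat.add_sub_cancel' h1] at h3
  exact h3

theorem g48 : ∀ x < 64, ∀ y < 64,
    nth2 0 8 (nth2 [] 8 G48 x) y = blL (nth2 [] 8 T48 x) (nth2 [] 8 T48 y) := by
  intro x hx y hy
  have e1 : nth2 [] 8 G48 x = tabW1 (blF 39899073620213889 8388608 S48 L48 (Nat.div (sgW 1 x) 8)
    (Nat.mod (sgW 1 x) 8)) := tabW1_get _ _ x hx
  have e2 : nth2 0 8 (tabW1 (blF 39899073620213889 8388608 S48 L48 (Nat.div (sgW 1 x) 8)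
    (Nat.mod (sgW 1 x) 8))) y = blF 39899073620213889 8388608 S48 L48 (Nat.div (sgW 1 x) 8)
    (Nat.mod (sgW 1 x) 8) (Nat.div (sgW 1 y) 8) (Nat.mod (sgW 1 y) 8) := tabW1_get _ _ y hy
  have e3 : nth2 [] 8 T48 x = lsW 39899073620213889 8388608 51 S48 W48 (Nat.div (sgW 1 x) 8) (Nat.mod (sgW 1 x) 8) :=
    tabW1_get _ _ x hx
  have e4 : nth2 [] 8 T48 y = lsW 39899073620213889 8388608 51 S48 W48 (Nat.div (sgW 1 y) 8) (Nat.mod (sgW 1 y) 8) :=
    tabW1_get _ _ y hy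
  rw [e1, e2, e3, e4]
  exact blF_eq 39899073620213889 8388608 51 S48 7 W48 (by norm_num) z48 _ _ _ _

/-- The arrays of the pair `49`. -/
noncomputable def L49 : List O8 := bld W49 (nat_lit 7) []

/-- The blocks of the pair `49`. -/
noncomputable def G49 : List (List (List (List Nat))) :=
  tabW3 (fun h l => tabW3 (blF (nat_lit 39899073620213889) (nat_lit 8388608) S49 L49 h l))

theorem y49 : ∀ k < 5, W49 (51 + k) = 0 := by decide +kernel

theorem z49 : ∀ j, 51 ≤ j → j < 8 * 7 → W49 j = 0 := by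
  intro j h1 h2
  have h3 := y49 (j - 51) (by omega)
  rw [Nat.add_sub_cancel' h1] at h3
  exact h3

theorem g49 : ∀ x < 64, ∀ y < 64,
    nth2 0 8 (nth2 [] 8 G49 x) y = blL (nth2 [] 8 T49 x) (nth2 [] 8 T49 y) := by
  intro x hx y hy
  have e1 : nth2 [] 8 G49 x = tabW3 (blF 39899073620213889 8388608 S49 L49 (Nat.div (sgW 3 x) 8)
    (Nat.mod (sgW 3 x) 8)) := tabW3_get _ _ x hx
  have e2 : nth2 0 8 (tabW3 (blF 39899073620213889 8388608 S49 L49 (Nat.div (sgW 3 x) 8)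
    (Nat.mod (sgW 3 x) 8))) y = blF 39899073620213889 8388608 S49 L49 (Nat.div (sgW 3 x) 8)
    (Nat.mod (sgW 3 x) 8) (Nat.div (sgW 3 y) 8) (Nat.mod (sgW 3 y) 8) := tabW3_get _ _ y hy
  have e3 : nth2 [] 8 T49 x = lsW 39899073620213889 8388608 51 S49 W49 (Nat.div (sgW 3 x) 8) (Nat.mod (sgW 3 x) 8) :=
    tabW3_get _ _ x hx
  have e4 : nth2 [] 8 T49 y = lsW 39899073620213889 8388608 51 S49 W49 (Nat.div (sgW 3 y) 8) (Nat.mod (sgW 3 y) 8) :=
    tabW3_get _ _ y hy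
  rw [e1, e2, e3, e4]
  exact blF_eq 39899073620213889 8388608 51 S49 7 W49 (by norm_num) z49 _ _ _ _

/-- The arrays of the pair `50`. -/
noncomputable def L50 : List O8 := bld W50 (nat_lit 7) []

/-- The blocks of the pair `50`. -/
noncomputable def G50 : List (List (List (List Nat))) :=
  tabW4 (fun h l => tabW4 (blF (nat_lit 39899073620213889) (nat_lit 8388608) S50 L50 h l))

theorem y50 : ∀ k < 5, W50 (51 + k) = 0 := by decide +kernel

theorem z50 : ∀ j, 51 ≤ j → j < 8 * 7 → W50 j = 0 := by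
  intro j h1 h2
  have h3 := y50 (j - 51) (by omega)
  rw [Nat.add_sub_cancel' h1] at h3
  exact h3

theorem g50 : ∀ x < 64, ∀ y < 64,
    nth2 0 8 (nth2 [] 8 G50 x) y = blL (nth2 [] 8 T50 x) (nth2 [] 8 T50 y) := by
  intro x hx y hy
  have e1 : nth2 [] 8 G50 x = tabW4 (blF 39899073620213889 8388608 S50 L50 (Nat.div (sgW 4 x) 8)
    (Nat.mod (sgW 4 x) 8)) := tabW4_get _ _ x hx
  have e2 : nth2 0 8 (tabW4 (blF 39899073620213889 8388608 S50 L50 (Nat.div (sgW 4 x) 8)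
    (Nat.mod (sgW 4 x) 8))) y = blF 39899073620213889 8388608 S50 L50 (Nat.div (sgW 4 x) 8)
    (Nat.mod (sgW 4 x) 8) (Nat.div (sgW 4 y) 8) (Nat.mod (sgW 4 y) 8) := tabW4_get _ _ y hy
  have e3 : nth2 [] 8 T50 x = lsW 39899073620213889 8388608 51 S50 W50 (Nat.div (sgW 4 x) 8) (Nat.mod (sgW 4 x) 8) :=
    tabW4_get _ _ x hx
  have e4 : nth2 [] 8 T50 y = lsW 39899073620213889 8388608 51 S50 W50 (Nat.div (sgW 4 y) 8) (Nat.mod (sgW 4 y) 8) :=
    tabW4_get _ _ y hy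
  rw [e1, e2, e3, e4]
  exact blF_eq 39899073620213889 8388608 51 S50 7 W50 (by norm_num) z50 _ _ _ _

/-- The arrays of the pair `51`. -/
noncomputable def L51 : List O8 := bld W51 (nat_lit 9) []

/-- The blocks of the pair `51`. -/
noncomputable def G51 : List (List (List (List Nat))) :=
  tabW0 (fun h l => tabW0 (blF (nat_lit 41376817247944833) (nat_lit 8388608) S51 L51 h l))

theorem z51 : ∀ j, 72 ≤ j → j < 8 * 9 → W51 j = 0 := by
  intro j h1 h2
  omega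

theorem g51 : ∀ x < 64, ∀ y < 64,
    nth2 0 8 (nth2 [] 8 G51 x) y = blL (nth2 [] 8 T51 x) (nth2 [] 8 T51 y) := by
  intro x hx y hy
  have e1 : nth2 [] 8 G51 x = tabW0 (blF 41376817247944833 8388608 S51 L51 (Nat.div (sgW 0 x) 8)
    (Nat.mod (sgW 0 x) 8)) := tabW0_get _ _ x hx
  have e2 : nth2 0 8 (tabW0 (blF 41376817247944833 8388608 S51 L51 (Nat.div (sgW 0 x) 8)
    (Nat.mod (sgW 0 x) 8))) y = blF 41376817247944833 8388608 S51 L51 (Nat.div (sgW 0 x) 8)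
    (Nat.mod (sgW 0 x) 8) (Nat.div (sgW 0 y) 8) (Nat.mod (sgW 0 y) 8) := tabW0_get _ _ y hy
  have e3 : nth2 [] 8 T51 x = lsW 41376817247944833 8388608 72 S51 W51 (Nat.div (sgW 0 x) 8) (Nat.mod (sgW 0 x) 8) :=
    tabW0_get _ _ x hx
  have e4 : nth2 [] 8 T51 y = lsW 41376817247944833 8388608 72 S51 W51 (Nat.div (sgW 0 y) 8) (Nat.mod (sgW 0 y) 8) :=
    tabW0_get _ _ y hy
  rw [e1, e2, e3, e4]
  exact blF_eq 41376817247944833 8388608 72 S51 9 W51 (by norm_num) z51 _ _ _ _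

/-- The arrays of the pair `52`. -/
noncomputable def L52 : List O8 := bld W52 (nat_lit 9) []

/-- The blocks of the pair `52`. -/
noncomputable def G52 : List (List (List (List Nat))) :=
  tabW3 (fun h l => tabW3 (blF (nat_lit 41376817247944833) (nat_lit 8388608) S52 L52 h l))

theorem z52 : ∀ j, 72 ≤ j → j < 8 * 9 → W52 j = 0 := by
  intro j h1 h2
  omega

theorem g52 : ∀ x < 64, ∀ y < 64,
    nth2 0 8 (nth2 [] 8 G52 x) y = blL (nth2 [] 8 T52 x) (nth2 [] 8 T52 y) := by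
  intro x hx y hy
  have e1 : nth2 [] 8 G52 x = tabW3 (blF 41376817247944833 8388608 S52 L52 (Nat.div (sgW 3 x) 8)
    (Nat.mod (sgW 3 x) 8)) := tabW3_get _ _ x hx
  have e2 : nth2 0 8 (tabW3 (blF 41376817247944833 8388608 S52 L52 (Nat.div (sgW 3 x) 8)
    (Nat.mod (sgW 3 x) 8))) y = blF 41376817247944833 8388608 S52 L52 (Nat.div (sgW 3 x) 8)
    (Nat.mod (sgW 3 x) 8) (Nat.div (sgW 3 y) 8) (Nat.mod (sgW 3 y) 8) := tabW3_get _ _ y hy
  have e3 : nth2 [] 8 T52 x = lsW 41376817247944833 8388608 72 S52 W52 (Nat.div (sgW 3 x) 8) (Nat.mod (sgW 3 x) 8) :=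
    tabW3_get _ _ x hx
  have e4 : nth2 [] 8 T52 y = lsW 41376817247944833 8388608 72 S52 W52 (Nat.div (sgW 3 y) 8) (Nat.mod (sgW 3 y) 8) :=
    tabW3_get _ _ y hy
  rw [e1, e2, e3, e4]
  exact blF_eq 41376817247944833 8388608 72 S52 9 W52 (by norm_num) z52 _ _ _ _

/-- The arrays of the pair `53`. -/
noncomputable def L53 : List O8 := bld W53 (nat_lit 10) []

/-- The blocks of the pair `53`. -/
noncomputable def G53 : List (List (List (List Nat))) :=
  tabW0 (fun h l => tabW0 (blF (nat_lit 41869398457188481) (nat_lit 8388608) S53 L53 h l))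

theorem y53 : ∀ k < 1, W53 (79 + k) = 0 := by decide +kernel

theorem z53 : ∀ j, 79 ≤ j → j < 8 * 10 → W53 j = 0 := by
  intro j h1 h2
  have h3 := y53 (j - 79) (by omega)
  rw [Nat.add_sub_cancel' h1] at h3
  exact h3

theorem g53 : ∀ x < 64, ∀ y < 64,
    nth2 0 8 (nth2 [] 8 G53 x) y = blL (nth2 [] 8 T53 x) (nth2 [] 8 T53 y) := by
  intro x hx y hy
  have e1 : nth2 [] 8 G53 x = tabW0 (blF 41869398457188481 8388608 S53 L53 (Nat.div (sgW 0 x) 8)
    (Nat.mod (sgW 0 x) 8)) := tabW0_get _ _ x hx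
  have e2 : nth2 0 8 (tabW0 (blF 41869398457188481 8388608 S53 L53 (Nat.div (sgW 0 x) 8)
    (Nat.mod (sgW 0 x) 8))) y = blF 41869398457188481 8388608 S53 L53 (Nat.div (sgW 0 x) 8)
    (Nat.mod (sgW 0 x) 8) (Nat.div (sgW 0 y) 8) (Nat.mod (sgW 0 y) 8) := tabW0_get _ _ y hy
  have e3 : nth2 [] 8 T53 x = lsW 41869398457188481 8388608 79 S53 W53 (Nat.div (sgW 0 x) 8) (Nat.mod (sgW 0 x) 8) :=
    tabW0_get _ _ x hx
  have e4 : nth2 [] 8 T53 y = lsW 41869398457188481 8388608 79 S53 W53 (Nat.div (sgW 0 y) 8) (Nat.mod (sgW 0 y) 8) :=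
    tabW0_get _ _ y hy
  rw [e1, e2, e3, e4]
  exact blF_eq 41869398457188481 8388608 79 S53 10 W53 (by norm_num) z53 _ _ _ _

/-- The arrays of the pair `54`. -/
noncomputable def L54 : List O8 := bld W54 (nat_lit 10) []

/-- The blocks of the pair `54`. -/
noncomputable def G54 : List (List (List (List Nat))) :=
  tabW3 (fun h l => tabW3 (blF (nat_lit 41869398457188481) (nat_lit 8388608) S54 L54 h l))

theorem y54 : ∀ k < 1, W54 (79 + k) = 0 := by decide +kernel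

theorem z54 : ∀ j, 79 ≤ j → j < 8 * 10 → W54 j = 0 := by
  intro j h1 h2
  have h3 := y54 (j - 79) (by omega)
  rw [Nat.add_sub_cancel' h1] at h3
  exact h3

theorem g54 : ∀ x < 64, ∀ y < 64,
    nth2 0 8 (nth2 [] 8 G54 x) y = blL (nth2 [] 8 T54 x) (nth2 [] 8 T54 y) := by
  intro x hx y hy
  have e1 : nth2 [] 8 G54 x = tabW3 (blF 41869398457188481 8388608 S54 L54 (Nat.div (sgW 3 x) 8)
    (Nat.mod (sgW 3 x) 8)) := tabW3_get _ _ x hx
  have e2 : nth2 0 8 (tabW3 (blF 41869398457188481 8388608 S54 L54 (Nat.div (sgW 3 x) 8)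
    (Nat.mod (sgW 3 x) 8))) y = blF 41869398457188481 8388608 S54 L54 (Nat.div (sgW 3 x) 8)
    (Nat.mod (sgW 3 x) 8) (Nat.div (sgW 3 y) 8) (Nat.mod (sgW 3 y) 8) := tabW3_get _ _ y hy
  have e3 : nth2 [] 8 T54 x = lsW 41869398457188481 8388608 79 S54 W54 (Nat.div (sgW 3 x) 8) (Nat.mod (sgW 3 x) 8) :=
    tabW3_get _ _ x hx
  have e4 : nth2 [] 8 T54 y = lsW 41869398457188481 8388608 79 S54 W54 (Nat.div (sgW 3 y) 8) (Nat.mod (sgW 3 y) 8) :=
    tabW3_get _ _ y hy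
  rw [e1, e2, e3, e4]
  exact blF_eq 41869398457188481 8388608 79 S54 10 W54 (by norm_num) z54 _ _ _ _

/-- The arrays of the pair `55`. -/
noncomputable def L55 : List O8 := bld W55 (nat_lit 7) []

/-- The blocks of the pair `55`. -/
noncomputable def G55 : List (List (List (List Nat))) :=
  tabW0 (fun h l => tabW0 (blF (nat_lit 40250917341102209) (nat_lit 8388608) S55 L55 h l))

theorem z55 : ∀ j, 56 ≤ j → j < 8 * 7 → W55 j = 0 := by
  intro j h1 h2
  omega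

theorem g55 : ∀ x < 64, ∀ y < 64,
    nth2 0 8 (nth2 [] 8 G55 x) y = blL (nth2 [] 8 T55 x) (nth2 [] 8 T55 y) := by
  intro x hx y hy
  have e1 : nth2 [] 8 G55 x = tabW0 (blF 40250917341102209 8388608 S55 L55 (Nat.div (sgW 0 x) 8)
    (Nat.mod (sgW 0 x) 8)) := tabW0_get _ _ x hx
  have e2 : nth2 0 8 (tabW0 (blF 40250917341102209 8388608 S55 L55 (Nat.div (sgW 0 x) 8)
    (Nat.mod (sgW 0 x) 8))) y = blF 40250917341102209 8388608 S55 L55 (Nat.div (sgW 0 x) 8)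
    (Nat.mod (sgW 0 x) 8) (Nat.div (sgW 0 y) 8) (Nat.mod (sgW 0 y) 8) := tabW0_get _ _ y hy
  have e3 : nth2 [] 8 T55 x = lsW 40250917341102209 8388608 56 S55 W55 (Nat.div (sgW 0 x) 8) (Nat.mod (sgW 0 x) 8) :=
    tabW0_get _ _ x hx
  have e4 : nth2 [] 8 T55 y = lsW 40250917341102209 8388608 56 S55 W55 (Nat.div (sgW 0 y) 8) (Nat.mod (sgW 0 y) 8) :=
    tabW0_get _ _ y hy
  rw [e1, e2, e3, e4]
  exact blF_eq 40250917341102209 8388608 56 S55 7 W55 (by norm_num) z55 _ _ _ _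

/-- The arrays of the pair `56`. -/
noncomputable def L56 : List O8 := bld W56 (nat_lit 7) []

/-- The blocks of the pair `56`. -/
noncomputable def G56 : List (List (List (List Nat))) :=
  tabW1 (fun h l => tabW1 (blF (nat_lit 40250917341102209) (nat_lit 8388608) S56 L56 h l))

theorem z56 : ∀ j, 56 ≤ j → j < 8 * 7 → W56 j = 0 := by
  intro j h1 h2
  omega

theorem g56 : ∀ x < 64, ∀ y < 64,
    nth2 0 8 (nth2 [] 8 G56 x) y = blL (nth2 [] 8 T56 x) (nth2 [] 8 T56 y) := by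
  intro x hx y hy
  have e1 : nth2 [] 8 G56 x = tabW1 (blF 40250917341102209 8388608 S56 L56 (Nat.div (sgW 1 x) 8)
    (Nat.mod (sgW 1 x) 8)) := tabW1_get _ _ x hx
  have e2 : nth2 0 8 (tabW1 (blF 40250917341102209 8388608 S56 L56 (Nat.div (sgW 1 x) 8)
    (Nat.mod (sgW 1 x) 8))) y = blF 40250917341102209 8388608 S56 L56 (Nat.div (sgW 1 x) 8)
    (Nat.mod (sgW 1 x) 8) (Nat.div (sgW 1 y) 8) (Nat.mod (sgW 1 y) 8) := tabW1_get _ _ y hy
  have e3 : nth2 [] 8 T56 x = lsW 40250917341102209 8388608 56 S56 W56 (Nat.div (sgW 1 x) 8) (Nat.mod (sgW 1 x) 8) :=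
    tabW1_get _ _ x hx
  have e4 : nth2 [] 8 T56 y = lsW 40250917341102209 8388608 56 S56 W56 (Nat.div (sgW 1 y) 8) (Nat.mod (sgW 1 y) 8) :=
    tabW1_get _ _ y hy
  rw [e1, e2, e3, e4]
  exact blF_eq 40250917341102209 8388608 56 S56 7 W56 (by norm_num) z56 _ _ _ _

/-- The arrays of the pair `57`. -/
noncomputable def L57 : List O8 := bld W57 (nat_lit 10) []

/-- The blocks of the pair `57`. -/
noncomputable def G57 : List (List (List (List Nat))) :=
  tabW0 (fun h l => tabW0 (blF (nat_lit 41799029713010817) (nat_lit 8388608) S57 L57 h l))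

theorem y57 : ∀ k < 2, W57 (78 + k) = 0 := by decide +kernel

theorem z57 : ∀ j, 78 ≤ j → j < 8 * 10 → W57 j = 0 := by
  intro j h1 h2
  have h3 := y57 (j - 78) (by omega)
  rw [Nat.add_sub_cancel' h1] at h3
  exact h3

theorem g57 : ∀ x < 64, ∀ y < 64,
    nth2 0 8 (nth2 [] 8 G57 x) y = blL (nth2 [] 8 T57 x) (nth2 [] 8 T57 y) := by
  intro x hx y hy
  have e1 : nth2 [] 8 G57 x = tabW0 (blF 41799029713010817 8388608 S57 L57 (Nat.div (sgW 0 x) 8)
    (Nat.mod (sgW 0 x) 8)) := tabW0_get _ _ x hx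
  have e2 : nth2 0 8 (tabW0 (blF 41799029713010817 8388608 S57 L57 (Nat.div (sgW 0 x) 8)
    (Nat.mod (sgW 0 x) 8))) y = blF 41799029713010817 8388608 S57 L57 (Nat.div (sgW 0 x) 8)
    (Nat.mod (sgW 0 x) 8) (Nat.div (sgW 0 y) 8) (Nat.mod (sgW 0 y) 8) := tabW0_get _ _ y hy
  have e3 : nth2 [] 8 T57 x = lsW 41799029713010817 8388608 78 S57 W57 (Nat.div (sgW 0 x) 8) (Nat.mod (sgW 0 x) 8) :=
    tabW0_get _ _ x hx
  have e4 : nth2 [] 8 T57 y = lsW 41799029713010817 8388608 78 S57 W57 (Nat.div (sgW 0 y) 8) (Nat.mod (sgW 0 y) 8) :=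
    tabW0_get _ _ y hy
  rw [e1, e2, e3, e4]
  exact blF_eq 41799029713010817 8388608 78 S57 10 W57 (by norm_num) z57 _ _ _ _

/-- The arrays of the pair `58`. -/
noncomputable def L58 : List O8 := bld W58 (nat_lit 10) []

/-- The blocks of the pair `58`. -/
noncomputable def G58 : List (List (List (List Nat))) :=
  tabW1 (fun h l => tabW1 (blF (nat_lit 41799029713010817) (nat_lit 8388608) S58 L58 h l))

theorem y58 : ∀ k < 2, W58 (78 + k) = 0 := by decide +kernel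

theorem z58 : ∀ j, 78 ≤ j → j < 8 * 10 → W58 j = 0 := by
  intro j h1 h2
  have h3 := y58 (j - 78) (by omega)
  rw [Nat.add_sub_cancel' h1] at h3
  exact h3

theorem g58 : ∀ x < 64, ∀ y < 64,
    nth2 0 8 (nth2 [] 8 G58 x) y = blL (nth2 [] 8 T58 x) (nth2 [] 8 T58 y) := by
  intro x hx y hy
  have e1 : nth2 [] 8 G58 x = tabW1 (blF 41799029713010817 8388608 S58 L58 (Nat.div (sgW 1 x) 8)
    (Nat.mod (sgW 1 x) 8)) := tabW1_get _ _ x hx
  have e2 : nth2 0 8 (tabW1 (blF 41799029713010817 8388608 S58 L58 (Nat.div (sgW 1 x) 8)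
    (Nat.mod (sgW 1 x) 8))) y = blF 41799029713010817 8388608 S58 L58 (Nat.div (sgW 1 x) 8)
    (Nat.mod (sgW 1 x) 8) (Nat.div (sgW 1 y) 8) (Nat.mod (sgW 1 y) 8) := tabW1_get _ _ y hy
  have e3 : nth2 [] 8 T58 x = lsW 41799029713010817 8388608 78 S58 W58 (Nat.div (sgW 1 x) 8) (Nat.mod (sgW 1 x) 8) :=
    tabW1_get _ _ x hx
  have e4 : nth2 [] 8 T58 y = lsW 41799029713010817 8388608 78 S58 W58 (Nat.div (sgW 1 y) 8) (Nat.mod (sgW 1 y) 8) :=
    tabW1_get _ _ y hy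
  rw [e1, e2, e3, e4]
  exact blF_eq 41799029713010817 8388608 78 S58 10 W58 (by norm_num) z58 _ _ _ _

/-- The arrays of the pair `59`. -/
noncomputable def L59 : List O8 := bld W59 (nat_lit 6) []

/-- The blocks of the pair `59`. -/
noncomputable def G59 : List (List (List (List Nat))) :=
  tabW0 (fun h l => tabW0 (blF (nat_lit 39547229899325569) (nat_lit 8388608) S59 L59 h l))

theorem y59 : ∀ k < 2, W59 (46 + k) = 0 := by decide +kernel

theorem z59 : ∀ j, 46 ≤ j → j < 8 * 6 → W59 j = 0 := by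
  intro j h1 h2
  have h3 := y59 (j - 46) (by omega)
  rw [Nat.add_sub_cancel' h1] at h3
  exact h3

theorem g59 : ∀ x < 64, ∀ y < 64,
    nth2 0 8 (nth2 [] 8 G59 x) y = blL (nth2 [] 8 T59 x) (nth2 [] 8 T59 y) := by
  intro x hx y hy
  have e1 : nth2 [] 8 G59 x = tabW0 (blF 39547229899325569 8388608 S59 L59 (Nat.div (sgW 0 x) 8)
    (Nat.mod (sgW 0 x) 8)) := tabW0_get _ _ x hx
  have e2 : nth2 0 8 (tabW0 (blF 39547229899325569 8388608 S59 L59 (Nat.div (sgW 0 x) 8)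
    (Nat.mod (sgW 0 x) 8))) y = blF 39547229899325569 8388608 S59 L59 (Nat.div (sgW 0 x) 8)
    (Nat.mod (sgW 0 x) 8) (Nat.div (sgW 0 y) 8) (Nat.mod (sgW 0 y) 8) := tabW0_get _ _ y hy
  have e3 : nth2 [] 8 T59 x = lsW 39547229899325569 8388608 46 S59 W59 (Nat.div (sgW 0 x) 8) (Nat.mod (sgW 0 x) 8) :=
    tabW0_get _ _ x hx
  have e4 : nth2 [] 8 T59 y = lsW 39547229899325569 8388608 46 S59 W59 (Nat.div (sgW 0 y) 8) (Nat.mod (sgW 0 y) 8) :=
    tabW0_get _ _ y hy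
  rw [e1, e2, e3, e4]
  exact blF_eq 39547229899325569 8388608 46 S59 6 W59 (by norm_num) z59 _ _ _ _

/-- The arrays of the pair `60`. -/
noncomputable def L60 : List O8 := bld W60 (nat_lit 6) []

/-- The blocks of the pair `60`. -/
noncomputable def G60 : List (List (List (List Nat))) :=
  tabW1 (fun h l => tabW1 (blF (nat_lit 39547229899325569) (nat_lit 8388608) S60 L60 h l))

theorem y60 : ∀ k < 2, W60 (46 + k) = 0 := by decide +kernel

theorem z60 : ∀ j, 46 ≤ j → j < 8 * 6 → W60 j = 0 := by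
  intro j h1 h2
  have h3 := y60 (j - 46) (by omega)
  rw [Nat.add_sub_cancel' h1] at h3
  exact h3

theorem g60 : ∀ x < 64, ∀ y < 64,
    nth2 0 8 (nth2 [] 8 G60 x) y = blL (nth2 [] 8 T60 x) (nth2 [] 8 T60 y) := by
  intro x hx y hy
  have e1 : nth2 [] 8 G60 x = tabW1 (blF 39547229899325569 8388608 S60 L60 (Nat.div (sgW 1 x) 8)
    (Nat.mod (sgW 1 x) 8)) := tabW1_get _ _ x hx
  have e2 : nth2 0 8 (tabW1 (blF 39547229899325569 8388608 S60 L60 (Nat.div (sgW 1 x) 8)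
    (Nat.mod (sgW 1 x) 8))) y = blF 39547229899325569 8388608 S60 L60 (Nat.div (sgW 1 x) 8)
    (Nat.mod (sgW 1 x) 8) (Nat.div (sgW 1 y) 8) (Nat.mod (sgW 1 y) 8) := tabW1_get _ _ y hy
  have e3 : nth2 [] 8 T60 x = lsW 39547229899325569 8388608 46 S60 W60 (Nat.div (sgW 1 x) 8) (Nat.mod (sgW 1 x) 8) :=
    tabW1_get _ _ x hx
  have e4 : nth2 [] 8 T60 y = lsW 39547229899325569 8388608 46 S60 W60 (Nat.div (sgW 1 y) 8) (Nat.mod (sgW 1 y) 8) :=
    tabW1_get _ _ y hy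
  rw [e1, e2, e3, e4]
  exact blF_eq 39547229899325569 8388608 46 S60 6 W60 (by norm_num) z60 _ _ _ _

/-- The arrays of the pair `61`. -/
noncomputable def L61 : List O8 := bld W61 (nat_lit 6) []

/-- The blocks of the pair `61`. -/
noncomputable def G61 : List (List (List (List Nat))) :=
  tabW3 (fun h l => tabW3 (blF (nat_lit 39547229899325569) (nat_lit 8388608) S61 L61 h l))

theorem y61 : ∀ k < 2, W61 (46 + k) = 0 := by decide +kernel

theorem z61 : ∀ j, 46 ≤ j → j < 8 * 6 → W61 j = 0 := by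
  intro j h1 h2
  have h3 := y61 (j - 46) (by omega)
  rw [Nat.add_sub_cancel' h1] at h3
  exact h3

theorem g61 : ∀ x < 64, ∀ y < 64,
    nth2 0 8 (nth2 [] 8 G61 x) y = blL (nth2 [] 8 T61 x) (nth2 [] 8 T61 y) := by
  intro x hx y hy
  have e1 : nth2 [] 8 G61 x = tabW3 (blF 39547229899325569 8388608 S61 L61 (Nat.div (sgW 3 x) 8)
    (Nat.mod (sgW 3 x) 8)) := tabW3_get _ _ x hx
  have e2 : nth2 0 8 (tabW3 (blF 39547229899325569 8388608 S61 L61 (Nat.div (sgW 3 x) 8)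
    (Nat.mod (sgW 3 x) 8))) y = blF 39547229899325569 8388608 S61 L61 (Nat.div (sgW 3 x) 8)
    (Nat.mod (sgW 3 x) 8) (Nat.div (sgW 3 y) 8) (Nat.mod (sgW 3 y) 8) := tabW3_get _ _ y hy
  have e3 : nth2 [] 8 T61 x = lsW 39547229899325569 8388608 46 S61 W61 (Nat.div (sgW 3 x) 8) (Nat.mod (sgW 3 x) 8) :=
    tabW3_get _ _ x hx
  have e4 : nth2 [] 8 T61 y = lsW 39547229899325569 8388608 46 S61 W61 (Nat.div (sgW 3 y) 8) (Nat.mod (sgW 3 y) 8) :=
    tabW3_get _ _ y hy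
  rw [e1, e2, e3, e4]
  exact blF_eq 39547229899325569 8388608 46 S61 6 W61 (by norm_num) z61 _ _ _ _

/-- The arrays of the pair `62`. -/
noncomputable def L62 : List O8 := bld W62 (nat_lit 6) []

/-- The blocks of the pair `62`. -/
noncomputable def G62 : List (List (List (List Nat))) :=
  tabW4 (fun h l => tabW4 (blF (nat_lit 39547229899325569) (nat_lit 8388608) S62 L62 h l))

theorem y62 : ∀ k < 2, W62 (46 + k) = 0 := by decide +kernel

theorem z62 : ∀ j, 46 ≤ j → j < 8 * 6 → W62 j = 0 := by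
  intro j h1 h2
  have h3 := y62 (j - 46) (by omega)
  rw [Nat.add_sub_cancel' h1] at h3
  exact h3

theorem g62 : ∀ x < 64, ∀ y < 64,
    nth2 0 8 (nth2 [] 8 G62 x) y = blL (nth2 [] 8 T62 x) (nth2 [] 8 T62 y) := by
  intro x hx y hy
  have e1 : nth2 [] 8 G62 x = tabW4 (blF 39547229899325569 8388608 S62 L62 (Nat.div (sgW 4 x) 8)
    (Nat.mod (sgW 4 x) 8)) := tabW4_get _ _ x hx
  have e2 : nth2 0 8 (tabW4 (blF 39547229899325569 8388608 S62 L62 (Nat.div (sgW 4 x) 8)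
    (Nat.mod (sgW 4 x) 8))) y = blF 39547229899325569 8388608 S62 L62 (Nat.div (sgW 4 x) 8)
    (Nat.mod (sgW 4 x) 8) (Nat.div (sgW 4 y) 8) (Nat.mod (sgW 4 y) 8) := tabW4_get _ _ y hy
  have e3 : nth2 [] 8 T62 x = lsW 39547229899325569 8388608 46 S62 W62 (Nat.div (sgW 4 x) 8) (Nat.mod (sgW 4 x) 8) :=
    tabW4_get _ _ x hx
  have e4 : nth2 [] 8 T62 y = lsW 39547229899325569 8388608 46 S62 W62 (Nat.div (sgW 4 y) 8) (Nat.mod (sgW 4 y) 8) :=
    tabW4_get _ _ y hy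
  rw [e1, e2, e3, e4]
  exact blF_eq 39547229899325569 8388608 46 S62 6 W62 (by norm_num) z62 _ _ _ _

/-- The arrays of the pair `63`. -/
noncomputable def L63 : List O8 := bld W63 (nat_lit 8) []

/-- The blocks of the pair `63`. -/
noncomputable def G63 : List (List (List (List Nat))) :=
  tabW0 (fun h l => tabW0 (blF (nat_lit 40391654829457537) (nat_lit 8388608) S63 L63 h l))

theorem y63 : ∀ k < 6, W63 (58 + k) = 0 := by decide +kernel

theorem z63 : ∀ j, 58 ≤ j → j < 8 * 8 → W63 j = 0 := by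
  intro j h1 h2
  have h3 := y63 (j - 58) (by omega)
  rw [Nat.add_sub_cancel' h1] at h3
  exact h3

theorem g63 : ∀ x < 64, ∀ y < 64,
    nth2 0 8 (nth2 [] 8 G63 x) y = blL (nth2 [] 8 T63 x) (nth2 [] 8 T63 y) := by
  intro x hx y hy
  have e1 : nth2 [] 8 G63 x = tabW0 (blF 40391654829457537 8388608 S63 L63 (Nat.div (sgW 0 x) 8)
    (Nat.mod (sgW 0 x) 8)) := tabW0_get _ _ x hx
  have e2 : nth2 0 8 (tabW0 (blF 40391654829457537 8388608 S63 L63 (Nat.div (sgW 0 x) 8)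
    (Nat.mod (sgW 0 x) 8))) y = blF 40391654829457537 8388608 S63 L63 (Nat.div (sgW 0 x) 8)
    (Nat.mod (sgW 0 x) 8) (Nat.div (sgW 0 y) 8) (Nat.mod (sgW 0 y) 8) := tabW0_get _ _ y hy
  have e3 : nth2 [] 8 T63 x = lsW 40391654829457537 8388608 58 S63 W63 (Nat.div (sgW 0 x) 8) (Nat.mod (sgW 0 x) 8) :=
    tabW0_get _ _ x hx
  have e4 : nth2 [] 8 T63 y = lsW 40391654829457537 8388608 58 S63 W63 (Nat.div (sgW 0 y) 8) (Nat.mod (sgW 0 y) 8) :=
    tabW0_get _ _ y hy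
  rw [e1, e2, e3, e4]
  exact blF_eq 40391654829457537 8388608 58 S63 8 W63 (by norm_num) z63 _ _ _ _

/-- The arrays of the pair `64`. -/
noncomputable def L64 : List O8 := bld W64 (nat_lit 8) []

/-- The blocks of the pair `64`. -/
noncomputable def G64 : List (List (List (List Nat))) :=
  tabW1 (fun h l => tabW1 (blF (nat_lit 40391654829457537) (nat_lit 8388608) S64 L64 h l))

theorem y64 : ∀ k < 6, W64 (58 + k) = 0 := by decide +kernel

theorem z64 : ∀ j, 58 ≤ j → j < 8 * 8 → W64 j = 0 := by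
  intro j h1 h2
  have h3 := y64 (j - 58) (by omega)
  rw [Nat.add_sub_cancel' h1] at h3
  exact h3

theorem g64 : ∀ x < 64, ∀ y < 64,
    nth2 0 8 (nth2 [] 8 G64 x) y = blL (nth2 [] 8 T64 x) (nth2 [] 8 T64 y) := by
  intro x hx y hy
  have e1 : nth2 [] 8 G64 x = tabW1 (blF 40391654829457537 8388608 S64 L64 (Nat.div (sgW 1 x) 8)
    (Nat.mod (sgW 1 x) 8)) := tabW1_get _ _ x hx
  have e2 : nth2 0 8 (tabW1 (blF 40391654829457537 8388608 S64 L64 (Nat.div (sgW 1 x) 8)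
    (Nat.mod (sgW 1 x) 8))) y = blF 40391654829457537 8388608 S64 L64 (Nat.div (sgW 1 x) 8)
    (Nat.mod (sgW 1 x) 8) (Nat.div (sgW 1 y) 8) (Nat.mod (sgW 1 y) 8) := tabW1_get _ _ y hy
  have e3 : nth2 [] 8 T64 x = lsW 40391654829457537 8388608 58 S64 W64 (Nat.div (sgW 1 x) 8) (Nat.mod (sgW 1 x) 8) :=
    tabW1_get _ _ x hx
  have e4 : nth2 [] 8 T64 y = lsW 40391654829457537 8388608 58 S64 W64 (Nat.div (sgW 1 y) 8) (Nat.mod (sgW 1 y) 8) :=
    tabW1_get _ _ y hy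
  rw [e1, e2, e3, e4]
  exact blF_eq 40391654829457537 8388608 58 S64 8 W64 (by norm_num) z64 _ _ _ _

/-- The arrays of the pair `65`. -/
noncomputable def L65 : List O8 := bld W65 (nat_lit 8) []

/-- The blocks of the pair `65`. -/
noncomputable def G65 : List (List (List (List Nat))) :=
  tabW2 (fun h l => tabW2 (blF (nat_lit 40391654829457537) (nat_lit 8388608) S65 L65 h l))

theorem y65 : ∀ k < 6, W65 (58 + k) = 0 := by decide +kernel

theorem z65 : ∀ j, 58 ≤ j → j < 8 * 8 → W65 j = 0 := by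
  intro j h1 h2
  have h3 := y65 (j - 58) (by omega)
  rw [Nat.add_sub_cancel' h1] at h3
  exact h3

theorem g65 : ∀ x < 64, ∀ y < 64,
    nth2 0 8 (nth2 [] 8 G65 x) y = blL (nth2 [] 8 T65 x) (nth2 [] 8 T65 y) := by
  intro x hx y hy
  have e1 : nth2 [] 8 G65 x = tabW2 (blF 40391654829457537 8388608 S65 L65 (Nat.div (sgW 2 x) 8)
    (Nat.mod (sgW 2 x) 8)) := tabW2_get _ _ x hx
  have e2 : nth2 0 8 (tabW2 (blF 40391654829457537 8388608 S65 L65 (Nat.div (sgW 2 x) 8)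
    (Nat.mod (sgW 2 x) 8))) y = blF 40391654829457537 8388608 S65 L65 (Nat.div (sgW 2 x) 8)
    (Nat.mod (sgW 2 x) 8) (Nat.div (sgW 2 y) 8) (Nat.mod (sgW 2 y) 8) := tabW2_get _ _ y hy
  have e3 : nth2 [] 8 T65 x = lsW 40391654829457537 8388608 58 S65 W65 (Nat.div (sgW 2 x) 8) (Nat.mod (sgW 2 x) 8) :=
    tabW2_get _ _ x hx
  have e4 : nth2 [] 8 T65 y = lsW 40391654829457537 8388608 58 S65 W65 (Nat.div (sgW 2 y) 8) (Nat.mod (sgW 2 y) 8) :=
    tabW2_get _ _ y hy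
  rw [e1, e2, e3, e4]
  exact blF_eq 40391654829457537 8388608 58 S65 8 W65 (by norm_num) z65 _ _ _ _

/-- The arrays of the pair `66`. -/
noncomputable def L66 : List O8 := bld W66 (nat_lit 8) []

/-- The blocks of the pair `66`. -/
noncomputable def G66 : List (List (List (List Nat))) :=
  tabW4 (fun h l => tabW4 (blF (nat_lit 40391654829457537) (nat_lit 8388608) S66 L66 h l))

theorem y66 : ∀ k < 6, W66 (58 + k) = 0 := by decide +kernel

theorem z66 : ∀ j, 58 ≤ j → j < 8 * 8 → W66 j = 0 := by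
  intro j h1 h2
  have h3 := y66 (j - 58) (by omega)
  rw [Nat.add_sub_cancel' h1] at h3
  exact h3

theorem g66 : ∀ x < 64, ∀ y < 64,
    nth2 0 8 (nth2 [] 8 G66 x) y = blL (nth2 [] 8 T66 x) (nth2 [] 8 T66 y) := by
  intro x hx y hy
  have e1 : nth2 [] 8 G66 x = tabW4 (blF 40391654829457537 8388608 S66 L66 (Nat.div (sgW 4 x) 8)
    (Nat.mod (sgW 4 x) 8)) := tabW4_get _ _ x hx
  have e2 : nth2 0 8 (tabW4 (blF 40391654829457537 8388608 S66 L66 (Nat.div (sgW 4 x) 8)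
    (Nat.mod (sgW 4 x) 8))) y = blF 40391654829457537 8388608 S66 L66 (Nat.div (sgW 4 x) 8)
    (Nat.mod (sgW 4 x) 8) (Nat.div (sgW 4 y) 8) (Nat.mod (sgW 4 y) 8) := tabW4_get _ _ y hy
  have e3 : nth2 [] 8 T66 x = lsW 40391654829457537 8388608 58 S66 W66 (Nat.div (sgW 4 x) 8) (Nat.mod (sgW 4 x) 8) :=
    tabW4_get _ _ x hx
  have e4 : nth2 [] 8 T66 y = lsW 40391654829457537 8388608 58 S66 W66 (Nat.div (sgW 4 y) 8) (Nat.mod (sgW 4 y) 8) :=
    tabW4_get _ _ y hy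
  rw [e1, e2, e3, e4]
  exact blF_eq 40391654829457537 8388608 58 S66 8 W66 (by norm_num) z66 _ _ _ _

/-- The arrays of the pair `67`. -/
noncomputable def L67 : List O8 := bld W67 (nat_lit 9) []

/-- The blocks of the pair `67`. -/
noncomputable def G67 : List (List (List (List Nat))) :=
  tabW0 (fun h l => tabW0 (blF (nat_lit 41165711015411841) (nat_lit 8388608) S67 L67 h l))

theorem y67 : ∀ k < 3, W67 (69 + k) = 0 := by decide +kernel

theorem z67 : ∀ j, 69 ≤ j → j < 8 * 9 → W67 j = 0 := by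
  intro j h1 h2
  have h3 := y67 (j - 69) (by omega)
  rw [Nat.add_sub_cancel' h1] at h3
  exact h3

theorem g67 : ∀ x < 64, ∀ y < 64,
    nth2 0 8 (nth2 [] 8 G67 x) y = blL (nth2 [] 8 T67 x) (nth2 [] 8 T67 y) := by
  intro x hx y hy
  have e1 : nth2 [] 8 G67 x = tabW0 (blF 41165711015411841 8388608 S67 L67 (Nat.div (sgW 0 x) 8)
    (Nat.mod (sgW 0 x) 8)) := tabW0_get _ _ x hx
  have e2 : nth2 0 8 (tabW0 (blF 41165711015411841 8388608 S67 L67 (Nat.div (sgW 0 x) 8)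
    (Nat.mod (sgW 0 x) 8))) y = blF 41165711015411841 8388608 S67 L67 (Nat.div (sgW 0 x) 8)
    (Nat.mod (sgW 0 x) 8) (Nat.div (sgW 0 y) 8) (Nat.mod (sgW 0 y) 8) := tabW0_get _ _ y hy
  have e3 : nth2 [] 8 T67 x = lsW 41165711015411841 8388608 69 S67 W67 (Nat.div (sgW 0 x) 8) (Nat.mod (sgW 0 x) 8) :=
    tabW0_get _ _ x hx
  have e4 : nth2 [] 8 T67 y = lsW 41165711015411841 8388608 69 S67 W67 (Nat.div (sgW 0 y) 8) (Nat.mod (sgW 0 y) 8) :=
    tabW0_get _ _ y hy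
  rw [e1, e2, e3, e4]
  exact blF_eq 41165711015411841 8388608 69 S67 9 W67 (by norm_num) z67 _ _ _ _

/-- The arrays of the pair `68`. -/
noncomputable def L68 : List O8 := bld W68 (nat_lit 9) []

/-- The blocks of the pair `68`. -/
noncomputable def G68 : List (List (List (List Nat))) :=
  tabW1 (fun h l => tabW1 (blF (nat_lit 41165711015411841) (nat_lit 8388608) S68 L68 h l))

theorem y68 : ∀ k < 3, W68 (69 + k) = 0 := by decide +kernel

theorem z68 : ∀ j, 69 ≤ j → j < 8 * 9 → W68 j = 0 := by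
  intro j h1 h2
  have h3 := y68 (j - 69) (by omega)
  rw [Nat.add_sub_cancel' h1] at h3
  exact h3

theorem g68 : ∀ x < 64, ∀ y < 64,
    nth2 0 8 (nth2 [] 8 G68 x) y = blL (nth2 [] 8 T68 x) (nth2 [] 8 T68 y) := by
  intro x hx y hy
  have e1 : nth2 [] 8 G68 x = tabW1 (blF 41165711015411841 8388608 S68 L68 (Nat.div (sgW 1 x) 8)
    (Nat.mod (sgW 1 x) 8)) := tabW1_get _ _ x hx
  have e2 : nth2 0 8 (tabW1 (blF 41165711015411841 8388608 S68 L68 (Nat.div (sgW 1 x) 8)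
    (Nat.mod (sgW 1 x) 8))) y = blF 41165711015411841 8388608 S68 L68 (Nat.div (sgW 1 x) 8)
    (Nat.mod (sgW 1 x) 8) (Nat.div (sgW 1 y) 8) (Nat.mod (sgW 1 y) 8) := tabW1_get _ _ y hy
  have e3 : nth2 [] 8 T68 x = lsW 41165711015411841 8388608 69 S68 W68 (Nat.div (sgW 1 x) 8) (Nat.mod (sgW 1 x) 8) :=
    tabW1_get _ _ x hx
  have e4 : nth2 [] 8 T68 y = lsW 41165711015411841 8388608 69 S68 W68 (Nat.div (sgW 1 y) 8) (Nat.mod (sgW 1 y) 8) :=
    tabW1_get _ _ y hy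
  rw [e1, e2, e3, e4]
  exact blF_eq 41165711015411841 8388608 69 S68 9 W68 (by norm_num) z68 _ _ _ _

/-- The arrays of the pair `69`. -/
noncomputable def L69 : List O8 := bld W69 (nat_lit 9) []

/-- The blocks of the pair `69`. -/
noncomputable def G69 : List (List (List (List Nat))) :=
  tabW4 (fun h l => tabW4 (blF (nat_lit 41165711015411841) (nat_lit 8388608) S69 L69 h l))

theorem y69 : ∀ k < 3, W69 (69 + k) = 0 := by decide +kernel

theorem z69 : ∀ j, 69 ≤ j → j < 8 * 9 → W69 j = 0 := by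
  intro j h1 h2
  have h3 := y69 (j - 69) (by omega)
  rw [Nat.add_sub_cancel' h1] at h3
  exact h3

theorem g69 : ∀ x < 64, ∀ y < 64,
    nth2 0 8 (nth2 [] 8 G69 x) y = blL (nth2 [] 8 T69 x) (nth2 [] 8 T69 y) := by
  intro x hx y hy
  have e1 : nth2 [] 8 G69 x = tabW4 (blF 41165711015411841 8388608 S69 L69 (Nat.div (sgW 4 x) 8)
    (Nat.mod (sgW 4 x) 8)) := tabW4_get _ _ x hx
  have e2 : nth2 0 8 (tabW4 (blF 41165711015411841 8388608 S69 L69 (Nat.div (sgW 4 x) 8)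
    (Nat.mod (sgW 4 x) 8))) y = blF 41165711015411841 8388608 S69 L69 (Nat.div (sgW 4 x) 8)
    (Nat.mod (sgW 4 x) 8) (Nat.div (sgW 4 y) 8) (Nat.mod (sgW 4 y) 8) := tabW4_get _ _ y hy
  have e3 : nth2 [] 8 T69 x = lsW 41165711015411841 8388608 69 S69 W69 (Nat.div (sgW 4 x) 8) (Nat.mod (sgW 4 x) 8) :=
    tabW4_get _ _ x hx
  have e4 : nth2 [] 8 T69 y = lsW 41165711015411841 8388608 69 S69 W69 (Nat.div (sgW 4 y) 8) (Nat.mod (sgW 4 y) 8) :=
    tabW4_get _ _ y hy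
  rw [e1, e2, e3, e4]
  exact blF_eq 41165711015411841 8388608 69 S69 9 W69 (by norm_num) z69 _ _ _ _

/-- The arrays of the pair `70`. -/
noncomputable def L70 : List O8 := bld W70 (nat_lit 9) []

/-- The blocks of the pair `70`. -/
noncomputable def G70 : List (List (List (List Nat))) :=
  tabW0 (fun h l => tabW0 (blF (nat_lit 41024973527056513) (nat_lit 8388608) S70 L70 h l))

theorem y70 : ∀ k < 5, W70 (67 + k) = 0 := by decide +kernel

theorem z70 : ∀ j, 67 ≤ j → j < 8 * 9 → W70 j = 0 := by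
  intro j h1 h2
  have h3 := y70 (j - 67) (by omega)
  rw [Nat.add_sub_cancel' h1] at h3
  exact h3

theorem g70 : ∀ x < 64, ∀ y < 64,
    nth2 0 8 (nth2 [] 8 G70 x) y = blL (nth2 [] 8 T70 x) (nth2 [] 8 T70 y) := by
  intro x hx y hy
  have e1 : nth2 [] 8 G70 x = tabW0 (blF 41024973527056513 8388608 S70 L70 (Nat.div (sgW 0 x) 8)
    (Nat.mod (sgW 0 x) 8)) := tabW0_get _ _ x hx
  have e2 : nth2 0 8 (tabW0 (blF 41024973527056513 8388608 S70 L70 (Nat.div (sgW 0 x) 8)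
    (Nat.mod (sgW 0 x) 8))) y = blF 41024973527056513 8388608 S70 L70 (Nat.div (sgW 0 x) 8)
    (Nat.mod (sgW 0 x) 8) (Nat.div (sgW 0 y) 8) (Nat.mod (sgW 0 y) 8) := tabW0_get _ _ y hy
  have e3 : nth2 [] 8 T70 x = lsW 41024973527056513 8388608 67 S70 W70 (Nat.div (sgW 0 x) 8) (Nat.mod (sgW 0 x) 8) :=
    tabW0_get _ _ x hx
  have e4 : nth2 [] 8 T70 y = lsW 41024973527056513 8388608 67 S70 W70 (Nat.div (sgW 0 y) 8) (Nat.mod (sgW 0 y) 8) :=
    tabW0_get _ _ y hy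
  rw [e1, e2, e3, e4]
  exact blF_eq 41024973527056513 8388608 67 S70 9 W70 (by norm_num) z70 _ _ _ _

/-- The arrays of the pair `71`. -/
noncomputable def L71 : List O8 := bld W71 (nat_lit 9) []

/-- The blocks of the pair `71`. -/
noncomputable def G71 : List (List (List (List Nat))) :=
  tabW4 (fun h l => tabW4 (blF (nat_lit 41024973527056513) (nat_lit 8388608) S71 L71 h l))

theorem y71 : ∀ k < 5, W71 (67 + k) = 0 := by decide +kernel

theorem z71 : ∀ j, 67 ≤ j → j < 8 * 9 → W71 j = 0 := by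
  intro j h1 h2
  have h3 := y71 (j - 67) (by omega)
  rw [Nat.add_sub_cancel' h1] at h3
  exact h3

theorem g71 : ∀ x < 64, ∀ y < 64,
    nth2 0 8 (nth2 [] 8 G71 x) y = blL (nth2 [] 8 T71 x) (nth2 [] 8 T71 y) := by
  intro x hx y hy
  have e1 : nth2 [] 8 G71 x = tabW4 (blF 41024973527056513 8388608 S71 L71 (Nat.div (sgW 4 x) 8)
    (Nat.mod (sgW 4 x) 8)) := tabW4_get _ _ x hx
  have e2 : nth2 0 8 (tabW4 (blF 41024973527056513 8388608 S71 L71 (Nat.div (sgW 4 x) 8)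
    (Nat.mod (sgW 4 x) 8))) y = blF 41024973527056513 8388608 S71 L71 (Nat.div (sgW 4 x) 8)
    (Nat.mod (sgW 4 x) 8) (Nat.div (sgW 4 y) 8) (Nat.mod (sgW 4 y) 8) := tabW4_get _ _ y hy
  have e3 : nth2 [] 8 T71 x = lsW 41024973527056513 8388608 67 S71 W71 (Nat.div (sgW 4 x) 8) (Nat.mod (sgW 4 x) 8) :=
    tabW4_get _ _ x hx
  have e4 : nth2 [] 8 T71 y = lsW 41024973527056513 8388608 67 S71 W71 (Nat.div (sgW 4 y) 8) (Nat.mod (sgW 4 y) 8) :=
    tabW4_get _ _ y hy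
  rw [e1, e2, e3, e4]
  exact blF_eq 41024973527056513 8388608 67 S71 9 W71 (by norm_num) z71 _ _ _ _

/-- The arrays of the pair `72`. -/
noncomputable def L72 : List O8 := bld W72 (nat_lit 11) []

/-- The blocks of the pair `72`. -/
noncomputable def G72 : List (List (List (List Nat))) :=
  tabW0 (fun h l => tabW0 (blF (nat_lit 42432348410609793) (nat_lit 8388608) S72 L72 h l))

theorem y72 : ∀ k < 1, W72 (87 + k) = 0 := by decide +kernel

theorem z72 : ∀ j, 87 ≤ j → j < 8 * 11 → W72 j = 0 := by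
  intro j h1 h2
  have h3 := y72 (j - 87) (by omega)
  rw [Nat.add_sub_cancel' h1] at h3
  exact h3

theorem g72 : ∀ x < 64, ∀ y < 64,
    nth2 0 8 (nth2 [] 8 G72 x) y = blL (nth2 [] 8 T72 x) (nth2 [] 8 T72 y) := by
  intro x hx y hy
  have e1 : nth2 [] 8 G72 x = tabW0 (blF 42432348410609793 8388608 S72 L72 (Nat.div (sgW 0 x) 8)
    (Nat.mod (sgW 0 x) 8)) := tabW0_get _ _ x hx
  have e2 : nth2 0 8 (tabW0 (blF 42432348410609793 8388608 S72 L72 (Nat.div (sgW 0 x) 8)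
    (Nat.mod (sgW 0 x) 8))) y = blF 42432348410609793 8388608 S72 L72 (Nat.div (sgW 0 x) 8)
    (Nat.mod (sgW 0 x) 8) (Nat.div (sgW 0 y) 8) (Nat.mod (sgW 0 y) 8) := tabW0_get _ _ y hy
  have e3 : nth2 [] 8 T72 x = lsW 42432348410609793 8388608 87 S72 W72 (Nat.div (sgW 0 x) 8) (Nat.mod (sgW 0 x) 8) :=
    tabW0_get _ _ x hx
  have e4 : nth2 [] 8 T72 y = lsW 42432348410609793 8388608 87 S72 W72 (Nat.div (sgW 0 y) 8) (Nat.mod (sgW 0 y) 8) :=
    tabW0_get _ _ y hy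
  rw [e1, e2, e3, e4]
  exact blF_eq 42432348410609793 8388608 87 S72 11 W72 (by norm_num) z72 _ _ _ _

/-- The arrays of the pair `73`. -/
noncomputable def L73 : List O8 := bld W73 (nat_lit 7) []

/-- The blocks of the pair `73`. -/
noncomputable def G73 : List (List (List (List Nat))) :=
  tabW0 (fun h l => tabW0 (blF (nat_lit 39899073620213889) (nat_lit 8388608) S73 L73 h l))

theorem y73 : ∀ k < 5, W73 (51 + k) = 0 := by decide +kernel

theorem z73 : ∀ j, 51 ≤ j → j < 8 * 7 → W73 j = 0 := by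
  intro j h1 h2
  have h3 := y73 (j - 51) (by omega)
  rw [Nat.add_sub_cancel' h1] at h3
  exact h3

theorem g73 : ∀ x < 64, ∀ y < 64,
    nth2 0 8 (nth2 [] 8 G73 x) y = blL (nth2 [] 8 T73 x) (nth2 [] 8 T73 y) := by
  intro x hx y hy
  have e1 : nth2 [] 8 G73 x = tabW0 (blF 39899073620213889 8388608 S73 L73 (Nat.div (sgW 0 x) 8)
    (Nat.mod (sgW 0 x) 8)) := tabW0_get _ _ x hx
  have e2 : nth2 0 8 (tabW0 (blF 39899073620213889 8388608 S73 L73 (Nat.div (sgW 0 x) 8)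
    (Nat.mod (sgW 0 x) 8))) y = blF 39899073620213889 8388608 S73 L73 (Nat.div (sgW 0 x) 8)
    (Nat.mod (sgW 0 x) 8) (Nat.div (sgW 0 y) 8) (Nat.mod (sgW 0 y) 8) := tabW0_get _ _ y hy
  have e3 : nth2 [] 8 T73 x = lsW 39899073620213889 8388608 51 S73 W73 (Nat.div (sgW 0 x) 8) (Nat.mod (sgW 0 x) 8) :=
    tabW0_get _ _ x hx
  have e4 : nth2 [] 8 T73 y = lsW 39899073620213889 8388608 51 S73 W73 (Nat.div (sgW 0 y) 8) (Nat.mod (sgW 0 y) 8) :=
    tabW0_get _ _ y hy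
  rw [e1, e2, e3, e4]
  exact blF_eq 39899073620213889 8388608 51 S73 7 W73 (by norm_num) z73 _ _ _ _

/-- The arrays of the pair `74`. -/
noncomputable def L74 : List O8 := bld W74 (nat_lit 7) []

/-- The blocks of the pair `74`. -/
noncomputable def G74 : List (List (List (List Nat))) :=
  tabW1 (fun h l => tabW1 (blF (nat_lit 39899073620213889) (nat_lit 8388608) S74 L74 h l))

theorem y74 : ∀ k < 5, W74 (51 + k) = 0 := by decide +kernel

theorem z74 : ∀ j, 51 ≤ j → j < 8 * 7 → W74 j = 0 := by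
  intro j h1 h2
  have h3 := y74 (j - 51) (by omega)
  rw [Nat.add_sub_cancel' h1] at h3
  exact h3

theorem g74 : ∀ x < 64, ∀ y < 64,
    nth2 0 8 (nth2 [] 8 G74 x) y = blL (nth2 [] 8 T74 x) (nth2 [] 8 T74 y) := by
  intro x hx y hy
  have e1 : nth2 [] 8 G74 x = tabW1 (blF 39899073620213889 8388608 S74 L74 (Nat.div (sgW 1 x) 8)
    (Nat.mod (sgW 1 x) 8)) := tabW1_get _ _ x hx
  have e2 : nth2 0 8 (tabW1 (blF 39899073620213889 8388608 S74 L74 (Nat.div (sgW 1 x) 8)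
    (Nat.mod (sgW 1 x) 8))) y = blF 39899073620213889 8388608 S74 L74 (Nat.div (sgW 1 x) 8)
    (Nat.mod (sgW 1 x) 8) (Nat.div (sgW 1 y) 8) (Nat.mod (sgW 1 y) 8) := tabW1_get _ _ y hy
  have e3 : nth2 [] 8 T74 x = lsW 39899073620213889 8388608 51 S74 W74 (Nat.div (sgW 1 x) 8) (Nat.mod (sgW 1 x) 8) :=
    tabW1_get _ _ x hx
  have e4 : nth2 [] 8 T74 y = lsW 39899073620213889 8388608 51 S74 W74 (Nat.div (sgW 1 y) 8) (Nat.mod (sgW 1 y) 8) :=
    tabW1_get _ _ y hy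
  rw [e1, e2, e3, e4]
  exact blF_eq 39899073620213889 8388608 51 S74 7 W74 (by norm_num) z74 _ _ _ _

/-- The arrays of the pair `75`. -/
noncomputable def L75 : List O8 := bld W75 (nat_lit 7) []

/-- The blocks of the pair `75`. -/
noncomputable def G75 : List (List (List (List Nat))) :=
  tabW3 (fun h l => tabW3 (blF (nat_lit 39899073620213889) (nat_lit 8388608) S75 L75 h l))

theorem y75 : ∀ k < 5, W75 (51 + k) = 0 := by decide +kernel

theorem z75 : ∀ j, 51 ≤ j → j < 8 * 7 → W75 j = 0 := by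
  intro j h1 h2
  have h3 := y75 (j - 51) (by omega)
  rw [Nat.add_sub_cancel' h1] at h3
  exact h3

theorem g75 : ∀ x < 64, ∀ y < 64,
    nth2 0 8 (nth2 [] 8 G75 x) y = blL (nth2 [] 8 T75 x) (nth2 [] 8 T75 y) := by
  intro x hx y hy
  have e1 : nth2 [] 8 G75 x = tabW3 (blF 39899073620213889 8388608 S75 L75 (Nat.div (sgW 3 x) 8)
    (Nat.mod (sgW 3 x) 8)) := tabW3_get _ _ x hx
  have e2 : nth2 0 8 (tabW3 (blF 39899073620213889 8388608 S75 L75 (Nat.div (sgW 3 x) 8)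
    (Nat.mod (sgW 3 x) 8))) y = blF 39899073620213889 8388608 S75 L75 (Nat.div (sgW 3 x) 8)
    (Nat.mod (sgW 3 x) 8) (Nat.div (sgW 3 y) 8) (Nat.mod (sgW 3 y) 8) := tabW3_get _ _ y hy
  have e3 : nth2 [] 8 T75 x = lsW 39899073620213889 8388608 51 S75 W75 (Nat.div (sgW 3 x) 8) (Nat.mod (sgW 3 x) 8) :=
    tabW3_get _ _ x hx
  have e4 : nth2 [] 8 T75 y = lsW 39899073620213889 8388608 51 S75 W75 (Nat.div (sgW 3 y) 8) (Nat.mod (sgW 3 y) 8) :=
    tabW3_get _ _ y hy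
  rw [e1, e2, e3, e4]
  exact blF_eq 39899073620213889 8388608 51 S75 7 W75 (by norm_num) z75 _ _ _ _

/-- The arrays of the pair `76`. -/
noncomputable def L76 : List O8 := bld W76 (nat_lit 7) []

/-- The blocks of the pair `76`. -/
noncomputable def G76 : List (List (List (List Nat))) :=
  tabW0 (fun h l => tabW0 (blF (nat_lit 40180548596924545) (nat_lit 8388608) S76 L76 h l))

theorem y76 : ∀ k < 1, W76 (55 + k) = 0 := by decide +kernel

theorem z76 : ∀ j, 55 ≤ j → j < 8 * 7 → W76 j = 0 := by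
  intro j h1 h2
  have h3 := y76 (j - 55) (by omega)
  rw [Nat.add_sub_cancel' h1] at h3
  exact h3

theorem g76 : ∀ x < 64, ∀ y < 64,
    nth2 0 8 (nth2 [] 8 G76 x) y = blL (nth2 [] 8 T76 x) (nth2 [] 8 T76 y) := by
  intro x hx y hy
  have e1 : nth2 [] 8 G76 x = tabW0 (blF 40180548596924545 8388608 S76 L76 (Nat.div (sgW 0 x) 8)
    (Nat.mod (sgW 0 x) 8)) := tabW0_get _ _ x hx
  have e2 : nth2 0 8 (tabW0 (blF 40180548596924545 8388608 S76 L76 (Nat.div (sgW 0 x) 8)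
    (Nat.mod (sgW 0 x) 8))) y = blF 40180548596924545 8388608 S76 L76 (Nat.div (sgW 0 x) 8)
    (Nat.mod (sgW 0 x) 8) (Nat.div (sgW 0 y) 8) (Nat.mod (sgW 0 y) 8) := tabW0_get _ _ y hy
  have e3 : nth2 [] 8 T76 x = lsW 40180548596924545 8388608 55 S76 W76 (Nat.div (sgW 0 x) 8) (Nat.mod (sgW 0 x) 8) :=
    tabW0_get _ _ x hx
  have e4 : nth2 [] 8 T76 y = lsW 40180548596924545 8388608 55 S76 W76 (Nat.div (sgW 0 y) 8) (Nat.mod (sgW 0 y) 8) :=
    tabW0_get _ _ y hy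
  rw [e1, e2, e3, e4]
  exact blF_eq 40180548596924545 8388608 55 S76 7 W76 (by norm_num) z76 _ _ _ _

/-- The arrays of the pair `77`. -/
noncomputable def L77 : List O8 := bld W77 (nat_lit 7) []

/-- The blocks of the pair `77`. -/
noncomputable def G77 : List (List (List (List Nat))) :=
  tabW2 (fun h l => tabW2 (blF (nat_lit 40180548596924545) (nat_lit 8388608) S77 L77 h l))

theorem y77 : ∀ k < 1, W77 (55 + k) = 0 := by decide +kernel

theorem z77 : ∀ j, 55 ≤ j → j < 8 * 7 → W77 j = 0 := by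
  intro j h1 h2
  have h3 := y77 (j - 55) (by omega)
  rw [Nat.add_sub_cancel' h1] at h3
  exact h3

theorem g77 : ∀ x < 64, ∀ y < 64,
    nth2 0 8 (nth2 [] 8 G77 x) y = blL (nth2 [] 8 T77 x) (nth2 [] 8 T77 y) := by
  intro x hx y hy
  have e1 : nth2 [] 8 G77 x = tabW2 (blF 40180548596924545 8388608 S77 L77 (Nat.div (sgW 2 x) 8)
    (Nat.mod (sgW 2 x) 8)) := tabW2_get _ _ x hx
  have e2 : nth2 0 8 (tabW2 (blF 40180548596924545 8388608 S77 L77 (Nat.div (sgW 2 x) 8)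
    (Nat.mod (sgW 2 x) 8))) y = blF 40180548596924545 8388608 S77 L77 (Nat.div (sgW 2 x) 8)
    (Nat.mod (sgW 2 x) 8) (Nat.div (sgW 2 y) 8) (Nat.mod (sgW 2 y) 8) := tabW2_get _ _ y hy
  have e3 : nth2 [] 8 T77 x = lsW 40180548596924545 8388608 55 S77 W77 (Nat.div (sgW 2 x) 8) (Nat.mod (sgW 2 x) 8) :=
    tabW2_get _ _ x hx
  have e4 : nth2 [] 8 T77 y = lsW 40180548596924545 8388608 55 S77 W77 (Nat.div (sgW 2 y) 8) (Nat.mod (sgW 2 y) 8) :=
    tabW2_get _ _ y hy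
  rw [e1, e2, e3, e4]
  exact blF_eq 40180548596924545 8388608 55 S77 7 W77 (by norm_num) z77 _ _ _ _

/-- The arrays of the pair `78`. -/
noncomputable def L78 : List O8 := bld W78 (nat_lit 7) []

/-- The blocks of the pair `78`. -/
noncomputable def G78 : List (List (List (List Nat))) :=
  tabW4 (fun h l => tabW4 (blF (nat_lit 40180548596924545) (nat_lit 8388608) S78 L78 h l))

theorem y78 : ∀ k < 1, W78 (55 + k) = 0 := by decide +kernel

theorem z78 : ∀ j, 55 ≤ j → j < 8 * 7 → W78 j = 0 := by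
  intro j h1 h2
  have h3 := y78 (j - 55) (by omega)
  rw [Nat.add_sub_cancel' h1] at h3
  exact h3

theorem g78 : ∀ x < 64, ∀ y < 64,
    nth2 0 8 (nth2 [] 8 G78 x) y = blL (nth2 [] 8 T78 x) (nth2 [] 8 T78 y) := by
  intro x hx y hy
  have e1 : nth2 [] 8 G78 x = tabW4 (blF 40180548596924545 8388608 S78 L78 (Nat.div (sgW 4 x) 8)
    (Nat.mod (sgW 4 x) 8)) := tabW4_get _ _ x hx
  have e2 : nth2 0 8 (tabW4 (blF 40180548596924545 8388608 S78 L78 (Nat.div (sgW 4 x) 8)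
    (Nat.mod (sgW 4 x) 8))) y = blF 40180548596924545 8388608 S78 L78 (Nat.div (sgW 4 x) 8)
    (Nat.mod (sgW 4 x) 8) (Nat.div (sgW 4 y) 8) (Nat.mod (sgW 4 y) 8) := tabW4_get _ _ y hy
  have e3 : nth2 [] 8 T78 x = lsW 40180548596924545 8388608 55 S78 W78 (Nat.div (sgW 4 x) 8) (Nat.mod (sgW 4 x) 8) :=
    tabW4_get _ _ x hx
  have e4 : nth2 [] 8 T78 y = lsW 40180548596924545 8388608 55 S78 W78 (Nat.div (sgW 4 y) 8) (Nat.mod (sgW 4 y) 8) :=
    tabW4_get _ _ y hy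
  rw [e1, e2, e3, e4]
  exact blF_eq 40180548596924545 8388608 55 S78 7 W78 (by norm_num) z78 _ _ _ _

/-- The arrays of the pair `79`. -/
noncomputable def L79 : List O8 := bld W79 (nat_lit 8) []

/-- The blocks of the pair `79`. -/
noncomputable def G79 : List (List (List (List Nat))) :=
  tabW0 (fun h l => tabW0 (blF (nat_lit 40673129806168193) (nat_lit 8388608) S79 L79 h l))

theorem y79 : ∀ k < 2, W79 (62 + k) = 0 := by decide +kernel

theorem z79 : ∀ j, 62 ≤ j → j < 8 * 8 → W79 j = 0 := by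
  intro j h1 h2
  have h3 := y79 (j - 62) (by omega)
  rw [Nat.add_sub_cancel' h1] at h3
  exact h3

theorem g79 : ∀ x < 64, ∀ y < 64,
    nth2 0 8 (nth2 [] 8 G79 x) y = blL (nth2 [] 8 T79 x) (nth2 [] 8 T79 y) := by
  intro x hx y hy
  have e1 : nth2 [] 8 G79 x = tabW0 (blF 40673129806168193 8388608 S79 L79 (Nat.div (sgW 0 x) 8)
    (Nat.mod (sgW 0 x) 8)) := tabW0_get _ _ x hx
  have e2 : nth2 0 8 (tabW0 (blF 40673129806168193 8388608 S79 L79 (Nat.div (sgW 0 x) 8)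
    (Nat.mod (sgW 0 x) 8))) y = blF 40673129806168193 8388608 S79 L79 (Nat.div (sgW 0 x) 8)
    (Nat.mod (sgW 0 x) 8) (Nat.div (sgW 0 y) 8) (Nat.mod (sgW 0 y) 8) := tabW0_get _ _ y hy
  have e3 : nth2 [] 8 T79 x = lsW 40673129806168193 8388608 62 S79 W79 (Nat.div (sgW 0 x) 8) (Nat.mod (sgW 0 x) 8) :=
    tabW0_get _ _ x hx
  have e4 : nth2 [] 8 T79 y = lsW 40673129806168193 8388608 62 S79 W79 (Nat.div (sgW 0 y) 8) (Nat.mod (sgW 0 y) 8) :=
    tabW0_get _ _ y hy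
  rw [e1, e2, e3, e4]
  exact blF_eq 40673129806168193 8388608 62 S79 8 W79 (by norm_num) z79 _ _ _ _

/-- The arrays of the pair `80`. -/
noncomputable def L80 : List O8 := bld W80 (nat_lit 8) []

/-- The blocks of the pair `80`. -/
noncomputable def G80 : List (List (List (List Nat))) :=
  tabW1 (fun h l => tabW1 (blF (nat_lit 40673129806168193) (nat_lit 8388608) S80 L80 h l))

theorem y80 : ∀ k < 2, W80 (62 + k) = 0 := by decide +kernel

theorem z80 : ∀ j, 62 ≤ j → j < 8 * 8 → W80 j = 0 := by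
  intro j h1 h2
  have h3 := y80 (j - 62) (by omega)
  rw [Nat.add_sub_cancel' h1] at h3
  exact h3

theorem g80 : ∀ x < 64, ∀ y < 64,
    nth2 0 8 (nth2 [] 8 G80 x) y = blL (nth2 [] 8 T80 x) (nth2 [] 8 T80 y) := by
  intro x hx y hy
  have e1 : nth2 [] 8 G80 x = tabW1 (blF 40673129806168193 8388608 S80 L80 (Nat.div (sgW 1 x) 8)
    (Nat.mod (sgW 1 x) 8)) := tabW1_get _ _ x hx
  have e2 : nth2 0 8 (tabW1 (blF 40673129806168193 8388608 S80 L80 (Nat.div (sgW 1 x) 8)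
    (Nat.mod (sgW 1 x) 8))) y = blF 40673129806168193 8388608 S80 L80 (Nat.div (sgW 1 x) 8)
    (Nat.mod (sgW 1 x) 8) (Nat.div (sgW 1 y) 8) (Nat.mod (sgW 1 y) 8) := tabW1_get _ _ y hy
  have e3 : nth2 [] 8 T80 x = lsW 40673129806168193 8388608 62 S80 W80 (Nat.div (sgW 1 x) 8) (Nat.mod (sgW 1 x) 8) :=
    tabW1_get _ _ x hx
  have e4 : nth2 [] 8 T80 y = lsW 40673129806168193 8388608 62 S80 W80 (Nat.div (sgW 1 y) 8) (Nat.mod (sgW 1 y) 8) :=
    tabW1_get _ _ y hy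
  rw [e1, e2, e3, e4]
  exact blF_eq 40673129806168193 8388608 62 S80 8 W80 (by norm_num) z80 _ _ _ _

/-- The arrays of the pair `81`. -/
noncomputable def L81 : List O8 := bld W81 (nat_lit 8) []

/-- The blocks of the pair `81`. -/
noncomputable def G81 : List (List (List (List Nat))) :=
  tabW3 (fun h l => tabW3 (blF (nat_lit 40673129806168193) (nat_lit 8388608) S81 L81 h l))

theorem y81 : ∀ k < 2, W81 (62 + k) = 0 := by decide +kernel

theorem z81 : ∀ j, 62 ≤ j → j < 8 * 8 → W81 j = 0 := by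
  intro j h1 h2
  have h3 := y81 (j - 62) (by omega)
  rw [Nat.add_sub_cancel' h1] at h3
  exact h3

theorem g81 : ∀ x < 64, ∀ y < 64,
    nth2 0 8 (nth2 [] 8 G81 x) y = blL (nth2 [] 8 T81 x) (nth2 [] 8 T81 y) := by
  intro x hx y hy
  have e1 : nth2 [] 8 G81 x = tabW3 (blF 40673129806168193 8388608 S81 L81 (Nat.div (sgW 3 x) 8)
    (Nat.mod (sgW 3 x) 8)) := tabW3_get _ _ x hx
  have e2 : nth2 0 8 (tabW3 (blF 40673129806168193 8388608 S81 L81 (Nat.div (sgW 3 x) 8)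
    (Nat.mod (sgW 3 x) 8))) y = blF 40673129806168193 8388608 S81 L81 (Nat.div (sgW 3 x) 8)
    (Nat.mod (sgW 3 x) 8) (Nat.div (sgW 3 y) 8) (Nat.mod (sgW 3 y) 8) := tabW3_get _ _ y hy
  have e3 : nth2 [] 8 T81 x = lsW 40673129806168193 8388608 62 S81 W81 (Nat.div (sgW 3 x) 8) (Nat.mod (sgW 3 x) 8) :=
    tabW3_get _ _ x hx
  have e4 : nth2 [] 8 T81 y = lsW 40673129806168193 8388608 62 S81 W81 (Nat.div (sgW 3 y) 8) (Nat.mod (sgW 3 y) 8) :=
    tabW3_get _ _ y hy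
  rw [e1, e2, e3, e4]
  exact blF_eq 40673129806168193 8388608 62 S81 8 W81 (by norm_num) z81 _ _ _ _

/-- The arrays of the pair `82`. -/
noncomputable def L82 : List O8 := bld W82 (nat_lit 10) []

/-- The blocks of the pair `82`. -/
noncomputable def G82 : List (List (List (List Nat))) :=
  tabW0 (fun h l => tabW0 (blF (nat_lit 41517554736300161) (nat_lit 8388608) S82 L82 h l))

theorem y82 : ∀ k < 6, W82 (74 + k) = 0 := by decide +kernel

theorem z82 : ∀ j, 74 ≤ j → j < 8 * 10 → W82 j = 0 := by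
  intro j h1 h2
  have h3 := y82 (j - 74) (by omega)
  rw [Nat.add_sub_cancel' h1] at h3
  exact h3

theorem g82 : ∀ x < 64, ∀ y < 64,
    nth2 0 8 (nth2 [] 8 G82 x) y = blL (nth2 [] 8 T82 x) (nth2 [] 8 T82 y) := by
  intro x hx y hy
  have e1 : nth2 [] 8 G82 x = tabW0 (blF 41517554736300161 8388608 S82 L82 (Nat.div (sgW 0 x) 8)
    (Nat.mod (sgW 0 x) 8)) := tabW0_get _ _ x hx
  have e2 : nth2 0 8 (tabW0 (blF 41517554736300161 8388608 S82 L82 (Nat.div (sgW 0 x) 8)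
    (Nat.mod (sgW 0 x) 8))) y = blF 41517554736300161 8388608 S82 L82 (Nat.div (sgW 0 x) 8)
    (Nat.mod (sgW 0 x) 8) (Nat.div (sgW 0 y) 8) (Nat.mod (sgW 0 y) 8) := tabW0_get _ _ y hy
  have e3 : nth2 [] 8 T82 x = lsW 41517554736300161 8388608 74 S82 W82 (Nat.div (sgW 0 x) 8) (Nat.mod (sgW 0 x) 8) :=
    tabW0_get _ _ x hx
  have e4 : nth2 [] 8 T82 y = lsW 41517554736300161 8388608 74 S82 W82 (Nat.div (sgW 0 y) 8) (Nat.mod (sgW 0 y) 8) :=
    tabW0_get _ _ y hy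
  rw [e1, e2, e3, e4]
  exact blF_eq 41517554736300161 8388608 74 S82 10 W82 (by norm_num) z82 _ _ _ _

/-- The arrays of the pair `83`. -/
noncomputable def L83 : List O8 := bld W83 (nat_lit 10) []

/-- The blocks of the pair `83`. -/
noncomputable def G83 : List (List (List (List Nat))) :=
  tabW1 (fun h l => tabW1 (blF (nat_lit 41517554736300161) (nat_lit 8388608) S83 L83 h l))

theorem y83 : ∀ k < 6, W83 (74 + k) = 0 := by decide +kernel

theorem z83 : ∀ j, 74 ≤ j → j < 8 * 10 → W83 j = 0 := by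
  intro j h1 h2
  have h3 := y83 (j - 74) (by omega)
  rw [Nat.add_sub_cancel' h1] at h3
  exact h3

theorem g83 : ∀ x < 64, ∀ y < 64,
    nth2 0 8 (nth2 [] 8 G83 x) y = blL (nth2 [] 8 T83 x) (nth2 [] 8 T83 y) := by
  intro x hx y hy
  have e1 : nth2 [] 8 G83 x = tabW1 (blF 41517554736300161 8388608 S83 L83 (Nat.div (sgW 1 x) 8)
    (Nat.mod (sgW 1 x) 8)) := tabW1_get _ _ x hx
  have e2 : nth2 0 8 (tabW1 (blF 41517554736300161 8388608 S83 L83 (Nat.div (sgW 1 x) 8)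
    (Nat.mod (sgW 1 x) 8))) y = blF 41517554736300161 8388608 S83 L83 (Nat.div (sgW 1 x) 8)
    (Nat.mod (sgW 1 x) 8) (Nat.div (sgW 1 y) 8) (Nat.mod (sgW 1 y) 8) := tabW1_get _ _ y hy
  have e3 : nth2 [] 8 T83 x = lsW 41517554736300161 8388608 74 S83 W83 (Nat.div (sgW 1 x) 8) (Nat.mod (sgW 1 x) 8) :=
    tabW1_get _ _ x hx
  have e4 : nth2 [] 8 T83 y = lsW 41517554736300161 8388608 74 S83 W83 (Nat.div (sgW 1 y) 8) (Nat.mod (sgW 1 y) 8) :=
    tabW1_get _ _ y hy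
  rw [e1, e2, e3, e4]
  exact blF_eq 41517554736300161 8388608 74 S83 10 W83 (by norm_num) z83 _ _ _ _

/-- The arrays of the pair `84`. -/
noncomputable def L84 : List O8 := bld W84 (nat_lit 10) []

/-- The blocks of the pair `84`. -/
noncomputable def G84 : List (List (List (List Nat))) :=
  tabW3 (fun h l => tabW3 (blF (nat_lit 41517554736300161) (nat_lit 8388608) S84 L84 h l))

theorem y84 : ∀ k < 6, W84 (74 + k) = 0 := by decide +kernel

theorem z84 : ∀ j, 74 ≤ j → j < 8 * 10 → W84 j = 0 := by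
  intro j h1 h2
  have h3 := y84 (j - 74) (by omega)
  rw [Nat.add_sub_cancel' h1] at h3
  exact h3

theorem g84 : ∀ x < 64, ∀ y < 64,
    nth2 0 8 (nth2 [] 8 G84 x) y = blL (nth2 [] 8 T84 x) (nth2 [] 8 T84 y) := by
  intro x hx y hy
  have e1 : nth2 [] 8 G84 x = tabW3 (blF 41517554736300161 8388608 S84 L84 (Nat.div (sgW 3 x) 8)
    (Nat.mod (sgW 3 x) 8)) := tabW3_get _ _ x hx
  have e2 : nth2 0 8 (tabW3 (blF 41517554736300161 8388608 S84 L84 (Nat.div (sgW 3 x) 8)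
    (Nat.mod (sgW 3 x) 8))) y = blF 41517554736300161 8388608 S84 L84 (Nat.div (sgW 3 x) 8)
    (Nat.mod (sgW 3 x) 8) (Nat.div (sgW 3 y) 8) (Nat.mod (sgW 3 y) 8) := tabW3_get _ _ y hy
  have e3 : nth2 [] 8 T84 x = lsW 41517554736300161 8388608 74 S84 W84 (Nat.div (sgW 3 x) 8) (Nat.mod (sgW 3 x) 8) :=
    tabW3_get _ _ x hx
  have e4 : nth2 [] 8 T84 y = lsW 41517554736300161 8388608 74 S84 W84 (Nat.div (sgW 3 y) 8) (Nat.mod (sgW 3 y) 8) :=
    tabW3_get _ _ y hy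
  rw [e1, e2, e3, e4]
  exact blF_eq 41517554736300161 8388608 74 S84 10 W84 (by norm_num) z84 _ _ _ _

/-- The arrays of the pair `85`. -/
noncomputable def L85 : List O8 := bld W85 (nat_lit 8) []

/-- The blocks of the pair `85`. -/
noncomputable def G85 : List (List (List (List Nat))) :=
  tabW0 (fun h l => tabW0 (blF (nat_lit 40673129806168193) (nat_lit 8388608) S85 L85 h l))

theorem y85 : ∀ k < 2, W85 (62 + k) = 0 := by decide +kernel

theorem z85 : ∀ j, 62 ≤ j → j < 8 * 8 → W85 j = 0 := by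
  intro j h1 h2
  have h3 := y85 (j - 62) (by omega)
  rw [Nat.add_sub_cancel' h1] at h3
  exact h3

theorem g85 : ∀ x < 64, ∀ y < 64,
    nth2 0 8 (nth2 [] 8 G85 x) y = blL (nth2 [] 8 T85 x) (nth2 [] 8 T85 y) := by
  intro x hx y hy
  have e1 : nth2 [] 8 G85 x = tabW0 (blF 40673129806168193 8388608 S85 L85 (Nat.div (sgW 0 x) 8)
    (Nat.mod (sgW 0 x) 8)) := tabW0_get _ _ x hx
  have e2 : nth2 0 8 (tabW0 (blF 40673129806168193 8388608 S85 L85 (Nat.div (sgW 0 x) 8)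
    (Nat.mod (sgW 0 x) 8))) y = blF 40673129806168193 8388608 S85 L85 (Nat.div (sgW 0 x) 8)
    (Nat.mod (sgW 0 x) 8) (Nat.div (sgW 0 y) 8) (Nat.mod (sgW 0 y) 8) := tabW0_get _ _ y hy
  have e3 : nth2 [] 8 T85 x = lsW 40673129806168193 8388608 62 S85 W85 (Nat.div (sgW 0 x) 8) (Nat.mod (sgW 0 x) 8) :=
    tabW0_get _ _ x hx
  have e4 : nth2 [] 8 T85 y = lsW 40673129806168193 8388608 62 S85 W85 (Nat.div (sgW 0 y) 8) (Nat.mod (sgW 0 y) 8) :=
    tabW0_get _ _ y hy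
  rw [e1, e2, e3, e4]
  exact blF_eq 40673129806168193 8388608 62 S85 8 W85 (by norm_num) z85 _ _ _ _

/-- The arrays of the pair `86`. -/
noncomputable def L86 : List O8 := bld W86 (nat_lit 8) []

/-- The blocks of the pair `86`. -/
noncomputable def G86 : List (List (List (List Nat))) :=
  tabW4 (fun h l => tabW4 (blF (nat_lit 40673129806168193) (nat_lit 8388608) S86 L86 h l))

theorem y86 : ∀ k < 2, W86 (62 + k) = 0 := by decide +kernel

theorem z86 : ∀ j, 62 ≤ j → j < 8 * 8 → W86 j = 0 := by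
  intro j h1 h2
  have h3 := y86 (j - 62) (by omega)
  rw [Nat.add_sub_cancel' h1] at h3
  exact h3

theorem g86 : ∀ x < 64, ∀ y < 64,
    nth2 0 8 (nth2 [] 8 G86 x) y = blL (nth2 [] 8 T86 x) (nth2 [] 8 T86 y) := by
  intro x hx y hy
  have e1 : nth2 [] 8 G86 x = tabW4 (blF 40673129806168193 8388608 S86 L86 (Nat.div (sgW 4 x) 8)
    (Nat.mod (sgW 4 x) 8)) := tabW4_get _ _ x hx
  have e2 : nth2 0 8 (tabW4 (blF 40673129806168193 8388608 S86 L86 (Nat.div (sgW 4 x) 8)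
    (Nat.mod (sgW 4 x) 8))) y = blF 40673129806168193 8388608 S86 L86 (Nat.div (sgW 4 x) 8)
    (Nat.mod (sgW 4 x) 8) (Nat.div (sgW 4 y) 8) (Nat.mod (sgW 4 y) 8) := tabW4_get _ _ y hy
  have e3 : nth2 [] 8 T86 x = lsW 40673129806168193 8388608 62 S86 W86 (Nat.div (sgW 4 x) 8) (Nat.mod (sgW 4 x) 8) :=
    tabW4_get _ _ x hx
  have e4 : nth2 [] 8 T86 y = lsW 40673129806168193 8388608 62 S86 W86 (Nat.div (sgW 4 y) 8) (Nat.mod (sgW 4 y) 8) :=
    tabW4_get _ _ y hy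
  rw [e1, e2, e3, e4]
  exact blF_eq 40673129806168193 8388608 62 S86 8 W86 (by norm_num) z86 _ _ _ _

/-- The arrays of the pair `87`. -/
noncomputable def L87 : List O8 := bld W87 (nat_lit 10) []

/-- The blocks of the pair `87`. -/
noncomputable def G87 : List (List (List (List Nat))) :=
  tabW0 (fun h l => tabW0 (blF (nat_lit 41799029713010817) (nat_lit 8388608) S87 L87 h l))

theorem y87 : ∀ k < 2, W87 (78 + k) = 0 := by decide +kernel

theorem z87 : ∀ j, 78 ≤ j → j < 8 * 10 → W87 j = 0 := by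
  intro j h1 h2
  have h3 := y87 (j - 78) (by omega)
  rw [Nat.add_sub_cancel' h1] at h3
  exact h3

theorem g87 : ∀ x < 64, ∀ y < 64,
    nth2 0 8 (nth2 [] 8 G87 x) y = blL (nth2 [] 8 T87 x) (nth2 [] 8 T87 y) := by
  intro x hx y hy
  have e1 : nth2 [] 8 G87 x = tabW0 (blF 41799029713010817 8388608 S87 L87 (Nat.div (sgW 0 x) 8)
    (Nat.mod (sgW 0 x) 8)) := tabW0_get _ _ x hx
  have e2 : nth2 0 8 (tabW0 (blF 41799029713010817 8388608 S87 L87 (Nat.div (sgW 0 x) 8)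
    (Nat.mod (sgW 0 x) 8))) y = blF 41799029713010817 8388608 S87 L87 (Nat.div (sgW 0 x) 8)
    (Nat.mod (sgW 0 x) 8) (Nat.div (sgW 0 y) 8) (Nat.mod (sgW 0 y) 8) := tabW0_get _ _ y hy
  have e3 : nth2 [] 8 T87 x = lsW 41799029713010817 8388608 78 S87 W87 (Nat.div (sgW 0 x) 8) (Nat.mod (sgW 0 x) 8) :=
    tabW0_get _ _ x hx
  have e4 : nth2 [] 8 T87 y = lsW 41799029713010817 8388608 78 S87 W87 (Nat.div (sgW 0 y) 8) (Nat.mod (sgW 0 y) 8) :=
    tabW0_get _ _ y hy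
  rw [e1, e2, e3, e4]
  exact blF_eq 41799029713010817 8388608 78 S87 10 W87 (by norm_num) z87 _ _ _ _

/-- The arrays of the pair `88`. -/
noncomputable def L88 : List O8 := bld W88 (nat_lit 10) []

/-- The blocks of the pair `88`. -/
noncomputable def G88 : List (List (List (List Nat))) :=
  tabW2 (fun h l => tabW2 (blF (nat_lit 41799029713010817) (nat_lit 8388608) S88 L88 h l))

theorem y88 : ∀ k < 2, W88 (78 + k) = 0 := by decide +kernel

theorem z88 : ∀ j, 78 ≤ j → j < 8 * 10 → W88 j = 0 := by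
  intro j h1 h2
  have h3 := y88 (j - 78) (by omega)
  rw [Nat.add_sub_cancel' h1] at h3
  exact h3

theorem g88 : ∀ x < 64, ∀ y < 64,
    nth2 0 8 (nth2 [] 8 G88 x) y = blL (nth2 [] 8 T88 x) (nth2 [] 8 T88 y) := by
  intro x hx y hy
  have e1 : nth2 [] 8 G88 x = tabW2 (blF 41799029713010817 8388608 S88 L88 (Nat.div (sgW 2 x) 8)
    (Nat.mod (sgW 2 x) 8)) := tabW2_get _ _ x hx
  have e2 : nth2 0 8 (tabW2 (blF 41799029713010817 8388608 S88 L88 (Nat.div (sgW 2 x) 8)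
    (Nat.mod (sgW 2 x) 8))) y = blF 41799029713010817 8388608 S88 L88 (Nat.div (sgW 2 x) 8)
    (Nat.mod (sgW 2 x) 8) (Nat.div (sgW 2 y) 8) (Nat.mod (sgW 2 y) 8) := tabW2_get _ _ y hy
  have e3 : nth2 [] 8 T88 x = lsW 41799029713010817 8388608 78 S88 W88 (Nat.div (sgW 2 x) 8) (Nat.mod (sgW 2 x) 8) :=
    tabW2_get _ _ x hx
  have e4 : nth2 [] 8 T88 y = lsW 41799029713010817 8388608 78 S88 W88 (Nat.div (sgW 2 y) 8) (Nat.mod (sgW 2 y) 8) :=
    tabW2_get _ _ y hy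
  rw [e1, e2, e3, e4]
  exact blF_eq 41799029713010817 8388608 78 S88 10 W88 (by norm_num) z88 _ _ _ _

/-- The arrays of the pair `89`. -/
noncomputable def L89 : List O8 := bld W89 (nat_lit 14) []

/-- The blocks of the pair `89`. -/
noncomputable def G89 : List (List (List (List Nat))) :=
  tabW0 (fun h l => tabW0 (blF (nat_lit 43698985805807745) (nat_lit 8388608) S89 L89 h l))

theorem y89 : ∀ k < 7, W89 (105 + k) = 0 := by decide +kernel

theorem z89 : ∀ j, 105 ≤ j → j < 8 * 14 → W89 j = 0 := by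
  intro j h1 h2
  have h3 := y89 (j - 105) (by omega)
  rw [Nat.add_sub_cancel' h1] at h3
  exact h3

theorem g89 : ∀ x < 64, ∀ y < 64,
    nth2 0 8 (nth2 [] 8 G89 x) y = blL (nth2 [] 8 T89 x) (nth2 [] 8 T89 y) := by
  intro x hx y hy
  have e1 : nth2 [] 8 G89 x = tabW0 (blF 43698985805807745 8388608 S89 L89 (Nat.div (sgW 0 x) 8)
    (Nat.mod (sgW 0 x) 8)) := tabW0_get _ _ x hx
  have e2 : nth2 0 8 (tabW0 (blF 43698985805807745 8388608 S89 L89 (Nat.div (sgW 0 x) 8)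
    (Nat.mod (sgW 0 x) 8))) y = blF 43698985805807745 8388608 S89 L89 (Nat.div (sgW 0 x) 8)
    (Nat.mod (sgW 0 x) 8) (Nat.div (sgW 0 y) 8) (Nat.mod (sgW 0 y) 8) := tabW0_get _ _ y hy
  have e3 : nth2 [] 8 T89 x = lsW 43698985805807745 8388608 105 S89 W89 (Nat.div (sgW 0 x) 8) (Nat.mod (sgW 0 x) 8) :=
    tabW0_get _ _ x hx
  have e4 : nth2 [] 8 T89 y = lsW 43698985805807745 8388608 105 S89 W89 (Nat.div (sgW 0 y) 8) (Nat.mod (sgW 0 y) 8) :=
    tabW0_get _ _ y hy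
  rw [e1, e2, e3, e4]
  exact blF_eq 43698985805807745 8388608 105 S89 14 W89 (by norm_num) z89 _ _ _ _

/-- The blocks. -/
noncomputable def FT : List (List (List (List (List (List Nat))))) := [
  [G00, G01, G02, G03, G04, G05, G06, G07, G08, G09],
  [G10, G11, G12, G13, G14, G15, G16, G17, G18, G19],
  [G20, G21, G22, G23, G24, G25, G26, G27, G28, G29],
  [G30, G31, G32, G33, G34, G35, G36, G37, G38, G39],
  [G40, G41, G42, G43, G44, G45, G46, G47, G48, G49],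
  [G50, G51, G52, G53, G54, G55, G56, G57, G58, G59],
  [G60, G61, G62, G63, G64, G65, G66, G67, G68, G69],
  [G70, G71, G72, G73, G74, G75, G76, G77, G78, G79],
  [G80, G81, G82, G83, G84, G85, G86, G87, G88, G89]]

/-- The block of a pair and two times six low bits. -/
noncomputable def blT (t x y : ℕ) : ℕ := nth2 0 8 (nth2 [] 8 (nth2 [] 10 FT t) x) y

theorem blT_eq : ∀ t < 90, ∀ x < 64, ∀ y < 64, blT t x y = blL (ls t x) (ls t y) := by
  intro t ht
  interval_cases t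
  · exact g00
  · exact g01
  · exact g02
  · exact g03
  · exact g04
  · exact g05
  · exact g06
  · exact g07
  · exact g08
  · exact g09
  · exact g10
  · exact g11
  · exact g12
  · exact g13
  · exact g14
  · exact g15
  · exact g16
  · exact g17
  · exact g18
  · exact g19
  · exact g20
  · exact g21
  · exact g22
  · exact g23
  · exact g24
  · exact g25
  · exact g26
  · exact g27
  · exact g28
  · exact g29
  · exact g30
  · exact g31
  · exact g32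
  · exact g33
  · exact g34
  · exact g35
  · exact g36
  · exact g37
  · exact g38
  · exact g39
  · exact g40
  · exact g41
  · exact g42
  · exact g43
  · exact g44
  · exact g45
  · exact g46
  · exact g47
  · exact g48
  · exact g49
  · exact g50
  · exact g51
  · exact g52
  · exact g53
  · exact g54
  · exact g55
  · exact g56
  · exact g57
  · exact g58
  · exact g59
  · exact g60
  · exact g61
  · exact g62
  · exact g63
  · exact g64
  · exact g65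
  · exact g66
  · exact g67
  · exact g68
  · exact g69
  · exact g70
  · exact g71
  · exact g72
  · exact g73
  · exact g74
  · exact g75
  · exact g76
  · exact g77
  · exact g78
  · exact g79
  · exact g80
  · exact g81
  · exact g82
  · exact g83
  · exact g84
  · exact g85
  · exact g86
  · exact g87
  · exact g88
  · exact g89

/-- The block of a pattern. -/
noncomputable def bkF (p x0 y0 : ℕ) : ℕ :=
  ruF (LD.dpp p) (blT (LD.dtn p) (LD.dkx (LD.dpp p) x0) (LD.dkx (LD.dpp p) y0))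

theorem bkF_eq : ∀ p < 1024, ∀ x < 64, ∀ y < 64, bkF p x y = (LD.mk2 ls ls_ok).bk p x y := by
  intro p hp x hx y hy
  have hk : LD.dpp p < 120 := (ppC_spec _ _ _ _ _ (allN_spec _ _ LD.chk_pp p hp)).2.1
  have ht : LD.dtn p < 90 := by
    have h0 := allN_spec _ _ LD.chk_tn p hp
    unfold tnChk at h0
    rw [Bool.and_eq_true, Bool.and_eq_true] at h0
    obtain ⟨h1, -, -⟩ := h0
    rwa [Nat.blt_eq] at h1
  have hx' : LD.dkx (LD.dpp p) x < 64 := (LD.mk2 ls ls_ok).T.kx_lt (LD.dpp p) x hk hx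
  have hy' : LD.dkx (LD.dpp p) y < 64 := (LD.mk2 ls ls_ok).T.kx_lt (LD.dpp p) y hk hy
  have e : (LD.mk2 ls ls_ok).bk p x y = ruG 64 (LD.dpgb (LD.dpp p)) 8
    (blL (ls (LD.dtn p) (LD.dkx (LD.dpp p) x)) (ls (LD.dtn p) (LD.dkx (LD.dpp p) y))) := rfl
  rw [e, LD.dpgb_eq _ hk, ← ruF_eq _ hk, ← blT_eq _ ht _ hx' _ hy']
  rfl

end Pool.Agent.Lib.MP_afdd4d_co.K10.LS
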